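import Mathlib

/-!
# A circle involution and an antisymmetric function with non-antisymmetric sum

`T t` is the distance of `t` to the nearest integer, `psi` a bump with
`psi t + psi (t - 1/3) + psi (t - 2/3) = 1`, `f = 3 - 6 * psi` and `rho` a homeomorphism of the
line with `rho (rho t) = t + 1` and `f (rho t) = - f t`.
-/

set_option autoImplicit false

namespace Run7.h643

/-- distance to the nearest integer -/
noncomputable def T (t : ℝ) : ℝ := ‖(t : AddCircle (1 : ℝ))‖

lemma T_add_one (t : ℝ) : T (t + 1) = T t := by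
  unfold T; rw [AddCircle.coe_add_period]

lemma T_periodic : Function.Periodic T 1 := T_add_one

lemma T_add_int (t : ℝ) (n : ℤ) : T (t + n) = T t := by
  have := T_periodic.int_mul n t
  simpa using this

lemma T_eq_abs {t : ℝ} (h : |t| ≤ 1 / 2) : T t = |t| := by
  unfold T
  exact (AddCircle.norm_coe_eq_abs_iff (1 : ℝ) one_ne_zero).2 (by simpa using h)

lemma T_nonneg (t : ℝ) : 0 ≤ T t := norm_nonneg _

lemma T_le (t : ℝ) : T t ≤ 1 / 2 := by
  have := AddCircle.norm_le_half_period (1 : ℝ) (x := (t : AddCircle (1 : ℝ))) one_ne_zero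
  simpa [T] using this

lemma T_le_abs (t : ℝ) : T t ≤ |t| := by
  rcases le_total |t| (1 / 2) with h | h
  · rw [T_eq_abs h]
  · exact (T_le t).trans h

lemma T_lip (x y : ℝ) : |T x - T y| ≤ |x - y| := by
  have h1 : |T x - T y| ≤ T (x - y) := by
    unfold T
    exact abs_norm_sub_norm_le _ _
  exact h1.trans (T_le_abs _)

lemma T_continuous : Continuous T := by
  unfold T
  exact continuous_norm.comp (AddCircle.continuous_mk' 1)

/-- the conjugating homeomorphism, as a function -/
noncomputable def h0 (t : ℝ) : ℝ := t - 1 / 2 * T (t - 1 / 4)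

lemma h0_strictMono : StrictMono h0 := by
  intro x y hxy
  unfold h0
  have h := T_lip (y - 1 / 4) (x - 1 / 4)
  have h' : (y - 1 / 4) - (x - 1 / 4) = y - x := by ring
  rw [h', abs_of_pos (sub_pos.2 hxy)] at h
  have := le_of_abs_le h
  linarith

lemma h0_continuous : Continuous h0 := by
  unfold h0
  exact continuous_id.sub (continuous_const.mul (T_continuous.comp (continuous_id.sub continuous_const)))

lemma h0_le (t : ℝ) : h0 t ≤ t := by
  unfold h0; have := T_nonneg (t - 1 / 4); linarith

lemma le_h0 (t : ℝ) : t - 1 / 4 ≤ h0 t := by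
  unfold h0; have := T_le (t - 1 / 4); linarith

lemma h0_surjective : Function.Surjective h0 := by
  refine h0_continuous.surjective ?_ ?_
  · refine Filter.tendsto_atTop_mono le_h0 ?_
    exact Filter.tendsto_atTop_add_const_right _ _ Filter.tendsto_id
  · exact Filter.tendsto_atBot_mono h0_le Filter.tendsto_id

lemma h0_add_one (t : ℝ) : h0 (t + 1) = h0 t + 1 := by
  unfold h0
  have : t + 1 - 1 / 4 = (t - 1 / 4) + 1 := by ring
  rw [this, T_add_one]; ring

lemma h0_add_int (t : ℝ) (n : ℤ) : h0 (t + n) = h0 t + n := by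
  unfold h0
  have : t + n - 1 / 4 = (t - 1 / 4) + n := by ring
  rw [this, T_add_int]; ring

/-- the conjugating homeomorphism -/
noncomputable def hh : ℝ ≃ₜ ℝ :=
  (StrictMono.orderIsoOfSurjective h0 h0_strictMono h0_surjective).toHomeomorph

lemma hh_apply (t : ℝ) : hh t = h0 t := rfl

/-- the lift of the circle involution -/
noncomputable def rho : ℝ ≃ₜ ℝ := (hh.trans (Homeomorph.addRight (1 / 2))).trans hh.symm

lemma h0_rho (t : ℝ) : h0 (rho t) = h0 t + 1 / 2 := by
  have : hh (rho t) = hh t + 1 / 2 := by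
    simp [rho]
  exact this

lemma rho_rho (t : ℝ) : rho (rho t) = t + 1 := by
  apply h0_strictMono.injective
  rw [h0_rho, h0_rho, h0_add_one]; ring

/-- the bump -/
noncomputable def psi (t : ℝ) : ℝ := max 0 (min 1 (3 / 2 - 6 * T t))

/-- the function -/
noncomputable def f (t : ℝ) : ℝ := 3 - 6 * psi t

lemma psi_add_int (t : ℝ) (n : ℤ) : psi (t + n) = psi t := by
  unfold psi; rw [T_add_int]

lemma f_add_one (t : ℝ) : f (t + 1) = f t := by
  unfold f psi; rw [T_add_one]

lemma f_add_int (t : ℝ) (n : ℤ) : f (t + n) = f t := by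
  unfold f; rw [psi_add_int]

lemma psi_continuous : Continuous psi := by
  unfold psi
  exact continuous_const.max (continuous_const.min (continuous_const.sub
    (continuous_const.mul T_continuous)))

lemma f_continuous : Continuous f := by
  unfold f
  exact continuous_const.sub (continuous_const.mul psi_continuous)

lemma psi_nonneg (t : ℝ) : 0 ≤ psi t := le_max_left _ _

lemma psi_le (t : ℝ) : psi t ≤ 1 := max_le zero_le_one (min_le_left _ _)

lemma abs_f_le (t : ℝ) : |f t| ≤ 3 := by
  unfold f
  rw [abs_le]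
  constructor <;> linarith [psi_nonneg t, psi_le t]

lemma psi_one {t : ℝ} (h : T t ≤ 1 / 12) : psi t = 1 := by
  unfold psi
  rw [min_eq_left (by linarith), max_eq_right zero_le_one]

lemma psi_zero {t : ℝ} (h : 1 / 4 ≤ T t) : psi t = 0 := by
  unfold psi
  rw [min_eq_right (by linarith), max_eq_left (by linarith)]

lemma psi_mid {t : ℝ} (h : 1 / 12 ≤ T t) (h' : T t ≤ 1 / 4) : psi t = 3 / 2 - 6 * T t := by
  unfold psi
  rw [min_eq_right (by linarith), max_eq_right (by linarith)]

lemma T_of_mem_zero {t : ℝ} (h : 0 ≤ t) (h' : t ≤ 1 / 2) : T t = t := by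
  rw [T_eq_abs (by rw [abs_of_nonneg h]; exact h'), abs_of_nonneg h]

lemma T_of_neg {t : ℝ} (h : -(1 / 2) ≤ t) (h' : t ≤ 0) : T t = -t := by
  rw [T_eq_abs (by rw [abs_of_nonpos h']; linarith), abs_of_nonpos h']

lemma T_of_mem_one {t : ℝ} (h : 1 / 2 ≤ t) (h' : t ≤ 1) : T t = 1 - t := by
  have h1 : T t = T (t - 1) := by
    have := T_add_one (t - 1); simpa using this
  rw [h1, T_of_neg (by linarith) (by linarith)]; ring

lemma T_of_mem_one' {t : ℝ} (h : 1 ≤ t) (h' : t ≤ 3 / 2) : T t = t - 1 := by
  have h1 : T t = T (t - 1) := by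
    have := T_add_one (t - 1); simpa using this
  rw [h1, T_of_mem_zero (by linarith) (by linarith)]

lemma T_of_neg' {t : ℝ} (h : -1 ≤ t) (h' : t ≤ -(1 / 2)) : T t = t + 1 := by
  have h1 : T t = T (t + 1) := (T_add_one t).symm
  rw [h1, T_of_mem_zero (by linarith) (by linarith)]

lemma psi_of_h0 {x y : ℝ} (e : h0 y = h0 x + 1 / 2) : psi y = 1 - psi x := by
  -- reduce to `u ∈ [-1/4, 3/4)`
  obtain ⟨n, u, hu, hu', rfl⟩ : ∃ (n : ℤ) (u : ℝ), -(1 / 4) ≤ u ∧ u ≤ 3 / 4 ∧ x = u + n := by
    refine ⟨⌊x + 1 / 4⌋, x - ⌊x + 1 / 4⌋, ?_, ?_, by ring⟩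
    · linarith [Int.floor_le (x + 1 / 4)]
    · linarith [Int.lt_floor_add_one (x + 1 / 4)]
  obtain ⟨v, rfl⟩ : ∃ v : ℝ, y = v + n := ⟨y - n, by ring⟩
  rw [psi_add_int, psi_add_int]
  rw [h0_add_int, h0_add_int] at e
  have e' : h0 v = h0 u + 1 / 2 := by linarith
  clear e
  have key : ∀ v' : ℝ, h0 v' = h0 u + 1 / 2 → v = v' := fun v' h =>
    h0_strictMono.injective (e'.trans h.symm)
  rcases le_total u (1 / 4) with h4 | h4
  · have hu0 : h0 u = 3 / 2 * u - 1 / 8 := by
      unfold h0; rw [T_of_neg (by linarith) (by linarith)]; ring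
    rcases le_total u (-(1 / 12)) with h1 | h1
    · have hv := key (u + 1 / 3) (by
        rw [hu0]; unfold h0; rw [T_of_neg (by linarith) (by linarith)]; ring)
      have Tu : T u = -u := T_of_neg (by linarith) (by linarith)
      have Tv : T v = v := T_of_mem_zero (by linarith) (by linarith)
      rw [psi_mid (by linarith) (by linarith), psi_mid (by linarith) (by linarith), Tu, Tv, hv]
      ring
    · rcases le_total u (1 / 12) with h2 | h2
      · have hv := key (3 * u + 1 / 2) (by
          rw [hu0]; unfold h0; rw [T_of_mem_zero (by linarith) (by linarith)]; ring)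
        have Tu : T u ≤ 1 / 12 := (T_le_abs u).trans (abs_le.2 ⟨h1, h2⟩)
        have Tv : 1 / 4 ≤ T v := by
          rcases le_total v (1 / 2) with h | h
          · rw [T_of_mem_zero (by linarith) (by linarith)]; linarith
          · rw [T_of_mem_one (by linarith) (by linarith)]; linarith
        rw [psi_one Tu, psi_zero Tv]; ring
      · have hv := key (u + 2 / 3) (by
          rw [hu0]; unfold h0; rw [T_of_mem_one (by linarith) (by linarith)]; ring)
        have Tu : T u = u := T_of_mem_zero (by linarith) (by linarith)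
        have Tv : T v = 1 - v := T_of_mem_one (by linarith) (by linarith)
        rw [psi_mid (by linarith) (by linarith), psi_mid (by linarith) (by linarith), Tu, Tv, hv]
        ring
  · have hu0 : h0 u = 1 / 2 * u + 1 / 8 := by
      unfold h0; rw [T_of_mem_zero (by linarith) (by linarith)]; ring
    have hv := key (1 / 3 * u + 5 / 6) (by
      rw [hu0]; unfold h0; rw [T_of_mem_one (by linarith) (by linarith)]; ring)
    have Tu : 1 / 4 ≤ T u := by
      rcases le_total u (1 / 2) with h | h
      · rw [T_of_mem_zero (by linarith) (by linarith)]; linarith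
      · rw [T_of_mem_one (by linarith) (by linarith)]; linarith
    have Tv : T v ≤ 1 / 12 := by
      rcases le_total v 1 with h | h
      · rw [T_of_mem_one (by linarith) (by linarith)]; linarith
      · rw [T_of_mem_one' (by linarith) (by linarith)]; linarith
    rw [psi_zero Tu, psi_one Tv]; ring

lemma f_rho (t : ℝ) : f (rho t) = - f t := by
  unfold f
  rw [psi_of_h0 (h0_rho t)]; ring

lemma abs_rho_sub_le (t : ℝ) : |rho t - t| ≤ 1 := by
  have h1 := h0_rho t
  have h2 := h0_le t
  have h3 := le_h0 t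
  have h4 := h0_le (rho t)
  have h5 := le_h0 (rho t)
  rw [abs_le]
  constructor <;> linarith

lemma rho_add_one (t : ℝ) : rho (t + 1) = rho t + 1 := by
  apply h0_strictMono.injective
  rw [h0_rho, h0_add_one, h0_add_one, h0_rho]; ring

/-- The three translated bumps form a partition of unity. -/
lemma psi_sum (t : ℝ) : psi t + psi (t - 1 / 3) + psi (t - 2 / 3) = 1 := by
  -- the sum is `1/3`-periodic, so reduce to `u ∈ [-1/6, 1/6]`
  have S : ∀ u : ℝ, -(1 / 6) ≤ u → u ≤ 1 / 6 →
      psi u + psi (u - 1 / 3) + psi (u - 2 / 3) = 1 := by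
    intro u h h'
    have e1 : T (u - 1 / 3) = 1 / 3 - u := by
      rw [T_of_neg (by linarith) (by linarith)]; ring
    have e2 : T (u - 2 / 3) = u + 1 / 3 := by
      rw [T_of_neg' (by linarith) (by linarith)]; ring
    rcases le_total u (-(1 / 12)) with h1 | h1
    · have e0 : T u = -u := T_of_neg (by linarith) (by linarith)
      rw [psi_mid (by linarith) (by linarith), psi_zero (by linarith),
        psi_mid (by linarith) (by linarith), e0, e2]; ring
    · rcases le_total u (1 / 12) with h2 | h2
      · rw [psi_one ((T_le_abs u).trans (abs_le.2 ⟨h1, h2⟩)), psi_zero (by linarith),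
          psi_zero (by linarith)]; ring
      · have e0 : T u = u := T_of_mem_zero (by linarith) (by linarith)
        rw [psi_mid (by linarith) (by linarith), psi_mid (by linarith) (by linarith),
          psi_zero (by linarith), e0, e1]; ring
  have per : ∀ t : ℝ, psi (t + 1 / 3) + psi (t + 1 / 3 - 1 / 3) + psi (t + 1 / 3 - 2 / 3) =
      psi t + psi (t - 1 / 3) + psi (t - 2 / 3) := by
    intro t
    have e1 : psi (t + 1 / 3) = psi (t - 2 / 3) := by
      have := psi_add_int (t - 2 / 3) 1
      rw [← this]; congr 1; push_cast; ring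
    have e2 : t + 1 / 3 - 1 / 3 = t := by ring
    have e3 : t + 1 / 3 - 2 / 3 = t - 1 / 3 := by ring
    rw [e1, e2, e3]; ring
  have per' : Function.Periodic (fun t => psi t + psi (t - 1 / 3) + psi (t - 2 / 3)) (1 / 3) := per
  obtain ⟨n, u, hu, hu', rfl⟩ : ∃ (n : ℤ) (u : ℝ), -(1 / 6) ≤ u ∧ u ≤ 1 / 6 ∧
      t = u + n * (1 / 3) := by
    refine ⟨⌊3 * t + 1 / 2⌋, t - ⌊3 * t + 1 / 2⌋ * (1 / 3), ?_, ?_, by ring⟩
    · linarith [Int.floor_le (3 * t + 1 / 2)]
    · linarith [Int.lt_floor_add_one (3 * t + 1 / 2)]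
  have := per'.int_mul n u
  rw [this]
  exact S u hu hu'

lemma f_sum (t : ℝ) : f t + f (t - 1 / 3) + f (t - 2 / 3) = 3 := by
  have := psi_sum t
  unfold f; linarith

end Run7.h643
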