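import Mathlib

/-!
# A configuration of square roots that violates the unique product property

Abstract part.  Let `G` be a group with central elements `X`, `Y`.  Suppose there are
`r i`, `c i` (`i = 0,1,2`) with `r i * r i = Y`, `c i * c i = Y⁻¹` and
`(c 2 * r 2) * (c 1 * r 1) * (c 0 * r 0) = X ^ 3`, and also `u i`, `d i` with
`u i * u i = X`, `d i * d i = X⁻¹` and `(d 2 * u 2) * (d 1 * u 1) * (d 0 * u 0) = Y ^ 3`,
with `r i, c i, c i * r i, u i, d i, d i * u i` all nontrivial.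
Then some product of two finite nonempty subsets of `G` has no uniquely represented element.
-/

set_option autoImplicit false

open scoped Pointwise

namespace Run7.h643

variable {G : Type*} [Group G] [DecidableEq G]

/-- The left four-element set of a level. -/
def P (r c : G) : Finset G := {1, r, c, c * r}

/-- The right four-element set of a level. -/
def Q (r c : G) : Finset G := {1, r, c, r * c}

lemma mem_P {r c p : G} : p ∈ P r c ↔ p = 1 ∨ p = r ∨ p = c ∨ p = c * r := by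
  simp [P]

lemma mem_Q {r c p : G} : p ∈ Q r c ↔ p = 1 ∨ p = r ∨ p = c ∨ p = r * c := by
  simp [Q]

/-- If the pair at the outer level is unique, so is the inner pair. -/
lemma unique_inner {A S T B : Finset G} {α p q β : G} (hα : α ∈ A) (hβ : β ∈ B)
    (h : UniqueMul (A * S) (T * B) (α * p) (q * β)) : UniqueMul S T p q := by
  intro p' q' hp' hq' e
  have key := h (Finset.mul_mem_mul hα hp') (Finset.mul_mem_mul hq' hβ)
    (by
      calc α * p' * (q' * β) = α * (p' * q') * β := by group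
        _ = α * (p * q) * β := by rw [e]
        _ = α * p * (q * β) := by group)
  exact ⟨mul_left_cancel key.1, mul_right_cancel key.2⟩

/-- If the pair at the outer level is unique and the inner product is central, the outer
pair is unique. -/
lemma unique_outer {A S T B : Finset G} {α p q β : G} (hp : p ∈ S) (hq : q ∈ T)
    (hz : ∀ g : G, p * q * g = g * (p * q))
    (h : UniqueMul (A * S) (T * B) (α * p) (q * β)) : UniqueMul A B α β := by
  intro a b ha hb e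
  have key := h (Finset.mul_mem_mul ha hp) (Finset.mul_mem_mul hq hb)
    (by
      calc a * p * (q * b) = a * (p * q * b) := by group
        _ = a * (b * (p * q)) := by rw [hz]
        _ = (a * b) * (p * q) := by group
        _ = (α * β) * (p * q) := by rw [e]
        _ = α * (β * (p * q)) := by group
        _ = α * (p * q * β) := by rw [hz]
        _ = α * p * (q * β) := by group)
  exact ⟨mul_right_cancel key.1, mul_left_cancel key.2⟩

section level

variable {r c Y : G}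

omit [DecidableEq G] in
lemma lev_inv (hr : r * r = Y) (hc : c * c = Y⁻¹) : (c * r) * (r * c) = 1 := by
  calc (c * r) * (r * c) = c * (r * r) * c := by group
    _ = c * (c * c)⁻¹ * c := by rw [hr, hc, inv_inv]
    _ = 1 := by group

/-- In one level, only `(r, r)` and `(c, c)` can be unique. -/
lemma level (hr : r * r = Y) (hc : c * c = Y⁻¹) (r1 : r ≠ 1) (c1 : c ≠ 1) (cr1 : c * r ≠ 1)
    {p q : G} (hp : p ∈ P r c) (hq : q ∈ Q r c) (h : UniqueMul (P r c) (Q r c) p q) :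
    (p = r ∧ q = r) ∨ (p = c ∧ q = c) := by
  have i1 : (c * r) * (r * c) = 1 := lev_inv hr hc
  have i2 : r * r * (c * c) = 1 := by rw [hr, hc]; group
  have mP1 : (1 : G) ∈ P r c := by simp [P]
  have mPr : r ∈ P r c := by simp [P]
  have mPc : c ∈ P r c := by simp [P]
  have mPcr : c * r ∈ P r c := by simp [P]
  have mQ1 : (1 : G) ∈ Q r c := by simp [Q]
  have mQr : r ∈ Q r c := by simp [Q]
  have mQc : c ∈ Q r c := by simp [Q]
  have mQrc : r * c ∈ Q r c := by simp [Q]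
  have ycr : c * r * r = c⁻¹ := by
    calc c * r * r = c * (r * r) := by group
      _ = c * (c * c)⁻¹ := by rw [hr, hc, inv_inv]
      _ = c⁻¹ := by group
  have yrc : r * (r * c) = c⁻¹ := by
    calc r * (r * c) = (r * r) * c := by group
      _ = (c * c)⁻¹ * c := by rw [hr, hc, inv_inv]
      _ = c⁻¹ := by group
  rcases mem_P.1 hp with rfl | rfl | rfl | rfl <;> rcases mem_Q.1 hq with rfl | rfl | rfl | rfl
  -- p = 1
  · exact absurd (h mPcr mQrc (by rw [i1, mul_one])).1 cr1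
  · exact absurd (h mPr mQ1 (by simp)).1 r1
  · exact absurd (h mPc mQ1 (by simp)).1 c1
  · exact absurd (h mPr mQc (by simp)).1 r1
  -- p = r
  · exact absurd (h mP1 mQr (by simp)).1.symm r1
  · exact Or.inl ⟨rfl, rfl⟩
  · exact absurd (h mP1 mQrc (by simp)).1.symm r1
  · have := (h mPcr mQr (by rw [ycr, yrc])).1
    exact absurd (by simpa using this) c1
  -- p = c
  · exact absurd (h mP1 mQc (by simp)).1.symm c1
  · have := (h mPcr mQ1 (by simp)).1
    exact absurd (by simpa using this) r1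
  · exact Or.inr ⟨rfl, rfl⟩
  · have := (h mPcr mQc (by group)).1
    exact absurd (by simpa using this) r1
  -- p = c * r
  · have := (h mPc mQr (by simp)).1
    exact absurd (by simpa using this) r1
  · have := (h mPr mQrc (by rw [ycr, yrc])).1
    exact absurd (by simpa using this) c1
  · have := (h mPc mQrc (by group)).1
    exact absurd (by simpa using this) r1
  · exact absurd (h mP1 mQ1 (by rw [i1, mul_one])).1.symm cr1

lemma not_unique_one_one (hr : r * r = Y) (hc : c * c = Y⁻¹) (r1 : r ≠ 1) (c1 : c ≠ 1)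
    (cr1 : c * r ≠ 1) : ¬ UniqueMul (P r c) (Q r c) 1 1 := by
  intro h
  rcases level hr hc r1 c1 cr1 (by simp [P]) (by simp [Q]) h with h | h
  · exact r1 h.1.symm
  · exact c1 h.1.symm

lemma not_unique_a_one (hr : r * r = Y) (hc : c * c = Y⁻¹) (r1 : r ≠ 1) (c1 : c ≠ 1)
    (cr1 : c * r ≠ 1) : ¬ UniqueMul (P r c) (Q r c) (c * r) 1 := by
  intro h
  rcases level hr hc r1 c1 cr1 (by simp [P]) (by simp [Q]) h with h | h
  · exact r1 h.2.symm
  · exact c1 h.2.symm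

lemma not_unique_one_a (hr : r * r = Y) (hc : c * c = Y⁻¹) (r1 : r ≠ 1) (c1 : c ≠ 1)
    (cr1 : c * r ≠ 1) : ¬ UniqueMul (P r c) (Q r c) 1 (r * c) := by
  intro h
  rcases level hr hc r1 c1 cr1 (by simp [P]) (by simp [Q]) h with h | h
  · exact r1 h.1.symm
  · exact c1 h.1.symm

end level

/-- The data of one side: three pairs of square roots of a central element `Y` and of its
inverse. -/
structure Side (G : Type*) [Group G] (Y : G) where
  r : Fin 3 → G
  c : Fin 3 → G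
  hr : ∀ i, r i * r i = Y
  hc : ∀ i, c i * c i = Y⁻¹
  r1 : ∀ i, r i ≠ 1
  c1 : ∀ i, c i ≠ 1
  cr1 : ∀ i, c i * r i ≠ 1

namespace Side

variable {Y : G} (s : Side G Y)

/-- left set of a side -/
def A : Finset G := P (s.r 2) (s.c 2) * P (s.r 1) (s.c 1) * P (s.r 0) (s.c 0)

/-- right set of a side -/
def B : Finset G := Q (s.r 0) (s.c 0) * (Q (s.r 1) (s.c 1) * Q (s.r 2) (s.c 2))

/-- the product of the three shears -/
def a : G := (s.c 2 * s.r 2) * (s.c 1 * s.r 1) * (s.c 0 * s.r 0)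

lemma one_mem_A : (1 : G) ∈ s.A := by
  have := Finset.mul_mem_mul (Finset.mul_mem_mul (mem_P.2 (Or.inl rfl) : (1 : G) ∈ P (s.r 2) (s.c 2))
    (mem_P.2 (Or.inl rfl) : (1 : G) ∈ P (s.r 1) (s.c 1)))
    (mem_P.2 (Or.inl rfl) : (1 : G) ∈ P (s.r 0) (s.c 0))
  simpa [A] using this

lemma one_mem_B : (1 : G) ∈ s.B := by
  have := Finset.mul_mem_mul (mem_Q.2 (Or.inl rfl) : (1 : G) ∈ Q (s.r 0) (s.c 0))
    (Finset.mul_mem_mul (mem_Q.2 (Or.inl rfl) : (1 : G) ∈ Q (s.r 1) (s.c 1))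
      (mem_Q.2 (Or.inl rfl) : (1 : G) ∈ Q (s.r 2) (s.c 2)))
  simpa [B] using this

lemma mem_Pa (i : Fin 3) : s.c i * s.r i ∈ P (s.r i) (s.c i) := by simp [P]

lemma mem_Qa (i : Fin 3) : s.r i * s.c i ∈ Q (s.r i) (s.c i) := by simp [Q]

lemma a_mem_A : s.a ∈ s.A :=
  Finset.mul_mem_mul (Finset.mul_mem_mul (s.mem_Pa 2) (s.mem_Pa 1)) (s.mem_Pa 0)

omit [DecidableEq G] in
lemma rc_eq (i : Fin 3) : s.r i * s.c i = (s.c i * s.r i)⁻¹ :=
  eq_inv_of_mul_eq_one_right (lev_inv (s.hr i) (s.hc i))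

lemma a_inv : s.a⁻¹ = (s.r 0 * s.c 0) * ((s.r 1 * s.c 1) * (s.r 2 * s.c 2)) := by
  rw [s.rc_eq, s.rc_eq, s.rc_eq, a]; group

lemma a_inv_mem_B : s.a⁻¹ ∈ s.B := by
  rw [a_inv]
  exact Finset.mul_mem_mul (s.mem_Qa 0) (Finset.mul_mem_mul (s.mem_Qa 1) (s.mem_Qa 2))

lemma not_unique_a : ¬ UniqueMul s.A s.B s.a 1 := by
  intro h
  have h' : UniqueMul (P (s.r 2) (s.c 2) * P (s.r 1) (s.c 1) * P (s.r 0) (s.c 0))
      (Q (s.r 0) (s.c 0) * (Q (s.r 1) (s.c 1) * Q (s.r 2) (s.c 2)))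
      ((s.c 2 * s.r 2) * (s.c 1 * s.r 1) * (s.c 0 * s.r 0)) (1 * (1 * 1)) := by
    simpa [A, B, a] using h
  exact not_unique_a_one (s.hr 0) (s.hc 0) (s.r1 0) (s.c1 0) (s.cr1 0)
    (unique_inner (Finset.mul_mem_mul (s.mem_Pa 2) (s.mem_Pa 1))
      (Finset.mul_mem_mul (mem_Q.2 (Or.inl rfl)) (mem_Q.2 (Or.inl rfl))) h')

lemma not_unique_a_inv : ¬ UniqueMul s.A s.B 1 s.a⁻¹ := by
  intro h
  rw [a_inv] at h
  have h' : UniqueMul (P (s.r 2) (s.c 2) * P (s.r 1) (s.c 1) * P (s.r 0) (s.c 0))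
      (Q (s.r 0) (s.c 0) * (Q (s.r 1) (s.c 1) * Q (s.r 2) (s.c 2)))
      (1 * 1 * 1) ((s.r 0 * s.c 0) * ((s.r 1 * s.c 1) * (s.r 2 * s.c 2))) := by
    simpa [A, B] using h
  exact not_unique_one_a (s.hr 0) (s.hc 0) (s.r1 0) (s.c1 0) (s.cr1 0)
    (unique_inner (Finset.mul_mem_mul (mem_P.2 (Or.inl rfl)) (mem_P.2 (Or.inl rfl)))
      (Finset.mul_mem_mul (s.mem_Qa 1) (s.mem_Qa 2)) h')

/-- the pair `(1*1*t, t*1*1)` with `t ∈ {r 0, c 0}` is never unique -/
lemma not_unique_t {t : G} (ht : t = s.r 0 ∨ t = s.c 0) (hY : ∀ g : G, Y * g = g * Y) :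
    ¬ UniqueMul s.A s.B t t := by
  intro h
  have hP : t ∈ P (s.r 0) (s.c 0) := by rcases ht with rfl | rfl <;> simp [P]
  have hQ : t ∈ Q (s.r 0) (s.c 0) := by rcases ht with rfl | rfl <;> simp [Q]
  have hY' : ∀ g : G, Y⁻¹ * g = g * Y⁻¹ := fun g => by
    have := hY g
    calc Y⁻¹ * g = Y⁻¹ * (g * Y) * Y⁻¹ := by group
      _ = Y⁻¹ * (Y * g) * Y⁻¹ := by rw [this]
      _ = g * Y⁻¹ := by group
  have hz : ∀ g : G, t * t * g = g * (t * t) := by
    intro g
    rcases ht with rfl | rfl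
    · rw [s.hr]; exact hY g
    · rw [s.hc]; exact hY' g
  have h' : UniqueMul (P (s.r 2) (s.c 2) * P (s.r 1) (s.c 1) * P (s.r 0) (s.c 0))
      (Q (s.r 0) (s.c 0) * (Q (s.r 1) (s.c 1) * Q (s.r 2) (s.c 2)))
      (1 * 1 * t) (t * (1 * 1)) := by
    simpa [A, B] using h
  have h1 := unique_outer hP hQ hz h'
  have h2 := unique_inner (mem_P.2 (Or.inl rfl)) (mem_Q.2 (Or.inl rfl)) h1
  exact not_unique_one_one (s.hr 1) (s.hc 1) (s.r1 1) (s.c1 1) (s.cr1 1) h2

lemma t_mem {t : G} (ht : t = s.r 0 ∨ t = s.c 0) : t ∈ s.A ∧ t ∈ s.B := by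
  have hP : t ∈ P (s.r 0) (s.c 0) := by rcases ht with rfl | rfl <;> simp [P]
  have hQ : t ∈ Q (s.r 0) (s.c 0) := by rcases ht with rfl | rfl <;> simp [Q]
  have h1 := Finset.mul_mem_mul (Finset.mul_mem_mul (mem_P.2 (Or.inl rfl) : (1 : G) ∈ P (s.r 2) (s.c 2))
    (mem_P.2 (Or.inl rfl) : (1 : G) ∈ P (s.r 1) (s.c 1))) hP
  have h2 := Finset.mul_mem_mul hQ
    (Finset.mul_mem_mul (mem_Q.2 (Or.inl rfl) : (1 : G) ∈ Q (s.r 1) (s.c 1))
      (mem_Q.2 (Or.inl rfl) : (1 : G) ∈ Q (s.r 2) (s.c 2)))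
  constructor
  · simpa [A] using h1
  · simpa [B] using h2

/-- A unique pair of a side has product `Y ^ 3` or `Y⁻¹ ^ 3`. -/
lemma unique_prod (hY : ∀ g : G, Y * g = g * Y) {x y : G} (hx : x ∈ s.A) (hy : y ∈ s.B)
    (h : UniqueMul s.A s.B x y) : x * y = Y ^ 3 ∨ x * y = Y⁻¹ ^ 3 := by
  have hY' : ∀ g : G, Y⁻¹ * g = g * Y⁻¹ := fun g => by
    have := hY g
    calc Y⁻¹ * g = Y⁻¹ * (g * Y) * Y⁻¹ := by group
      _ = Y⁻¹ * (Y * g) * Y⁻¹ := by rw [this]
      _ = g * Y⁻¹ := by group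
  obtain ⟨x', hx', p0, hp0, rfl⟩ := Finset.mem_mul.1 hx
  obtain ⟨p2, hp2, p1, hp1, rfl⟩ := Finset.mem_mul.1 hx'
  obtain ⟨q0, hq0, y', hy', rfl⟩ := Finset.mem_mul.1 hy
  obtain ⟨q1, hq1, q2, hq2, rfl⟩ := Finset.mem_mul.1 hy'
  -- level 0
  have u0 : UniqueMul (P (s.r 0) (s.c 0)) (Q (s.r 0) (s.c 0)) p0 q0 :=
    unique_inner hx' hy' h
  have l0 := level (s.hr 0) (s.hc 0) (s.r1 0) (s.c1 0) (s.cr1 0) hp0 hq0 u0
  have z0 : p0 * q0 = Y ∨ p0 * q0 = Y⁻¹ := by
    rcases l0 with ⟨rfl, rfl⟩ | ⟨rfl, rfl⟩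
    · exact Or.inl (s.hr 0)
    · exact Or.inr (s.hc 0)
  have c0 : ∀ g : G, p0 * q0 * g = g * (p0 * q0) := by
    intro g
    rcases z0 with e | e <;> rw [e]
    · exact hY g
    · exact hY' g
  -- level 1
  have v1 := unique_outer hp0 hq0 c0 h
  have u1 : UniqueMul (P (s.r 1) (s.c 1)) (Q (s.r 1) (s.c 1)) p1 q1 :=
    unique_inner hp2 hq2 v1
  have l1 := level (s.hr 1) (s.hc 1) (s.r1 1) (s.c1 1) (s.cr1 1) hp1 hq1 u1
  have z1 : p1 * q1 = Y ∨ p1 * q1 = Y⁻¹ := by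
    rcases l1 with ⟨rfl, rfl⟩ | ⟨rfl, rfl⟩
    · exact Or.inl (s.hr 1)
    · exact Or.inr (s.hc 1)
  have c1 : ∀ g : G, p1 * q1 * g = g * (p1 * q1) := by
    intro g
    rcases z1 with e | e <;> rw [e]
    · exact hY g
    · exact hY' g
  -- level 2
  have u2 := unique_outer hp1 hq1 c1 v1
  have l2 := level (s.hr 2) (s.hc 2) (s.r1 2) (s.c1 2) (s.cr1 2) hp2 hq2 u2
  have z2 : p2 * q2 = Y ∨ p2 * q2 = Y⁻¹ := by
    rcases l2 with ⟨rfl, rfl⟩ | ⟨rfl, rfl⟩
    · exact Or.inl (s.hr 2)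
    · exact Or.inr (s.hc 2)
  have tot : p2 * p1 * p0 * (q0 * (q1 * q2)) = (p2 * q2) * (p1 * q1) * (p0 * q0) := by
    calc p2 * p1 * p0 * (q0 * (q1 * q2)) = p2 * p1 * ((p0 * q0) * (q1 * q2)) := by group
      _ = p2 * p1 * ((q1 * q2) * (p0 * q0)) := by rw [c0]
      _ = p2 * ((p1 * q1) * q2) * (p0 * q0) := by group
      _ = p2 * (q2 * (p1 * q1)) * (p0 * q0) := by rw [c1]
      _ = (p2 * q2) * (p1 * q1) * (p0 * q0) := by group
  -- a non-uniform sign pattern is impossible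
  have bad : ∀ t : G, (t = s.r 0 ∨ t = s.c 0) →
      t * t = (p2 * q2) * (p1 * q1) * (p0 * q0) → False := by
    intro t ht e
    obtain ⟨tA, tB⟩ := s.t_mem ht
    have := h tA tB (by rw [e, tot])
    rw [← this.1, ← this.2] at h
    exact s.not_unique_t ht hY h
  rcases z0 with e0 | e0 <;> rcases z1 with e1 | e1 <;> rcases z2 with e2 | e2
  · left; rw [tot, e0, e1, e2]; simp [pow_succ]
  · exact (bad (s.r 0) (Or.inl rfl) (by rw [s.hr, e0, e1, e2]; group)).elim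
  · exact (bad (s.r 0) (Or.inl rfl) (by rw [s.hr, e0, e1, e2]; group)).elim
  · exact (bad (s.c 0) (Or.inr rfl) (by rw [s.hc, e0, e1, e2]; group)).elim
  · exact (bad (s.r 0) (Or.inl rfl) (by rw [s.hr, e0, e1, e2]; group)).elim
  · exact (bad (s.c 0) (Or.inr rfl) (by rw [s.hc, e0, e1, e2]; group)).elim
  · exact (bad (s.c 0) (Or.inr rfl) (by rw [s.hc, e0, e1, e2]; group)).elim
  · right; rw [tot, e0, e1, e2]; simp [pow_succ]

end Side

/-- **Main abstract lemma.** Two sides whose shears multiply to the cube of the other central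
element contradict the unique product property. -/
theorem no_unique {X Y : G} (hX : ∀ g : G, X * g = g * X) (hY : ∀ g : G, Y * g = g * Y)
    (v : Side G Y) (w : Side G X) (hv : v.a = X ^ 3) (hw : w.a = Y ^ 3)
    {α β : G} (hα : α ∈ v.A * w.A) (hβ : β ∈ w.B * v.B) :
    ¬ UniqueMul (v.A * w.A) (w.B * v.B) α β := by
  intro h
  obtain ⟨x, hx, p, hp, rfl⟩ := Finset.mem_mul.1 hα
  obtain ⟨q, hq, y, hy, rfl⟩ := Finset.mem_mul.1 hβ
  have cX : ∀ (n : ℤ) (g : G), X ^ n * g = g * X ^ n := fun n g =>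
    ((show Commute X g from hX g).zpow_left n).eq
  have cY : ∀ (n : ℤ) (g : G), Y ^ n * g = g * Y ^ n := fun n g =>
    ((show Commute Y g from hY g).zpow_left n).eq
  have uw : UniqueMul w.A w.B p q := unique_inner hx hy h
  have zw : ∃ e : ℤ, (e = 3 ∨ e = -3) ∧ p * q = X ^ e := by
    rcases w.unique_prod hX hp hq uw with e | e
    · exact ⟨3, Or.inl rfl, by rw [e]; group⟩
    · exact ⟨-3, Or.inr rfl, by rw [e]; group⟩
  obtain ⟨m, hm, em⟩ := zw
  have uv : UniqueMul v.A v.B x y := unique_outer hp hq (by intro g; rw [em]; exact cX m g) h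
  have zv : ∃ e : ℤ, (e = 3 ∨ e = -3) ∧ x * y = Y ^ e := by
    rcases v.unique_prod hY hx hy uv with e | e
    · exact ⟨3, Or.inl rfl, by rw [e]; group⟩
    · exact ⟨-3, Or.inr rfl, by rw [e]; group⟩
  obtain ⟨n, hn, en⟩ := zv
  -- alternative representation
  have av : ∃ x' y' : G, x' ∈ v.A ∧ y' ∈ v.B ∧ x' * y' = X ^ m := by
    rcases hm with rfl | rfl
    · exact ⟨v.a, 1, v.a_mem_A, v.one_mem_B, by rw [hv]; group⟩
    · exact ⟨1, v.a⁻¹, v.one_mem_A, v.a_inv_mem_B, by rw [hv]; group⟩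
  have aw : ∃ p' q' : G, p' ∈ w.A ∧ q' ∈ w.B ∧ p' * q' = Y ^ n ∧ ¬ UniqueMul w.A w.B p' q' := by
    rcases hn with rfl | rfl
    · exact ⟨w.a, 1, w.a_mem_A, w.one_mem_B, by rw [hw]; group, w.not_unique_a⟩
    · exact ⟨1, w.a⁻¹, w.one_mem_A, w.a_inv_mem_B, by rw [hw]; group, w.not_unique_a_inv⟩
  obtain ⟨x', y', hx', hy', exy⟩ := av
  obtain ⟨p', q', hp', hq', epq, nu⟩ := aw
  have e1 : x' * p' * (q' * y') = x * p * (q * y) := by
    calc x' * p' * (q' * y') = x' * ((p' * q') * y') := by group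
      _ = x' * (Y ^ n * y') := by rw [epq]
      _ = x' * (y' * Y ^ n) := by rw [cY]
      _ = (x' * y') * Y ^ n := by group
      _ = X ^ m * Y ^ n := by rw [exy]
      _ = X ^ m * (x * y) := by rw [en]
      _ = (x * y) * X ^ m := by rw [cX]
      _ = x * (y * X ^ m) := by group
      _ = x * (X ^ m * y) := by rw [cX]
      _ = x * ((p * q) * y) := by rw [em]
      _ = x * p * (q * y) := by group
  have e2 := h (Finset.mul_mem_mul hx' hp') (Finset.mul_mem_mul hq' hy') e1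
  rw [← e2.1, ← e2.2] at h
  exact nu (unique_inner hx' hy' h)

end Run7.h643
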