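import Mathlib
import Pool.Agent.Run7.h643.UP
import Pool.Agent.Run7.h643.Line

/-!
# The configuration in the group of homeomorphisms of the plane commuting with `ℤ²`
-/

set_option autoImplicit false

namespace Run7.h643

/-- homeomorphisms of the plane -/
abbrev HP := (ℝ × ℝ) ≃ₜ (ℝ × ℝ)

/-- translation by `(1,0)` -/
noncomputable def tX : HP := Homeomorph.addRight ((1, 0) : ℝ × ℝ)

/-- translation by `(0,1)` -/
noncomputable def tY : HP := Homeomorph.addRight ((0, 1) : ℝ × ℝ)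

lemma tX_apply (p : ℝ × ℝ) : tX p = (p.1 + 1, p.2) := by
  simp [tX, Prod.ext_iff]

lemma tY_apply (p : ℝ × ℝ) : tY p = (p.1, p.2 + 1) := by
  simp [tY, Prod.ext_iff]

/-- translated involution -/
noncomputable def rhoT (k : ℝ) : ℝ ≃ₜ ℝ :=
  ((Homeomorph.addRight (-k)).trans rho).trans (Homeomorph.addRight k)

lemma rhoT_apply (k t : ℝ) : rhoT k t = rho (t - k) + k := by
  simp [rhoT, sub_eq_add_neg]

/-- vertical square root of `tY` -/
noncomputable def vR (k : ℝ) : HP := (Homeomorph.refl ℝ).prodCongr (rhoT k)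

lemma vR_apply (k : ℝ) (p : ℝ × ℝ) : vR k p = (p.1, rho (p.2 - k) + k) :=
  Prod.ext rfl (rhoT_apply k p.2)

/-- horizontal shear -/
noncomputable def vA (k : ℝ) : HP where
  toFun p := (p.1 + f (p.2 - k), p.2)
  invFun p := (p.1 - f (p.2 - k), p.2)
  left_inv p := by simp
  right_inv p := by simp
  continuous_toFun := by
    have := f_continuous
    fun_prop
  continuous_invFun := by
    have := f_continuous
    fun_prop

lemma vA_apply (k : ℝ) (p : ℝ × ℝ) : vA k p = (p.1 + f (p.2 - k), p.2) := rfl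

lemma vR_mul_vR (k : ℝ) : vR k * vR k = tY := by
  ext p
  · simp [vR_apply, tY_apply]
  · simp [vR_apply, tY_apply, rho_rho]; ring

lemma vR_mul_vA (k : ℝ) : vA k * vR k * vA k = vR k := by
  ext p
  · simp [vR_apply, vA_apply, f_rho]
  · simp [vR_apply, vA_apply]

lemma tY_comm_vA (k : ℝ) : tY * vA k = vA k * tY := by
  ext p
  · simp only [Homeomorph.mul_apply, tY_apply, vA_apply]
    have : p.2 + 1 - k = (p.2 - k) + 1 := by ring
    rw [this, f_add_one]
  · simp [tY_apply, vA_apply]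

lemma tY_comm_vR (k : ℝ) : tY * vR k = vR k * tY := by
  rw [← vR_mul_vR k]; group

lemma tX_comm_vA (k : ℝ) : tX * vA k = vA k * tX := by
  ext p
  · simp only [Homeomorph.mul_apply, tX_apply, vA_apply]; ring
  · simp [tX_apply, vA_apply]

lemma tX_comm_vR (k : ℝ) : tX * vR k = vR k * tX := by
  ext p
  · simp [tX_apply, vR_apply]
  · simp [tX_apply, vR_apply]

/-- the second root -/
noncomputable def vC (k : ℝ) : HP := vA k * (vR k)⁻¹

lemma vC_mul_vC (k : ℝ) : vC k * vC k = tY⁻¹ := by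
  have h := vR_mul_vA k
  have h2 := vR_mul_vR k
  have hc := tY_comm_vA k
  -- `vR⁻¹ * vA * vR⁻¹ = vA⁻¹ * tY⁻¹`
  have e : (vR k)⁻¹ * vA k = (vA k)⁻¹ * (vR k)⁻¹ := by
    have : vR k = vA k * vR k * vA k := h.symm
    calc (vR k)⁻¹ * vA k = (vA k * vR k * vA k)⁻¹ * vA k := by rw [← this]
      _ = (vA k)⁻¹ * (vR k)⁻¹ := by group
  calc vC k * vC k = vA k * ((vR k)⁻¹ * vA k) * (vR k)⁻¹ := by unfold vC; group
    _ = vA k * ((vA k)⁻¹ * (vR k)⁻¹) * (vR k)⁻¹ := by rw [e]
    _ = (vR k * vR k)⁻¹ := by group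
    _ = tY⁻¹ := by rw [h2]

lemma vC_mul_vR (k : ℝ) : vC k * vR k = vA k := by
  unfold vC; group

lemma vA_prod : vA (2 / 3) * vA (1 / 3) * vA 0 = tX ^ 3 := by
  have h3 : tX ^ 3 = tX * tX * tX := by rw [pow_succ, pow_succ, pow_one]
  rw [h3]
  ext p
  · simp only [Homeomorph.mul_apply, tX_apply, vA_apply]
    have := f_sum p.2
    rw [sub_zero]; linarith
  · simp [tX_apply, vA_apply]

lemma vA_ne_one (k : ℝ) : vA k ≠ 1 := by
  intro h
  have := congrArg (fun g : HP => (g (0, k)).1) h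
  simp only [vA_apply, Homeomorph.one_apply, sub_self, zero_add] at this
  have h0 : psi 0 = 1 := psi_one (by rw [T_eq_abs (by norm_num)]; norm_num)
  unfold f at this
  rw [h0] at this
  norm_num at this

lemma tY_ne_one : tY ≠ 1 := by
  intro h
  have := congrArg (fun g : HP => (g (0, 0)).2) h
  simp [tY_apply] at this

lemma tX_ne_one : tX ≠ 1 := by
  intro h
  have := congrArg (fun g : HP => (g (0, 0)).1) h
  simp [tX_apply] at this

/-- the group of homeomorphisms of the plane commuting with the two unit translations -/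
noncomputable def Gam : Subgroup HP := Subgroup.centralizer {tX, tY}

lemma mem_Gam {g : HP} : g ∈ Gam ↔ tX * g = g * tX ∧ tY * g = g * tY := by
  unfold Gam
  rw [Subgroup.mem_centralizer_iff]
  simp

lemma tX_mem : tX ∈ Gam := by
  rw [mem_Gam]
  refine ⟨rfl, ?_⟩
  ext p <;> simp [tX_apply, tY_apply]

lemma tY_mem : tY ∈ Gam := by
  rw [mem_Gam]
  refine ⟨?_, rfl⟩
  ext p <;> simp [tX_apply, tY_apply]

/-- `tX` as an element of the group -/
noncomputable def gX : Gam := ⟨tX, tX_mem⟩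

/-- `tY` as an element of the group -/
noncomputable def gY : Gam := ⟨tY, tY_mem⟩

lemma gX_comm (g : Gam) : gX * g = g * gX := Subtype.ext (mem_Gam.1 g.2).1

lemma gY_comm (g : Gam) : gY * g = g * gY := Subtype.ext (mem_Gam.1 g.2).2

lemma vA_mem (k : ℝ) : vA k ∈ Gam := mem_Gam.2 ⟨tX_comm_vA k, tY_comm_vA k⟩

lemma vR_mem (k : ℝ) : vR k ∈ Gam := mem_Gam.2 ⟨tX_comm_vR k, tY_comm_vR k⟩

lemma vC_mem (k : ℝ) : vC k ∈ Gam := Gam.mul_mem (vA_mem k) (Gam.inv_mem (vR_mem k))

/-- the three translation parameters -/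
noncomputable def kk (i : Fin 3) : ℝ := (i : ℝ) / 3

/-- the vertical side -/
noncomputable def vSide : Side Gam gY where
  r i := ⟨vR (kk i), vR_mem _⟩
  c i := ⟨vC (kk i), vC_mem _⟩
  hr i := Subtype.ext (vR_mul_vR _)
  hc i := Subtype.ext (vC_mul_vC _)
  r1 i h := by
    have h' : vR (kk i) = 1 := congrArg Subtype.val h
    have := vR_mul_vR (kk i)
    rw [h', one_mul] at this
    exact tY_ne_one this.symm
  c1 i h := by
    have h' : vC (kk i) = 1 := congrArg Subtype.val h
    have := vC_mul_vC (kk i)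
    rw [h', one_mul] at this
    exact tY_ne_one (inv_eq_one.1 this.symm)
  cr1 i h := by
    have h' : vC (kk i) * vR (kk i) = 1 := congrArg Subtype.val h
    rw [vC_mul_vR] at h'
    exact vA_ne_one _ h'

/-- the coordinate swap -/
noncomputable def sw : HP := Homeomorph.prodComm ℝ ℝ

lemma sw_apply (p : ℝ × ℝ) : sw p = (p.2, p.1) := rfl

lemma sw_inv : sw⁻¹ = sw := rfl

/-- conjugation by the swap -/
noncomputable def cj (g : HP) : HP := sw * g * sw⁻¹

lemma cj_mul (g h : HP) : cj (g * h) = cj g * cj h := by unfold cj; group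

lemma cj_inv (g : HP) : cj g⁻¹ = (cj g)⁻¹ := by unfold cj; group

lemma cj_one : cj 1 = 1 := by unfold cj; group

lemma cj_inj {g h : HP} (e : cj g = cj h) : g = h := by
  unfold cj at e; exact mul_left_cancel (mul_right_cancel e)

lemma cj_tX : cj tX = tY := by
  ext p <;> simp [cj, sw_inv, sw_apply, tX_apply, tY_apply]

lemma cj_tY : cj tY = tX := by
  ext p <;> simp [cj, sw_inv, sw_apply, tX_apply, tY_apply]

lemma cj_mem {g : HP} (h : g ∈ Gam) : cj g ∈ Gam := by
  rw [mem_Gam] at h ⊢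
  constructor
  · rw [← cj_tY, ← cj_mul, ← cj_mul, h.2]
  · rw [← cj_tX, ← cj_mul, ← cj_mul, h.1]

/-- the horizontal side -/
noncomputable def hSide : Side Gam gX where
  r i := ⟨cj (vR (kk i)), cj_mem (vR_mem _)⟩
  c i := ⟨cj (vC (kk i)), cj_mem (vC_mem _)⟩
  hr i := Subtype.ext (by
    change cj (vR (kk i)) * cj (vR (kk i)) = tX
    rw [← cj_mul, vR_mul_vR, cj_tY])
  hc i := Subtype.ext (by
    change cj (vC (kk i)) * cj (vC (kk i)) = tX⁻¹
    rw [← cj_mul, vC_mul_vC, cj_inv, cj_tY])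
  r1 i h := by
    have h' : cj (vR (kk i)) = 1 := congrArg Subtype.val h
    rw [← cj_one] at h'
    have h'' := cj_inj h'
    have := vR_mul_vR (kk i)
    rw [h'', one_mul] at this
    exact tY_ne_one this.symm
  c1 i h := by
    have h' : cj (vC (kk i)) = 1 := congrArg Subtype.val h
    rw [← cj_one] at h'
    have h'' := cj_inj h'
    have := vC_mul_vC (kk i)
    rw [h'', one_mul] at this
    exact tY_ne_one (inv_eq_one.1 this.symm)
  cr1 i h := by
    have h' : cj (vC (kk i)) * cj (vR (kk i)) = 1 := congrArg Subtype.val h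
    rw [← cj_mul, vC_mul_vR, ← cj_one] at h'
    exact vA_ne_one _ (cj_inj h')

lemma vSide_a : vSide.a = gX ^ 3 := by
  apply Subtype.ext
  change (vC (kk 2) * vR (kk 2)) * (vC (kk 1) * vR (kk 1)) * (vC (kk 0) * vR (kk 0)) = tX ^ 3
  rw [vC_mul_vR, vC_mul_vR, vC_mul_vR, ← vA_prod]
  have h0 : kk 0 = 0 := by simp [kk]
  have h1 : kk 1 = 1 / 3 := by simp [kk]
  have h2 : kk 2 = 2 / 3 := by simp [kk]
  rw [h0, h1, h2]

lemma hSide_a : hSide.a = gY ^ 3 := by
  apply Subtype.ext
  have h := congrArg Subtype.val vSide_a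
  have h' : (vC (kk 2) * vR (kk 2)) * (vC (kk 1) * vR (kk 1)) * (vC (kk 0) * vR (kk 0)) =
    tX ^ 3 := h
  change (cj (vC (kk 2)) * cj (vR (kk 2))) * (cj (vC (kk 1)) * cj (vR (kk 1))) *
    (cj (vC (kk 0)) * cj (vR (kk 0))) = tY ^ 3
  rw [← cj_mul, ← cj_mul, ← cj_mul, ← cj_mul, ← cj_mul, h', pow_succ, pow_succ, pow_one,
    cj_mul, cj_mul, cj_tX, pow_succ, pow_succ, pow_one]

open scoped Classical Pointwise in
/-- The group of homeomorphisms of the plane commuting with `ℤ²` has two finite nonempty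
subsets whose product has no uniquely represented element. -/
theorem plane_no_unique : ∃ A B : Finset Gam, A.Nonempty ∧ B.Nonempty ∧
    ∀ α ∈ A, ∀ β ∈ B, ¬ UniqueMul A B α β := by
  refine ⟨vSide.A * hSide.A, hSide.B * vSide.B, ?_, ?_, ?_⟩
  · exact ⟨1 * 1, Finset.mul_mem_mul vSide.one_mem_A hSide.one_mem_A⟩
  · exact ⟨1 * 1, Finset.mul_mem_mul hSide.one_mem_B vSide.one_mem_B⟩
  · intro α hα β hβ
    exact no_unique gX_comm gY_comm vSide hSide vSide_a hSide_a hα hβ

end Run7.h643
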