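import Mathlib
import Pool.Agent.Run7.h643.Plane

/-!
# From homeomorphisms of a normed space with bounded displacement to homeomorphisms of the
closed unit ball fixing the boundary sphere
-/

set_option autoImplicit false

namespace Run7.h643

section ball

variable {E : Type*} [NormedAddCommGroup E] [NormedSpace ℝ E]

/-- the radial contraction `z ↦ z / (1 + ‖z‖)` -/
noncomputable def Phi (z : E) : E := (1 + ‖z‖)⁻¹ • z

/-- its inverse on the open unit ball -/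
noncomputable def Psi (x : E) : E := (1 - ‖x‖)⁻¹ • x

lemma norm_Phi (z : E) : ‖Phi z‖ = ‖z‖ / (1 + ‖z‖) := by
  have h : 0 < 1 + ‖z‖ := by positivity
  rw [Phi, norm_smul, norm_inv, Real.norm_of_nonneg h.le, inv_mul_eq_div]

lemma norm_Phi_lt (z : E) : ‖Phi z‖ < 1 := by
  have h : 0 < 1 + ‖z‖ := by positivity
  rw [norm_Phi, div_lt_one h]; linarith

lemma norm_Psi {x : E} (hx : ‖x‖ < 1) : ‖Psi x‖ = ‖x‖ / (1 - ‖x‖) := by
  have h : 0 < 1 - ‖x‖ := by linarith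
  rw [Psi, norm_smul, norm_inv, Real.norm_of_nonneg h.le, inv_mul_eq_div]

lemma Psi_Phi (z : E) : Psi (Phi z) = z := by
  have h : 0 < 1 + ‖z‖ := by positivity
  have e : 1 - ‖Phi z‖ = (1 + ‖z‖)⁻¹ := by
    rw [norm_Phi]; field_simp; ring
  unfold Psi
  rw [e, inv_inv, Phi, smul_smul, mul_inv_cancel₀ h.ne', one_smul]

lemma one_add_norm_Psi {x : E} (hx : ‖x‖ < 1) : 1 + ‖Psi x‖ = (1 - ‖x‖)⁻¹ := by
  have h : 0 < 1 - ‖x‖ := by linarith
  rw [norm_Psi hx]; field_simp; ring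

lemma Phi_Psi {x : E} (hx : ‖x‖ < 1) : Phi (Psi x) = x := by
  have h : 0 < 1 - ‖x‖ := by linarith
  unfold Phi
  rw [one_add_norm_Psi hx, inv_inv, Psi, smul_smul, mul_inv_cancel₀ h.ne', one_smul]

lemma Phi_sub_le (w z : E) : ‖Phi w - Phi z‖ ≤ 2 * ‖w - z‖ * (1 + ‖z‖)⁻¹ := by
  have hz : 0 < 1 + ‖z‖ := by positivity
  have hw : 0 < 1 + ‖w‖ := by positivity
  have e : Phi w - Phi z = (1 + ‖z‖)⁻¹ • (w - z) + ((1 + ‖w‖)⁻¹ - (1 + ‖z‖)⁻¹) • w := by
    unfold Phi; rw [smul_sub, sub_smul]; abel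
  have h1 : ‖(1 + ‖z‖)⁻¹ • (w - z)‖ = ‖w - z‖ * (1 + ‖z‖)⁻¹ := by
    rw [norm_smul, norm_inv, Real.norm_of_nonneg hz.le, mul_comm]
  have h2 : ‖((1 + ‖w‖)⁻¹ - (1 + ‖z‖)⁻¹) • w‖ ≤ ‖w - z‖ * (1 + ‖z‖)⁻¹ := by
    have e2 : (1 + ‖w‖)⁻¹ - (1 + ‖z‖)⁻¹ = (‖z‖ - ‖w‖) * ((1 + ‖w‖)⁻¹ * (1 + ‖z‖)⁻¹) := by
      field_simp; ring
    rw [norm_smul, e2, norm_mul, Real.norm_eq_abs, Real.norm_of_nonneg (by positivity)]
    have h3 : |‖z‖ - ‖w‖| ≤ ‖w - z‖ := by
      rw [abs_sub_comm]; exact abs_norm_sub_norm_le _ _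
    have h4 : (1 + ‖w‖)⁻¹ * ‖w‖ ≤ 1 := by
      rw [inv_mul_le_iff₀ hw]; linarith
    calc |‖z‖ - ‖w‖| * ((1 + ‖w‖)⁻¹ * (1 + ‖z‖)⁻¹) * ‖w‖
        = |‖z‖ - ‖w‖| * (1 + ‖z‖)⁻¹ * ((1 + ‖w‖)⁻¹ * ‖w‖) := by ring
      _ ≤ ‖w - z‖ * (1 + ‖z‖)⁻¹ * 1 := by gcongr
      _ = ‖w - z‖ * (1 + ‖z‖)⁻¹ := by ring
  calc ‖Phi w - Phi z‖ ≤ ‖(1 + ‖z‖)⁻¹ • (w - z)‖ + ‖((1 + ‖w‖)⁻¹ - (1 + ‖z‖)⁻¹) • w‖ := by
        rw [e]; exact norm_add_le _ _
    _ ≤ 2 * ‖w - z‖ * (1 + ‖z‖)⁻¹ := by rw [h1]; linarith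

/-- extension of a self-map of `E` to a self-map that is the identity off the open unit ball -/
noncomputable def extF (g : E → E) (x : E) : E := by
  classical
  exact if ‖x‖ < 1 then Phi (g (Psi x)) else x

lemma extF_lt (g : E → E) {x : E} (hx : ‖x‖ < 1) : extF g x = Phi (g (Psi x)) := by
  unfold extF; rw [if_pos hx]

lemma extF_ge (g : E → E) {x : E} (hx : 1 ≤ ‖x‖) : extF g x = x := by
  unfold extF; rw [if_neg (not_lt.2 hx)]

lemma extF_comp (g h : E → E) (x : E) : extF g (extF h x) = extF (g ∘ h) x := by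
  rcases lt_or_ge ‖x‖ 1 with hx | hx
  · rw [extF_lt h hx, extF_lt g (norm_Phi_lt _), extF_lt _ hx, Psi_Phi]; rfl
  · rw [extF_ge h hx, extF_ge g hx, extF_ge _ hx]

lemma extF_id (x : E) : extF (id : E → E) x = x := by
  rcases lt_or_ge ‖x‖ 1 with hx | hx
  · rw [extF_lt _ hx, id, Phi_Psi hx]
  · rw [extF_ge _ hx]

lemma extF_norm_le (g : E → E) {x : E} (hx : ‖x‖ ≤ 1) : ‖extF g x‖ ≤ 1 := by
  rcases lt_or_ge ‖x‖ 1 with h | h
  · rw [extF_lt g h]; exact (norm_Phi_lt _).le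
  · rw [extF_ge g h]; exact hx

lemma extF_sub_le {g : E → E} {C : ℝ} (hC : ∀ z, ‖g z - z‖ ≤ C) {x : E} (hx : ‖x‖ < 1) :
    ‖extF g x - x‖ ≤ 2 * C * (1 - ‖x‖) := by
  have h : 0 < 1 - ‖x‖ := by linarith
  rw [extF_lt g hx]
  have h1 := Phi_sub_le (g (Psi x)) (Psi x)
  rw [Phi_Psi hx, one_add_norm_Psi hx, inv_inv] at h1
  refine h1.trans ?_
  have := hC (Psi x)
  gcongr

lemma continuous_Phi : Continuous (Phi : E → E) := by
  unfold Phi
  refine Continuous.smul (Continuous.inv₀ (continuous_const.add continuous_norm) ?_) continuous_id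
  intro x; positivity

lemma extF_continuous {g : E → E} (hg : Continuous g) {C : ℝ} (hC : ∀ z, ‖g z - z‖ ≤ C) :
    Continuous (extF g) := by
  have hC0 : 0 ≤ C := (norm_nonneg _).trans (hC 0)
  rw [continuous_iff_continuousAt]
  intro x
  rcases lt_or_ge ‖x‖ 1 with hx | hx
  · have hPsi : ContinuousAt (Psi : E → E) x := by
      unfold Psi
      refine ContinuousAt.smul (ContinuousAt.inv₀ ?_ ?_) continuousAt_id
      · exact (continuous_const.sub continuous_norm).continuousAt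
      · have : 0 < 1 - ‖x‖ := by linarith
        exact this.ne'
    have h1 : ContinuousAt (fun y => Phi (g (Psi y))) x :=
      continuous_Phi.continuousAt.comp (hg.continuousAt.comp hPsi)
    refine h1.congr ?_
    have : ∀ᶠ y in nhds x, ‖y‖ < 1 := continuous_norm.continuousAt.eventually_lt
      continuousAt_const hx
    filter_upwards [this] with y hy
    rw [extF_lt g hy]
  · rw [Metric.continuousAt_iff]
    intro ε hε
    refine ⟨ε / (2 * C + 1), by positivity, ?_⟩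
    intro y hy
    rw [dist_eq_norm] at hy ⊢
    rw [extF_ge g hx]
    have hb : ‖extF g y - x‖ ≤ (2 * C + 1) * ‖y - x‖ := by
      rcases lt_or_ge ‖y‖ 1 with h | h
      · have h1 := extF_sub_le hC h
        have h2 : 1 - ‖y‖ ≤ ‖y - x‖ := by
          have := norm_sub_norm_le x y
          rw [norm_sub_rev] at this
          linarith
        calc ‖extF g y - x‖ = ‖(extF g y - y) + (y - x)‖ := by congr 1; abel
          _ ≤ ‖extF g y - y‖ + ‖y - x‖ := norm_add_le _ _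
          _ ≤ 2 * C * (1 - ‖y‖) + ‖y - x‖ := by linarith
          _ ≤ 2 * C * ‖y - x‖ + ‖y - x‖ := by gcongr
          _ = (2 * C + 1) * ‖y - x‖ := by ring
      · rw [extF_ge g h]
        have : 0 ≤ 2 * C * ‖y - x‖ := by positivity
        linarith
    calc ‖extF g y - x‖ ≤ (2 * C + 1) * ‖y - x‖ := hb
      _ < (2 * C + 1) * (ε / (2 * C + 1)) := by gcongr
      _ = ε := by field_simp

omit [NormedSpace ℝ E] in
/-- displacement bound for the inverse -/
lemma symm_disp {g : E ≃ₜ E} {C : ℝ} (hC : ∀ z, ‖g z - z‖ ≤ C) (z : E) : ‖g.symm z - z‖ ≤ C := by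
  have := hC (g.symm z)
  rw [g.apply_symm_apply, norm_sub_rev] at this
  exact this

/-- the homeomorphism of the closed unit ball induced by a homeomorphism with bounded
displacement -/
noncomputable def toBall (g : E ≃ₜ E) (hg : ∃ C : ℝ, ∀ z, ‖g z - z‖ ≤ C) :
    ↥(Metric.closedBall (0 : E) 1) ≃ₜ ↥(Metric.closedBall (0 : E) 1) where
  toFun x := ⟨extF g x, by
    have hx := x.2
    rw [mem_closedBall_zero_iff] at hx ⊢
    exact extF_norm_le _ hx⟩
  invFun x := ⟨extF g.symm x, by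
    have hx := x.2
    rw [mem_closedBall_zero_iff] at hx ⊢
    exact extF_norm_le _ hx⟩
  left_inv x := by
    apply Subtype.ext
    change extF g.symm (extF g x) = x
    rw [extF_comp]
    have : (g.symm : E → E) ∘ g = id := by ext z; simp
    rw [this, extF_id]
  right_inv x := by
    apply Subtype.ext
    change extF g (extF g.symm x) = x
    rw [extF_comp]
    have : (g : E → E) ∘ g.symm = id := by ext z; simp
    rw [this, extF_id]
  continuous_toFun := by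
    obtain ⟨C, hC⟩ := hg
    exact Continuous.subtype_mk ((extF_continuous g.continuous hC).comp continuous_subtype_val) _
  continuous_invFun := by
    obtain ⟨C, hC⟩ := hg
    exact Continuous.subtype_mk
      ((extF_continuous g.symm.continuous (symm_disp hC)).comp continuous_subtype_val) _

lemma toBall_coe (g : E ≃ₜ E) (hg : ∃ C : ℝ, ∀ z, ‖g z - z‖ ≤ C)
    (x : ↥(Metric.closedBall (0 : E) 1)) : (toBall g hg x : E) = extF g x := rfl

lemma toBall_bdry (g : E ≃ₜ E) (hg : ∃ C : ℝ, ∀ z, ‖g z - z‖ ≤ C)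
    (x : ↥(Metric.closedBall (0 : E) 1)) (hx : ‖(x : E)‖ = 1) : toBall g hg x = x := by
  apply Subtype.ext
  rw [toBall_coe, extF_ge _ hx.ge]

lemma toBall_inj {g h : E ≃ₜ E} (hg : ∃ C : ℝ, ∀ z, ‖g z - z‖ ≤ C)
    (hh : ∃ C : ℝ, ∀ z, ‖h z - z‖ ≤ C) (e : toBall g hg = toBall h hh) : g = h := by
  ext z
  have hz : Phi z ∈ Metric.closedBall (0 : E) 1 := by
    rw [mem_closedBall_zero_iff]; exact (norm_Phi_lt z).le
  have h1 : (toBall g hg ⟨Phi z, hz⟩ : E) = toBall h hh ⟨Phi z, hz⟩ := by rw [e]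
  rw [toBall_coe, toBall_coe, extF_lt _ (norm_Phi_lt z), extF_lt _ (norm_Phi_lt z), Psi_Phi] at h1
  have := congrArg Psi h1
  rwa [Psi_Phi, Psi_Phi] at this

end ball

/-- Elements of `Gam` have bounded displacement. -/
lemma Gam_bounded {g : HP} (hg : g ∈ Gam) : ∃ C : ℝ, ∀ z, ‖g z - z‖ ≤ C := by
  rw [mem_Gam] at hg
  have hX : ∀ p : ℝ × ℝ, g (p + (1, 0)) = g p + (1, 0) := fun p => by
    have := congrArg (fun k : HP => k p) hg.1
    exact this.symm
  have hY : ∀ p : ℝ × ℝ, g (p + (0, 1)) = g p + (0, 1) := fun p => by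
    have := congrArg (fun k : HP => k p) hg.2
    exact this.symm
  have pX : Function.Periodic (fun p : ℝ × ℝ => g p - p) (1, 0) := fun p => by
    simp only [hX]; abel
  have pY : Function.Periodic (fun p : ℝ × ℝ => g p - p) (0, 1) := fun p => by
    simp only [hY]; abel
  have hcont : Continuous (fun p : ℝ × ℝ => ‖g p - p‖) := (g.continuous.sub continuous_id).norm
  have hcomp : IsCompact (Set.Icc (0 : ℝ × ℝ) (1, 1)) := isCompact_Icc
  obtain ⟨C, hC⟩ := (hcomp.image hcont).bddAbove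
  refine ⟨C, fun z => ?_⟩
  have e : g z - z = g (Int.fract z.1, Int.fract z.2) - (Int.fract z.1, Int.fract z.2) := by
    have h1 := pX.zsmul ⌊z.1⌋ (Int.fract z.1, Int.fract z.2)
    have h2 := pY.zsmul ⌊z.2⌋ ((Int.fract z.1, Int.fract z.2) + ⌊z.1⌋ • ((1, 0) : ℝ × ℝ))
    have h3 : (Int.fract z.1, Int.fract z.2) + ⌊z.1⌋ • ((1, 0) : ℝ × ℝ) + ⌊z.2⌋ • ((0, 1) : ℝ × ℝ)
        = z := by
      ext <;> simp [Int.fract_add_floor]
    rw [h3] at h2
    exact h2.trans h1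
  rw [e]
  apply hC
  refine ⟨(Int.fract z.1, Int.fract z.2), ⟨⟨Int.fract_nonneg _, Int.fract_nonneg _⟩,
    ⟨(Int.fract_lt_one _).le, (Int.fract_lt_one _).le⟩⟩, rfl⟩

/-- the Euclidean plane -/
abbrev E2 := EuclideanSpace ℝ (Fin 2)

/-- linear coordinates on the Euclidean plane -/
noncomputable def LL : E2 ≃L[ℝ] (ℝ × ℝ) :=
  (EuclideanSpace.equiv (Fin 2) ℝ).trans (ContinuousLinearEquiv.finTwoArrow ℝ ℝ)

/-- transport of a homeomorphism of `ℝ × ℝ` to the Euclidean plane -/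
noncomputable def tr (g : HP) : E2 ≃ₜ E2 :=
  (LL.toHomeomorph.trans g).trans LL.symm.toHomeomorph

lemma tr_apply (g : HP) (x : E2) : tr g x = LL.symm (g (LL x)) := rfl

lemma tr_bounded {g : HP} (hg : g ∈ Gam) : ∃ C : ℝ, ∀ z, ‖tr g z - z‖ ≤ C := by
  obtain ⟨C, hC⟩ := Gam_bounded hg
  refine ⟨‖(LL.symm : (ℝ × ℝ) →L[ℝ] E2)‖ * C, fun z => ?_⟩
  have e : tr g z - z = LL.symm (g (LL z) - LL z) := by
    rw [tr_apply, map_sub, LL.symm_apply_apply]
  rw [e]
  calc ‖LL.symm (g (LL z) - LL z)‖ ≤ ‖(LL.symm : (ℝ × ℝ) →L[ℝ] E2)‖ * ‖g (LL z) - LL z‖ :=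
        (LL.symm : (ℝ × ℝ) →L[ℝ] E2).le_opNorm _
    _ ≤ ‖(LL.symm : (ℝ × ℝ) →L[ℝ] E2)‖ * C := by
        gcongr; exact hC _

lemma tr_inj {g h : HP} (e : tr g = tr h) : g = h := by
  ext1 p
  have h1 : tr g (LL.symm p) = tr h (LL.symm p) := by rw [e]
  rw [tr_apply, tr_apply, LL.apply_symm_apply] at h1
  exact LL.symm.injective h1

/-- homeomorphisms of the closed unit disk -/
abbrev HD := ↥(Metric.closedBall (0 : E2) 1) ≃ₜ ↥(Metric.closedBall (0 : E2) 1)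

/-- the embedding of `Gam` into the homeomorphisms of the closed disk -/
noncomputable def emb (g : Gam) : HD := toBall (tr g) (tr_bounded g.2)

lemma emb_inj {g h : Gam} (e : emb g = emb h) : g = h :=
  Subtype.ext (tr_inj (toBall_inj _ _ e))

lemma emb_mul (g h : Gam) : emb (g * h) = (emb h).trans (emb g) := by
  ext1 x
  apply Subtype.ext
  change extF (tr (g * h : Gam)) x = extF (tr g) (extF (tr h) x)
  rw [extF_comp]
  have e : (tr (g * h : Gam) : E2 → E2) = (tr g) ∘ (tr h) := by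
    funext z
    simp only [Function.comp, tr_apply, LL.apply_symm_apply]
    rfl
  rw [e]

lemma emb_bdry (g : Gam) (x : ↥(Metric.closedBall (0 : E2) 1)) (hx : ‖(x : E2)‖ = 1) :
    emb g x = x := toBall_bdry _ _ x hx

end Run7.h643
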