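import Pool.Agent.Run7.h643.IV1

/-!
Path lemmas for the connection events.
-/

namespace Run7.h643.AT

open Finset Run7.h165
open scoped Classical

variable {d : ℕ}

theorem openGraph_mono (t : Fin 3) {ω ω' : Config d} (h : ∀ e, ω e ≤ ω' e) :
    openGraph t ω ≤ openGraph t ω' := by
  intro x y hxy
  obtain ⟨e, he, hc⟩ := hxy
  exact ⟨e, he.trans (h e), hc⟩

theorem restr_le (n : ℕ) (ω : Config d) (e : Edge d) : restr n ω e ≤ ω e := by
  unfold restr
  split_ifs
  · exact le_rfl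
  · exact Fin.zero_le _

theorem restr_mono (n : ℕ) {ω ω' : Config d} (h : ∀ e, ω e ≤ ω' e) (e : Edge d) :
    restr n ω e ≤ restr n ω' e := by
  unfold restr
  split_ifs
  · exact h e
  · exact le_rfl

theorem restr_restr {m n : ℕ} (h : m ≤ n) (ω : Config d) : restr m (restr n ω) = restr m ω := by
  funext e
  unfold restr
  by_cases h1 : e ∈ boxEdges d m
  · rw [if_pos h1, if_pos h1, if_pos (boxEdges_mono h h1)]
  · rw [if_neg h1, if_neg h1]

theorem mem_boxx {n : ℕ} {x : Fin d → ℤ} : x ∈ Run7.h165.box d n ↔ ∀ k, |x k| ≤ (n : ℤ) := by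
  unfold Run7.h165.box
  rw [Fintype.mem_piFinset]
  simp only [Finset.mem_Icc, abs_le]

theorem adj_abs {t : Fin 3} {ω : Config d} {x y : Fin d → ℤ} (h : (openGraph t ω).Adj x y)
    (i : Fin d) : |y i| ≤ |x i| + 1 := by
  obtain ⟨e, -, h⟩ := h
  have key : |etgt e i| ≤ |esrc e i| + 1 ∧ |esrc e i| ≤ |etgt e i| + 1 := by
    have h3 : etgt e i = esrc e i + (Pi.single e.2 1 : Fin d → ℤ) i := rfl
    have h4 : |(Pi.single e.2 1 : Fin d → ℤ) i| ≤ 1 := by
      by_cases hi : i = e.2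
      · subst hi; simp
      · rw [Pi.single_eq_of_ne hi]; simp
    constructor
    · rw [h3]
      exact (abs_add_le _ _).trans (by linarith)
    · have h5 : esrc e i = etgt e i - (Pi.single e.2 1 : Fin d → ℤ) i := by rw [h3]; ring
      rw [h5]
      exact (abs_sub _ _).trans (by linarith)
  rcases h with ⟨rfl, rfl⟩ | ⟨rfl, rfl⟩
  · exact key.1
  · exact key.2

/-- First exit from a box. -/
theorem first_exit {t : Fin 3} {ω : Config d} {n : ℕ} {x y : Fin d → ℤ}
    (w : (openGraph t ω).Walk x y) (hy : ∃ i, (n : ℤ) ≤ |y i|) :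
    ∃ z, (∃ i, (n : ℤ) ≤ |z i|) ∧ (openGraph t (restr n ω)).Reachable x z := by
  induction w with
  | nil => exact ⟨_, hy, SimpleGraph.Reachable.refl _⟩
  | @cons u v z hadj p ih =>
    by_cases hu : ∃ i, (n : ℤ) ≤ |u i|
    · exact ⟨u, hu, SimpleGraph.Reachable.refl _⟩
    · push Not at hu
      obtain ⟨z', hz', hr⟩ := ih hy
      refine ⟨z', hz', SimpleGraph.Reachable.trans ?_ hr⟩
      apply SimpleGraph.Adj.reachable
      have hubox : u ∈ Run7.h165.box d n := by
        rw [mem_boxx]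
        exact fun k => (hu k).le
      have hvbox : v ∈ Run7.h165.box d n := by
        rw [mem_boxx]
        intro k
        have := adj_abs hadj k
        have := hu k
        omega
      obtain ⟨e, he, hc⟩ := hadj
      refine ⟨e, ?_, hc⟩
      have hm : e ∈ boxEdges d n := by
        rw [mem_boxEdges]
        rcases hc with ⟨h1, h2⟩ | ⟨h1, h2⟩
        · rw [← h1, ← h2]; exact ⟨hubox, hvbox⟩
        · rw [← h1, ← h2]; exact ⟨hvbox, hubox⟩
      unfold restr
      rw [if_pos hm]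
      exact he

/-- Last exit from a box. -/
theorem last_exit {t : Fin 3} {k M : ℕ} {ω ω' : Config d}
    (h : ∀ e, e ∉ boxEdges d k → ω e = ω' e) {x y : Fin d → ℤ}
    (w : (openGraph t (restr M ω)).Walk x y) (hy : y ∉ Run7.h165.box d k) :
    (openGraph t (restr M ω')).Reachable x y ∨
      ∃ x' ∈ Run7.h165.box d k, (openGraph t (restr M ω')).Reachable x' y := by
  induction w with
  | nil => exact Or.inl (SimpleGraph.Reachable.refl _)
  | @cons u v z hadj p ih =>
    rcases ih hy with hr | hr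
    · by_cases hv : v ∈ Run7.h165.box d k ∧ u ∈ Run7.h165.box d k
      · exact Or.inr ⟨v, hv.1, hr⟩
      · left
        refine SimpleGraph.Reachable.trans ?_ hr
        apply SimpleGraph.Adj.reachable
        obtain ⟨e, he, hc⟩ := hadj
        refine ⟨e, ?_, hc⟩
        have hm : e ∉ boxEdges d k := by
          rw [mem_boxEdges]
          intro hm
          apply hv
          rcases hc with ⟨h1, h2⟩ | ⟨h1, h2⟩
          · rw [h1, h2]; exact ⟨hm.2, hm.1⟩
          · rw [h1, h2]; exact hm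
        have h3 : restr M ω' e = restr M ω e := by
          unfold restr
          split_ifs
          · exact (h e hm).symm
          · rfl
        rw [h3]
        exact he
    · exact Or.inr hr

/-! ### The events `DD` -/

theorem DD_inc (t : Fin 3) (m n : ℕ) : Inc (DD (d := d) t m n) := by
  rintro ω ω' h ⟨x, hx, y, hy, hr⟩
  exact ⟨x, hx, y, hy, hr.mono (openGraph_mono t (restr_mono n h))⟩

theorem DD_cyl (t : Fin 3) (m n : ℕ) : Cyl d n (DD (d := d) t m n) := by
  intro ω ω' h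
  have : restr n ω = restr n ω' := by
    funext e
    unfold restr
    split_ifs with he
    · exact h e he
    · rfl
  unfold DD
  rw [this]

/-- Monotone in the inner box. -/
theorem DD_mono_inner {t : Fin 3} {m m' n : ℕ} (h : m ≤ m') {ω : Config d} (hD : DD t m n ω) :
    DD t m' n ω := by
  obtain ⟨x, hx, hr⟩ := hD
  exact ⟨x, box_mono h hx, hr⟩

/-- Antitone in the outer box. -/
theorem DD_anti_outer {t : Fin 3} {m n n' : ℕ} (h : n ≤ n') {ω : Config d} (hD : DD t m n' ω) :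
    DD t m n ω := by
  obtain ⟨x, hx, y, ⟨i, hi⟩, ⟨w⟩⟩ := hD
  have hy : ∃ i, (n : ℤ) ≤ |y i| := ⟨i, le_trans (by exact_mod_cast h) hi⟩
  obtain ⟨z, hz, hr⟩ := first_exit w hy
  rw [restr_restr h] at hr
  exact ⟨x, hx, z, hz, hr⟩

/-- The event that `Λ_k` is connected to norm `M > k` is determined by the edges off `Λ_k`. -/
theorem DD_off {t : Fin 3} {k M : ℕ} (hkM : k < M) {ω ω' : Config d}
    (h : ∀ e, e ∉ boxEdges d k → ω e = ω' e) (hD : DD t k M ω) : DD t k M ω' := by
  obtain ⟨x, hx, y, ⟨i, hi⟩, ⟨w⟩⟩ := hD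
  have hy : y ∉ Run7.h165.box d k := by
    rw [mem_boxx]
    intro h3
    have := h3 i
    have h4 : (k : ℤ) < M := by exact_mod_cast hkM
    omega
  rcases last_exit h w hy with hr | ⟨x', hx', hr⟩
  · exact ⟨x, hx, y, ⟨i, hi⟩, hr⟩
  · exact ⟨x', hx', y, ⟨i, hi⟩, hr⟩

theorem DD_off_iff {t : Fin 3} {k M : ℕ} (hkM : k < M) (ω ω' : Config d)
    (h : ∀ e, e ∉ boxEdges d k → ω e = ω' e) : DD t k M ω ↔ DD t k M ω' :=
  ⟨DD_off hkM h, DD_off hkM fun e he => (h e he).symm⟩

/-- A finite set of vertices is contained in a box. -/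
theorem finite_bdd {S : Set (Fin d → ℤ)} (hS : S.Finite) :
    ∃ n : ℕ, ∀ y ∈ S, ∀ i, |y i| < (n : ℤ) := by
  obtain ⟨S, rfl⟩ := hS.exists_finset_coe
  refine ⟨(∑ y ∈ S, ∑ i, (y i).natAbs) + 1, ?_⟩
  intro y hy i
  rw [Int.abs_eq_natAbs]
  have h1 : (y i).natAbs ≤ ∑ i, (y i).natAbs :=
    Finset.single_le_sum (f := fun i => (y i).natAbs) (fun _ _ => Nat.zero_le _) (mem_univ i)
  have h2 : ∑ i, (y i).natAbs ≤ ∑ y ∈ S, ∑ i, (y i).natAbs :=
    Finset.single_le_sum (f := fun y : Fin d → ℤ => ∑ i, (y i).natAbs)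
      (fun _ _ => Nat.zero_le _) hy
  have : (y i).natAbs < (∑ y ∈ S, ∑ i, (y i).natAbs) + 1 := by omega
  exact_mod_cast this

theorem DD_of_inf {t : Fin 3} {m : ℕ} {ω : Config d} {x : Fin d → ℤ}
    (hx : x ∈ Run7.h165.box d m) (hinf : {y | (openGraph t ω).Reachable x y}.Infinite) (n : ℕ) :
    DD t m n ω := by
  have h1 : ∃ y, (openGraph t ω).Reachable x y ∧ ∃ i, (n : ℤ) ≤ |y i| := by
    by_contra h
    push Not at h
    apply hinf
    apply ((Run7.h165.box d n : Finset (Fin d → ℤ)).finite_toSet).subset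
    intro y hy
    rw [Finset.mem_coe, mem_boxx]
    exact fun k => (h y hy k).le
  obtain ⟨y, ⟨w⟩, hy⟩ := h1
  obtain ⟨z, hz, hr⟩ := first_exit w hy
  exact ⟨x, hx, z, hz, hr⟩

theorem inf_of_DD {t : Fin 3} {m : ℕ} {ω : Config d} (h : ∀ n, DD t m n ω) :
    ∃ x ∈ Run7.h165.box d m, {y | (openGraph t ω).Reachable x y}.Infinite := by
  by_contra hc
  push Not at hc
  have h1 : (⋃ x ∈ (Run7.h165.box d m : Finset (Fin d → ℤ)),
      {y | (openGraph t ω).Reachable x y}).Finite := by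
    apply Set.Finite.biUnion (Finset.finite_toSet _)
    intro x hx
    exact hc x hx
  obtain ⟨n, hn⟩ := finite_bdd h1
  obtain ⟨x, hx, y, ⟨i, hi⟩, hr⟩ := h n
  have h2 := hn y (by
    rw [Set.mem_iUnion₂]
    exact ⟨x, hx, hr.mono (openGraph_mono t (restr_le n ω))⟩) i
  omega

/-- Existence of an infinite cluster in terms of the events `DD`. -/
theorem hasInf_iff (t : Fin 3) (ω : Config d) :
    HasInfCluster t ω ↔ ∃ m, ∀ n, DD t m n ω := by
  constructor
  · rintro ⟨x, hx⟩
    obtain ⟨m, hm⟩ := finite_bdd (Set.finite_singleton x)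
    refine ⟨m, fun n => DD_of_inf ?_ hx n⟩
    rw [mem_boxx]
    exact fun k => (hm x rfl k).le
  · rintro ⟨m, hm⟩
    obtain ⟨x, -, hx⟩ := inf_of_DD hm
    exact ⟨x, hx⟩

end Run7.h643.AT
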