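import Pool.Agent.Run7.h643.AT4
import Pool.Agent.Run7.h643.IV2
import Pool.Agent.Run7.h165.Kernel3
import Pool.Agent.Run7.h165.ES

/-!
Connectivity on the torus and on `ℤ^d`.
-/

namespace Run7.h643.AT

open Finset Run7.h165
open scoped Classical

variable {d N : ℕ} [NeZero N]

theorem par_zero_pos (β J₁ J₂ : ℝ) : 0 < par β J₁ J₂ 0 := Real.exp_pos _

/-- Translation of connections. -/
theorem connT_shift (t : Fin 3) (ω : TE d N → Fin 3) (x u v : TV d N) :
    ConnT t (fun e => ω (e.1 + x, e.2)) u v ↔ ConnT t ω (u + x) (v + x) := by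
  have key : ∀ (ω : TE d N → Fin 3) (x u v : TV d N),
      ConnT t (fun e => ω (e.1 + x, e.2)) u v → ConnT t ω (u + x) (v + x) := by
    intro ω x u v h
    induction h with
    | refl => exact Relation.ReflTransGen.refl
    | tail _ hadj ih =>
      refine ih.tail ?_
      obtain ⟨e, he, hc⟩ := hadj
      refine ⟨(e.1 + x, e.2), he, ?_⟩
      rcases hc with ⟨h1, h2⟩ | ⟨h1, h2⟩
      · left
        rw [h1, h2]
        refine ⟨rfl, ?_⟩
        show e.1 + Pi.single e.2 1 + x = e.1 + x + Pi.single e.2 1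
        abel
      · right
        rw [h1, h2]
        refine ⟨?_, rfl⟩
        show e.1 + Pi.single e.2 1 + x = e.1 + x + Pi.single e.2 1
        abel
  constructor
  · exact key ω x u v
  · intro h
    have h2 : ConnT t (fun e => (fun e : TE d N => ω (e.1 + x, e.2)) (e.1 + -x, e.2))
        (u + x) (v + x) := by
      have e1 : (fun e : TE d N => (fun e : TE d N => ω (e.1 + x, e.2)) (e.1 + -x, e.2)) = ω := by
        funext e
        show ω (e.1 + -x + x, e.2) = ω e
        rw [neg_add_cancel_right]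
      rw [e1]
      exact h
    have h3 := key (fun e => ω (e.1 + x, e.2)) (-x) (u + x) (v + x) h2
    rwa [add_neg_cancel_right, add_neg_cancel_right] at h3

theorem tr_trans {d N : ℕ} [NeZero N] {β J₁ J₂ : ℝ} (t : Fin 3) (x y : TV d N) :
    Ex (wt (tsrc : TE d N → TV d N) ttgt (par β J₁ J₂)) (fun ω => ind (ConnT t ω x y)) =
    Ex (wt (tsrc : TE d N → TV d N) ttgt (par β J₁ J₂))
      (fun ω => ind (ConnT t ω 0 (y - x))) := by
  have h := Ex_shift (d := d) (N := N) (par_zero_pos β J₁ J₂) x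
    (fun ω => ind (ConnT t ω 0 (y - x)))
  rw [← h]
  congr 1
  funext ω
  rw [connT_shift, zero_add, sub_add_cancel]

theorem tr_trans_far {d N : ℕ} [NeZero N] {β J₁ J₂ : ℝ} (t : Fin 3) (x : TV d N) (n : ℕ) :
    Ex (wt (tsrc : TE d N → TV d N) ttgt (par β J₁ J₂))
      (fun ω => ind (∃ z, n ≤ ninf (z - x) ∧ ConnT t ω x z)) =
    Ex (wt (tsrc : TE d N → TV d N) ttgt (par β J₁ J₂))
      (fun ω => ind (∃ z, n ≤ ninf z ∧ ConnT t ω 0 z)) := by
  have h := Ex_shift (d := d) (N := N) (par_zero_pos β J₁ J₂) x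
    (fun ω => ind (∃ z, n ≤ ninf z ∧ ConnT t ω 0 z))
  rw [← h]
  congr 1
  funext ω
  congr 1
  apply propext
  constructor
  · rintro ⟨z, hz, hc⟩
    refine ⟨z - x, hz, ?_⟩
    rw [connT_shift, zero_add, sub_add_cancel]
    exact hc
  · rintro ⟨z, hz, hc⟩
    rw [connT_shift, zero_add] at hc
    exact ⟨z + x, by rwa [add_sub_cancel_right], hc⟩

theorem zn_intCast_le (a : ℤ) : zn ((a : ℤ) : ZMod N) ≤ a.natAbs := by
  obtain ⟨n, rfl | rfl⟩ := Int.eq_nat_or_neg a
  · rw [Int.cast_natCast, Int.natAbs_natCast]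
    exact zn_natCast n
  · rw [Int.cast_neg, Int.cast_natCast, zn_neg, Int.natAbs_neg, Int.natAbs_natCast]
    exact zn_natCast n

theorem exists_lift (t : Fin 3) (ω : TE d N → Fin 3) {v : TV d N} (h : ConnT t ω 0 v) :
    ∃ w : Fin d → ℤ, (fun i => ((w i : ℤ) : ZMod N)) = v ∧
      (openGraph t (pull ω)).Reachable 0 w := by
  induction h with
  | refl => exact ⟨0, by funext i; simp, SimpleGraph.Reachable.refl _⟩
  | @tail u v _ hadj ih =>
    obtain ⟨w, hw, hr⟩ := ih
    obtain ⟨e, he, hc⟩ := hadj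
    rcases hc with ⟨h1, h2⟩ | ⟨h1, h2⟩
    · refine ⟨w + Pi.single e.2 1, ?_, hr.trans (SimpleGraph.Adj.reachable ?_)⟩
      · rw [cast_add_single, hw, h1, h2]
        rfl
      · refine ⟨(w, e.2), ?_, Or.inl ⟨rfl, rfl⟩⟩
        show t ≤ ω ((fun i => ((w i : ℤ) : ZMod N)), e.2)
        rw [hw, h1]
        exact he
    · have h3 : (fun i => (((w - Pi.single e.2 1 : Fin d → ℤ) i : ℤ) : ZMod N)) = v := by
        have h4 := cast_add_single (N := N) (w - Pi.single e.2 1) e.2
        rw [sub_add_cancel, hw, h1] at h4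
        rw [h2]
        exact (add_right_cancel h4).symm
      refine ⟨w - Pi.single e.2 1, h3, hr.trans (SimpleGraph.Adj.reachable ?_)⟩
      refine ⟨(w - Pi.single e.2 1, e.2), ?_, Or.inr ⟨?_, rfl⟩⟩
      · show t ≤ ω ((fun i => (((w - Pi.single e.2 1 : Fin d → ℤ) i : ℤ) : ZMod N)), e.2)
        rw [h3, h2]
        exact he
      · show w = w - Pi.single e.2 1 + Pi.single e.2 1
        rw [sub_add_cancel]

theorem tr_far {d N : ℕ} [NeZero N] (hd : 0 < d) (t : Fin 3) (n : ℕ) (ω : TE d N → Fin 3)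
    (y : TV d N) (hy : n ≤ ninf y) (h : ConnT t ω 0 y) : DD t 0 n (pull ω) := by
  obtain ⟨w, hw, ⟨p⟩⟩ := exists_lift t ω h
  have hi : ∃ i, n ≤ zn (y i) := by
    by_contra hcon
    push Not at hcon
    rcases Nat.eq_zero_or_pos n with h0 | h0
    · have := hcon ⟨0, hd⟩
      omega
    · have h1 : ninf y ≤ n - 1 := by
        rw [ninf_le_iff]
        intro i
        have := hcon i
        omega
      omega
  obtain ⟨i, hi⟩ := hi
  have hwi : (n : ℤ) ≤ |w i| := by
    have h1 : zn (y i) ≤ (w i).natAbs := by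
      rw [← hw]
      exact zn_intCast_le _
    rw [Int.abs_eq_natAbs]
    exact_mod_cast hi.trans h1
  obtain ⟨z, hz, hr⟩ := first_exit p ⟨i, hwi⟩
  refine ⟨0, ?_, z, hz, hr⟩
  rw [mem_boxx]
  intro k
  simp

theorem zn_ge {a : ℤ} {r : ℕ} (h1 : (r : ℤ) ≤ |a|) (h2 : |a| + r ≤ N) :
    r ≤ zn ((a : ℤ) : ZMod N) := by
  unfold zn
  by_contra hcon
  push Not at hcon
  set b := ((a : ℤ) : ZMod N).valMinAbs with hb
  have h3 : ((b : ℤ) : ZMod N) = ((a : ℤ) : ZMod N) := ZMod.coe_valMinAbs _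
  rw [ZMod.intCast_eq_intCast_iff_dvd_sub] at h3
  obtain ⟨c, hc⟩ := h3
  have h4 : |b| < r := by
    rw [Int.abs_eq_natAbs]
    exact_mod_cast hcon
  have h5 : |a - b| < N := by
    have := abs_sub a b
    have h6 : |a - b| ≤ |a| + |b| := abs_sub _ _
    omega
  have hN : (0 : ℤ) < N := by
    have := NeZero.pos N
    exact_mod_cast this
  have hc0 : c = 0 := by
    rw [hc, abs_mul, abs_of_pos hN] at h5
    by_contra hne
    have : 1 ≤ |c| := Int.one_le_abs hne
    nlinarith
  rw [hc0, mul_zero] at hc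
  have : a = b := by linarith
  rw [this] at h1
  omega

theorem tr_DD {d N : ℕ} [NeZero N] {t : Fin 3} (ht : 1 ≤ t) {m n : ℕ} (hmn : m < n)
    (hN : 2 * n < N) (ω : TE d N → Fin 3) (h : DD t m n (pull ω)) :
    ∃ x ∈ box d m, ∃ z : TV d N, n - m ≤ ninf (z - (fun i => ((x i : ℤ) : ZMod N))) ∧
      ConnT t ω (fun i => ((x i : ℤ) : ZMod N)) z := by
  obtain ⟨x, hx, y, ⟨i, hi⟩, ⟨p⟩⟩ := h
  have hxm := mem_boxx.mp hx
  -- the end point lies in the box
  have hend : ∀ (u v : Fin d → ℤ) (_ : (openGraph t (restr n (pull ω))).Walk u v),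
      u ∈ Run7.h165.box d n → v ∈ Run7.h165.box d n := by
    intro u v q
    induction q with
    | nil => exact fun h => h
    | cons hadj q ih =>
      intro _
      apply ih
      obtain ⟨e, he, hc⟩ := hadj
      have hm : e ∈ boxEdges d n := by
        by_contra hm
        unfold restr at he
        rw [if_neg hm] at he
        exact absurd (le_trans ht he) (by decide)
      rw [mem_boxEdges] at hm
      rcases hc with ⟨h1, h2⟩ | ⟨h1, h2⟩
      · rw [h2]; exact hm.2
      · rw [h2]; exact hm.1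
  have hy := mem_boxx.mp (hend x y p (box_mono hmn.le hx))
  have hconn : ∀ (u v : Fin d → ℤ) (_ : (openGraph t (restr n (pull ω))).Walk u v),
      ConnT t ω (fun i => ((u i : ℤ) : ZMod N)) (fun i => ((v i : ℤ) : ZMod N)) := by
    intro u v q
    induction q with
    | nil => exact Relation.ReflTransGen.refl
    | cons hadj q ih =>
      refine Relation.ReflTransGen.head ?_ ih
      obtain ⟨e, he, hc⟩ := hadj
      refine ⟨((fun i => ((e.1 i : ℤ) : ZMod N)), e.2), he.trans (restr_le n _ e), ?_⟩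
      rcases hc with ⟨h1, h2⟩ | ⟨h1, h2⟩
      · left
        rw [h1, h2]
        exact ⟨rfl, cast_add_single _ _⟩
      · right
        rw [h1, h2]
        exact ⟨cast_add_single _ _, rfl⟩
  refine ⟨x, hx, fun i => ((y i : ℤ) : ZMod N), ?_, hconn x y p⟩
  refine le_trans ?_ (zn_le_ninf _ i)
  have e1 : (((fun i => ((y i : ℤ) : ZMod N)) - (fun i => ((x i : ℤ) : ZMod N)) : TV d N)) i =
      (((y i - x i : ℤ)) : ZMod N) := by
    simp only [Pi.sub_apply]
    push_cast
    rfl
  rw [e1]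
  have a1 := hxm i
  have a2 := hy i
  have a3 : |y i| ≤ |y i - x i| + |x i| := by
    have := abs_add_le (y i - x i) (x i)
    rwa [sub_add_cancel] at this
  have a4 : |y i - x i| ≤ |y i| + |x i| := abs_sub _ _
  have a5 : ((n - m : ℕ) : ℤ) = n - m := by
    rw [Nat.cast_sub hmn.le]
  apply zn_ge
  · rw [a5]; omega
  · rw [a5]
    have : (2 * n : ℤ) < N := by exact_mod_cast hN
    omega

theorem ball_card {d N : ℕ} [NeZero N] (R : ℕ) :
    (Finset.univ.filter (fun z : TV d N => ninf z ≤ R)).card ≤ (2 * R + 1) ^ d := by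
  have h1 : (Finset.univ.filter (fun z : TV d N => ninf z ≤ R)) =
      Fintype.piFinset (fun _ : Fin d => univ.filter (fun a : ZMod N => zn a ≤ R)) := by
    ext z
    rw [Finset.mem_filter, Fintype.mem_piFinset, ninf_le_iff]
    simp
  rw [h1, Fintype.card_piFinset_const]
  apply Nat.pow_le_pow_left
  have h2 : (Finset.Icc (-(R : ℤ)) R).card = 2 * R + 1 := by
    rw [Int.card_Icc]
    omega
  rw [← h2]
  apply Finset.card_le_card_of_injOn (fun a : ZMod N => a.valMinAbs)
  · intro a ha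
    rw [Finset.mem_coe, Finset.mem_filter] at ha
    rw [Finset.mem_coe, Finset.mem_Icc, ← abs_le, Int.abs_eq_natAbs]
    exact_mod_cast ha.2
  · intro a _ b _ hab
    exact ZMod.injective_valMinAbs hab

end Run7.h643.AT
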