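import Pool.Agent.Run7.h643.AT3

/-!
The transfer lemma: the torus at `β` versus the boxes at `β' > β`.
-/

namespace Run7.h643.AT

open Finset Run7.h165
open scoped Classical

section torus

variable {d N : ℕ} [NeZero N]

/-- Translation invariance on the torus. -/
theorem Ex_shift {p : Fin 3 → ℝ} (hp : 0 < p 0) (x : TV d N) (h : (TE d N → Fin 3) → ℝ) :
    Ex (wt (tsrc : TE d N → TV d N) ttgt p) (fun ω => h (fun e => ω (e.1 + x, e.2))) =
      Ex (wt (tsrc : TE d N → TV d N) ttgt p) h := by
  let ι : TV d N → TV d N := fun y => y - x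
  let j : TE d N → TE d N := fun e => (e.1 - x, e.2)
  have hι : Function.Injective ι := sub_left_injective
  have hj : Function.Injective j := by
    intro a b hab
    have h3 := congrArg Prod.fst hab
    have h4 := congrArg Prod.snd hab
    exact Prod.ext (sub_left_injective h3) h4
  have key := Ex_emb hι hj (s := tsrc) (t := ttgt) (s0 := tsrc) (t0 := ttgt) (fun e => rfl)
    (fun e => by
      show e.1 - x + Pi.single e.2 1 = e.1 + Pi.single e.2 1 - x
      abel) hp h
  have hT : (fun e => ∃ e0, j e0 = e) = fun _ => True := by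
    funext e
    apply propext
    refine ⟨fun _ => trivial, fun _ => ⟨(e.1 + x, e.2), ?_⟩⟩
    show (e.1 + x - x, e.2) = e
    rw [add_sub_cancel_right]
  rw [hT, wF_univ] at key
  rw [key]
  congr 1
  funext ω
  congr 1
  funext e
  have h5 : j (e.1 + x, e.2) = e := by
    show (e.1 + x - x, e.2) = e
    rw [add_sub_cancel_right]
  have h6 := ext_apply hj ω (e.1 + x, e.2)
  rw [h5] at h6
  exact h6.symm

/-- The edges of the torus that do not wrap around. -/
def FF (e : TE d N) : Prop := (e.1 e.2).val + 1 < N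

theorem card_wrap : (Fintype.card {e : TE d N // ¬ FF e}) * N ≤ d * N ^ d := by
  have h1 : Fintype.card ({e : TE d N // ¬ FF e} × ZMod N) =
      (Fintype.card {e : TE d N // ¬ FF e}) * N := by
    rw [Fintype.card_prod, ZMod.card]
  have h2 : Fintype.card (TE d N) = d * N ^ d := by
    rw [Fintype.card_prod, Fintype.card_fun, ZMod.card, Fintype.card_fin, mul_comm]
  rw [← h1, ← h2]
  apply Fintype.card_le_of_injective
    (fun q : {e : TE d N // ¬ FF e} × ZMod N =>
      ((Function.update q.1.1.1 q.1.1.2 q.2, q.1.1.2) : TE d N))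
  rintro ⟨⟨⟨x, i⟩, hx⟩, c⟩ ⟨⟨⟨y, i'⟩, hy⟩, c'⟩ h
  have h3 := congrArg Prod.fst h
  have h4 := congrArg Prod.snd h
  simp only at h3 h4
  subst h4
  unfold FF at hx hy
  simp only at hx hy
  have h5 : c = c' := by
    have := congrFun h3 i
    simpa using this
  have h6 : x = y := by
    funext k
    by_cases hk : k = i
    · subst hk
      apply ZMod.val_injective
      have a1 := ZMod.val_lt (x k)
      have a2 := ZMod.val_lt (y k)
      omega
    · have := congrFun h3 k
      simpa [Function.update_of_ne hk] using this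
  subst h5
  subst h6
  rfl

/-- Centres of boxes that do not wrap around. -/
noncomputable def XX (d N n : ℕ) [NeZero N] : Finset (TV d N) :=
  Fintype.piFinset (fun _ : Fin d => univ.filter (fun c : ZMod N => n ≤ c.val ∧ c.val + n < N))

theorem mem_XX {n : ℕ} {x : TV d N} : x ∈ XX d N n ↔ ∀ k, n ≤ (x k).val ∧ (x k).val + n < N := by
  unfold XX
  rw [Fintype.mem_piFinset]
  simp

theorem card_XX (n : ℕ) : (N - 2 * n) ^ d ≤ (XX d N n).card := by
  unfold XX
  rw [Fintype.card_piFinset_const]
  apply Nat.pow_le_pow_left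
  have h1 : (Finset.Ico n (N - n)).card = N - 2 * n := by
    rw [Nat.card_Ico]; omega
  rw [← h1]
  apply Finset.card_le_card_of_injOn (fun k : ℕ => (k : ZMod N))
  · intro k hk
    rw [Finset.mem_coe, Finset.mem_Ico] at hk
    rw [Finset.mem_coe, Finset.mem_filter]
    have : ((k : ℕ) : ZMod N).val = k := ZMod.val_natCast_of_lt (by omega)
    rw [this]
    exact ⟨mem_univ _, hk.1, by omega⟩
  · intro k hk l hl hkl
    rw [Finset.mem_coe, Finset.mem_Ico] at hk hl
    have a1 : ((k : ℕ) : ZMod N).val = k := ZMod.val_natCast_of_lt (by omega)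
    have a2 : ((l : ℕ) : ZMod N).val = l := ZMod.val_natCast_of_lt (by omega)
    have := congrArg ZMod.val hkl
    simp only at this
    rwa [a1, a2] at this

theorem mem_box' {n : ℕ} {x : Fin d → ℤ} :
    x ∈ Run7.h165.box d n ↔ ∀ k, -(n : ℤ) ≤ x k ∧ x k ≤ n := by
  unfold Run7.h165.box
  rw [Fintype.mem_piFinset]
  simp only [Finset.mem_Icc]

/-- The measure of the unwrapped torus is dominated by the measure of a large box. -/
theorem torus_le_box {n : ℕ} {β J₁ J₂ : ℝ} (hβ : 0 < β) (h1 : 0 < J₁) (h2 : J₁ < J₂)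
    {A : Config d → Prop}
    (hA : ∀ ω ω' : Config d, (∀ e, ω e ≤ ω' e) → A ω → A ω')
    (hA' : ∀ ω ω' : Config d, (∀ e ∈ boxEdges d n, ω e = ω' e) → (A ω ↔ A ω'))
    {x : TV d N} (hx : x ∈ XX d N n) :
    Ex (wF (tsrc : TE d N → TV d N) ttgt (par β J₁ J₂) FF)
      (fun ω => ind (A (pull (fun e => ω (e.1 + x, e.2))))) ≤ bprob d N β J₁ J₂ A := by
  rw [mem_XX] at hx
  set p := par β J₁ J₂ with hp
  have hpp := par_pos hβ h1 h2
  let s0 : {e : TE d N // FF e} → TV d N := fun e => tsrc e.1
  let t0 : {e : TE d N // FF e} → TV d N := fun e => ttgt e.1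
  have hF : (fun e => ∃ e0 : {e : TE d N // FF e}, e0.1 = e) = FF := by
    funext e
    apply propext
    exact ⟨fun ⟨e0, h⟩ => h ▸ e0.2, fun h => ⟨⟨e, h⟩, rfl⟩⟩
  have k1 := Ex_emb (s := (tsrc : TE d N → TV d N)) (t := ttgt) (s0 := s0) (t0 := t0)
    (ι := id) (j := (Subtype.val : {e : TE d N // FF e} → TE d N)) Function.injective_id
    Subtype.val_injective (fun e => rfl) (fun e => rfl) (hpp 0)
    (fun ω => ind (A (pull (fun e => ω (e.1 + x, e.2)))))
  rw [hF] at k1
  rw [k1]
  -- the map into the box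
  have hv : ∀ y : TV d N, (fun k => ((y k).val : ℤ) - (x k).val) ∈ Run7.h165.box d N := by
    intro y
    rw [mem_box']
    intro k
    have a1 := ZMod.val_lt (y k)
    have a2 := ZMod.val_lt (x k)
    constructor <;> omega
  let ι : TV d N → BV d N := fun y => ⟨fun k => ((y k).val : ℤ) - (x k).val, hv y⟩
  have htg : ∀ e : {e : TE d N // FF e},
      (fun k => ((e.1.1 k).val : ℤ) - (x k).val) + (Pi.single e.1.2 1 : Fin d → ℤ) =
        fun k => (((ttgt e.1) k).val : ℤ) - (x k).val := by
    rintro ⟨⟨y, i⟩, he⟩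
    unfold FF at he
    simp only at he
    funext k
    by_cases hk : k = i
    · subst hk
      have hN1 : 1 < N := by omega
      have h3 : (y k + 1).val = (y k).val + 1 := by
        have h4 : (1 : ZMod N).val = 1 := by
          rw [ZMod.val_one_eq_one_mod]
          exact Nat.mod_eq_of_lt hN1
        rw [ZMod.val_add_of_lt, h4]
        rw [h4]; exact he
      simp only [Pi.add_apply, Pi.single_eq_same, ttgt, h3]
      push_cast
      ring
    · simp only [Pi.add_apply, ttgt, Pi.single_eq_of_ne hk, add_zero]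
  have hedge : ∀ e : {e : TE d N // FF e},
      ((fun k => ((e.1.1 k).val : ℤ) - (x k).val, e.1.2) : Edge d) ∈ boxEdges d N := by
    intro e
    rw [mem_boxEdges]
    refine ⟨hv _, ?_⟩
    have h3 := htg e
    have h4 := hv (ttgt e.1)
    rw [← h3] at h4
    exact h4
  let j : {e : TE d N // FF e} → BE d N := fun e =>
    ⟨(fun k => ((e.1.1 k).val : ℤ) - (x k).val, e.1.2), hedge e⟩
  have hvinj : ∀ y z : TV d N, (fun k => ((y k).val : ℤ) - (x k).val) =
      (fun k => ((z k).val : ℤ) - (x k).val) → y = z := by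
    intro y z h
    funext k
    apply ZMod.val_injective
    have := congrFun h k
    omega
  have hι : Function.Injective ι := by
    intro y z h
    exact hvinj y z (congrArg (fun q => q.1) h)
  have hj : Function.Injective j := by
    intro e e' h
    have h3 : (j e).1 = (j e').1 := congrArg (fun q => q.1) h
    have h4 := congrArg Prod.fst h3
    have h5 := congrArg Prod.snd h3
    apply Subtype.ext
    exact Prod.ext (hvinj _ _ h4) h5
  have k2 := Ex_emb (s := (bsrc : BE d N → BV d N)) (t := btgt) (s0 := s0) (t0 := t0)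
    (ι := ι) (j := j) hι hj (fun e => rfl) (fun e => Subtype.ext (htg e)) (hpp 0)
    (fun ω => ind (A (extend0 ω)))
  have k3 : ∀ η : {e : TE d N // FF e} → Fin 3,
      A (pull (fun e => ext (Subtype.val : {e : TE d N // FF e} → TE d N) η (e.1 + x, e.2))) ↔
        A (extend0 (ext j η)) := by
    intro η
    apply hA'
    intro e he
    have he' := mem_boxEdges.mp he
    have b1 := mem_box'.mp he'.1
    have b2 := mem_box'.mp he'.2
    -- the value of the shifted coordinate
    have hval : ∀ k, ((((e.1 k : ℤ) : ZMod N) + x k).val : ℤ) = e.1 k + (x k).val := by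
      intro k
      have h3 : ((e.1 k : ℤ) : ZMod N) + x k = ((e.1 k + (x k).val : ℤ) : ZMod N) := by
        push_cast
        rw [ZMod.natCast_zmod_val]
      rw [h3, ZMod.val_intCast]
      apply Int.emod_eq_of_lt
      · have := (b1 k).1
        have := (hx k).1
        simp only [esrc] at *
        omega
      · have := (b1 k).2
        have := (hx k).2
        simp only [esrc] at *
        omega
    have hFF : FF (((fun k => ((e.1 k : ℤ) : ZMod N)) + x, e.2) : TE d N) := by
      unfold FF
      have h3 := hval e.2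
      have h4 := (b2 e.2).2
      have h5 := (hx e.2).2
      simp only [etgt, Pi.add_apply, Pi.single_eq_same] at h4
      simp only [Pi.add_apply]
      omega
    have r1 : pull (fun e => ext (Subtype.val : {e : TE d N // FF e} → TE d N) η
        (e.1 + x, e.2)) e = η ⟨_, hFF⟩ := by
      exact ext_apply Subtype.val_injective η ⟨_, hFF⟩
    have r2 : j ⟨_, hFF⟩ = ⟨e, boxEdges_mono (by
        have := (hx e.2).1
        have := (hx e.2).2
        omega) he⟩ := by
      apply Subtype.ext
      apply Prod.ext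
      · funext k
        show ((((e.1 k : ℤ) : ZMod N) + x k).val : ℤ) - (x k).val = e.1 k
        rw [hval]
        ring
      · rfl
    have hm : e ∈ boxEdges d N := boxEdges_mono (by
        have := (hx e.2).1
        have := (hx e.2).2
        omega) he
    rw [r1, extend0_apply _ hm]
    have r3 := ext_apply hj η ⟨_, hFF⟩
    rw [r2] at r3
    exact r3.symm
  simp only [k3]
  rw [← k2, bprob_eq, ← wF_univ]
  apply Ex_wF_mono _ _ hpp hpp (MLR_refl _) (fun _ _ => trivial)
  intro a b hab
  exact ind_mono (hA _ _ (extend0_mono hab))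

end torus

/-- (FV4) the transfer lemma: the torus at `β` versus the boxes at `β' > β`. -/
theorem fv_transfer {d : ℕ} (_hd : 1 ≤ d) {β β' J₁ J₂ : ℝ} (hβ : 0 < β) (hββ : β < β')
    (h1 : 0 < J₁) (h2 : J₁ < J₂) (n : ℕ) {A : Config d → Prop}
    (hA : ∀ ω ω' : Config d, (∀ e, ω e ≤ ω' e) → A ω → A ω')
    (hA' : ∀ ω ω' : Config d, (∀ e ∈ boxEdges d n, ω e = ω' e) → (A ω ↔ A ω'))
    (ε : ℝ) (hε : 0 < ε) :
    ∃ N₀ : ℕ, ∀ N : ℕ, [NeZero N] → N₀ ≤ N →
      ∃ M : ℕ, tprob d N β J₁ J₂ A ≤ bprob d M β' J₁ J₂ A + ε := by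
  set K : ℝ := β' * J₂ / (β' - β) * ((2 + β' * (J₂ - J₁)) / (J₂ - J₁)) with hK
  have hβ' : 0 < β' := lt_trans hβ hββ
  have hJ : 0 < J₂ - J₁ := by linarith
  have hbb : 0 < β' - β := by linarith
  have hJ₂ : 0 < J₂ := by linarith
  have hK0 : 0 < K := by rw [hK]; positivity
  set C : ℝ := (boxEdges d n).card * (d * 2 ^ d * K) with hC
  have hC0 : 0 ≤ C := by rw [hC]; positivity
  obtain ⟨N1, hN1⟩ := exists_nat_gt (C / ε)
  refine ⟨max (4 * n + 1) N1, ?_⟩
  intro N _ hN
  have hNn : 4 * n + 1 ≤ N := le_trans (le_max_left _ _) hN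
  have hNN : N1 ≤ N := le_trans (le_max_right _ _) hN
  have hNpos : (0 : ℝ) < N := by
    have : 0 < N := by omega
    exact_mod_cast this
  have hCN : C / N ≤ ε := by
    rw [div_le_iff₀ hNpos]
    rw [div_lt_iff₀ hε] at hN1
    have : (N1 : ℝ) ≤ N := by exact_mod_cast hNN
    nlinarith
  refine ⟨N, ?_⟩
  obtain ⟨x, hx1, hx2, hx⟩ := exists_param (tsrc : TE d N → TV d N) ttgt hβ hββ h1 h2 FF
  rw [← hK] at hx
  have hx0 : 0 < x := lt_trans hβ hx1
  set p := par x J₁ J₂ with hp
  have hpp : ∀ i, 0 < p i := par_pos hx0 h1 h2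
  set G : TE d N → ℝ := dG (tsrc : TE d N → TV d N) ttgt p FF with hG
  have hG0 : ∀ e, 0 ≤ G e := dG_nonneg _ _ hpp FF
  -- the shifted edges
  set φ : TV d N → Edge d → TE d N := fun y e => ((fun k => ((e.1 k : ℤ) : ZMod N)) + y, e.2)
    with hφ
  -- averaging
  have hcard : (N : ℝ) ^ d ≤ 2 ^ d * (XX d N n).card := by
    have h3 := card_XX (d := d) (N := N) n
    have h4 : (N : ℝ) ≤ 2 * ((N - 2 * n : ℕ) : ℝ) := by
      have : N ≤ 2 * (N - 2 * n) := by omega
      exact_mod_cast this
    calc (N : ℝ) ^ d ≤ (2 * ((N - 2 * n : ℕ) : ℝ)) ^ d := pow_le_pow_left₀ hNpos.le h4 d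
      _ = 2 ^ d * (((N - 2 * n) ^ d : ℕ) : ℝ) := by rw [mul_pow]; push_cast; rfl
      _ ≤ 2 ^ d * (XX d N n).card := by
          apply mul_le_mul_of_nonneg_left _ (by positivity)
          exact_mod_cast h3
  have hXne : (XX d N n).Nonempty := by
    rw [← Finset.card_pos]
    have h3 : (0 : ℝ) < 2 ^ d * (XX d N n).card := lt_of_lt_of_le (by positivity) hcard
    have h4 : (0 : ℝ) < (XX d N n).card := by
      by_contra h5
      push Not at h5
      have : (2 : ℝ) ^ d * (XX d N n).card ≤ 0 := mul_nonpos_of_nonneg_of_nonpos (by positivity) h5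
      linarith
    exact_mod_cast h4
  have hsum : ∑ y ∈ XX d N n, ∑ e ∈ boxEdges d n, G (φ y e) ≤
      ∑ _y ∈ XX d N n, C / N := by
    rw [Finset.sum_comm]
    have h3 : ∀ e ∈ boxEdges d n, ∑ y ∈ XX d N n, G (φ y e) ≤ ∑ e', G e' := by
      intro e _
      calc ∑ y ∈ XX d N n, G (φ y e) ≤ ∑ y, G (φ y e) :=
            Finset.sum_le_sum_of_subset_of_nonneg (Finset.subset_univ _) (fun _ _ _ => hG0 _)
        _ = ∑ y : TV d N, G (y, e.2) := by
            exact Equiv.sum_comp (Equiv.addLeft (fun k => ((e.1 k : ℤ) : ZMod N)))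
              (fun y => G (y, e.2))
        _ ≤ ∑ y : TV d N, ∑ i : Fin d, G (y, i) := by
            apply Finset.sum_le_sum
            intro y _
            exact Finset.single_le_sum (f := fun i => G (y, i)) (fun i _ => hG0 _) (mem_univ e.2)
        _ = ∑ e', G e' := (Fintype.sum_prod_type _).symm
    calc ∑ e ∈ boxEdges d n, ∑ y ∈ XX d N n, G (φ y e)
        ≤ ∑ _e ∈ boxEdges d n, ∑ e', G e' := Finset.sum_le_sum h3
      _ = (boxEdges d n).card * ∑ e', G e' := by rw [Finset.sum_const, nsmul_eq_mul]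
      _ ≤ (boxEdges d n).card * (((Fintype.card {e : TE d N // ¬ FF e} : ℕ) : ℝ) * K) :=
          mul_le_mul_of_nonneg_left hx (by positivity)
      _ ≤ (boxEdges d n).card * ((d * (2 ^ d * (XX d N n).card) / N) * K) := by
          apply mul_le_mul_of_nonneg_left _ (by positivity)
          apply mul_le_mul_of_nonneg_right _ hK0.le
          rw [le_div_iff₀ hNpos]
          have h4 : (((Fintype.card {e : TE d N // ¬ FF e} : ℕ) : ℝ)) * N ≤ d * (N : ℝ) ^ d := by
            exact_mod_cast card_wrap (d := d) (N := N)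
          refine h4.trans ?_
          exact mul_le_mul_of_nonneg_left hcard (by positivity)
      _ = ∑ _y ∈ XX d N n, C / N := by
          rw [Finset.sum_const, nsmul_eq_mul, hC]
          ring
  obtain ⟨y, hy, hyle⟩ := Finset.exists_le_of_sum_le hXne hsum
  have hfin : ∑ e ∈ boxEdges d n, G (φ y e) ≤ ε := hyle.trans hCN
  -- put together
  have s1 : tprob d N β J₁ J₂ A ≤ tprob d N x J₁ J₂ A := by
    unfold tprob
    rw [← wF_univ, ← wF_univ]
    apply Ex_wF_mono _ _ (par_pos hβ h1 h2) hpp (par_mlr hβ hx1.le h1 h2) (fun _ _ => trivial)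
    intro a b hab
    exact ind_mono (hA _ _ (pull_mono hab))
  have s2 : tprob d N x J₁ J₂ A = Ex (wt (tsrc : TE d N → TV d N) ttgt p)
      (fun ω => ind (A (pull (fun e => ω (e.1 + y, e.2))))) := by
    unfold tprob
    exact (Ex_shift (hpp 0) y (fun ω => ind (A (pull ω)))).symm
  have s3 := local_diff (tsrc : TE d N → TV d N) ttgt hpp FF (boxEdges d n) (φ y)
    (fun ω => A (pull (fun e => ω (e.1 + y, e.2)))) (by
      intro ω ω' h
      apply hA'
      intro e he
      exact h e he)
  have s4 := torus_le_box (d := d) (N := N) hx0 h1 h2 hA hA' hy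
  have s5 := fv_mono (d := d) (le_refl N) hx0 hx2.le h1 h2 hA
  rw [s2] at s1
  linarith

end Run7.h643.AT
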