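import Pool.Agent.Run7.h643.IV2

/-!
Infinite volume: the zero-one law.
-/

namespace Run7.h643.AT

open Finset Run7.h165 MeasureTheory Filter Topology
open scoped Classical

section general

variable {Ω : Type*} [MeasurableSpace Ω] (μ : Measure Ω) [IsProbabilityMeasure μ]

theorem tendsto_real_iUnion {s : ℕ → Set Ω} (hs : Monotone s) :
    Tendsto (fun n => μ.real (s n)) atTop (𝓝 (μ.real (⋃ n, s n))) :=
  (ENNReal.tendsto_toReal (measure_ne_top μ _)).comp (tendsto_measure_iUnion_atTop hs)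

theorem tendsto_real_iInter {s : ℕ → Set Ω} (hs : Antitone s) (hm : ∀ n, MeasurableSet (s n)) :
    Tendsto (fun n => μ.real (s n)) atTop (𝓝 (μ.real (⋂ n, s n))) :=
  (ENNReal.tendsto_toReal (measure_ne_top μ _)).comp
    (tendsto_measure_iInter_atTop (fun n => (hm n).nullMeasurableSet) hs
      ⟨0, measure_ne_top μ _⟩)

end general

variable {d : ℕ}

theorem iv_not_mem {d : ℕ} {β J₁ J₂ : ℝ} (hβ : 0 < β) (h1 : 0 < J₁) (h2 : J₁ < J₂) (t : Fin 3)
    (c : ℝ) (hc : 0 < c)
    (h : ∀ m : ℕ, ∃ n, m ≤ n ∧ ∀ M, n ≤ M → bprob d M β J₁ J₂ (DD t m n) ≤ 1 - c) :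
    β ∉ percSet d J₁ J₂ t := by
  rintro ⟨-, hp⟩
  obtain ⟨μ, hμ⟩ := iv_exists d hβ h1 h2
  have hprob : IsProbabilityMeasure μ := hμ.1
  have has := hp μ hμ
  have hD : ∀ m, μ.real {ω | ∀ n, DD t m n ω} ≤ 1 - c := by
    intro m
    obtain ⟨n, -, hn⟩ := h m
    have h3 : μ.real {ω | DD t m n ω} ≤ 1 - c :=
      le_of_tendsto (tendsto_cyl hβ h1 h2 hμ (DD_cyl t m n)) (eventually_atTop.mpr ⟨n, hn⟩)
    have h4 : μ.real {ω | ∀ n, DD t m n ω} ≤ μ.real {ω | DD t m n ω} :=
      measureReal_mono (fun ω hω => hω n)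
    exact h4.trans h3
  have hmono : Monotone (fun m => {ω : Config d | ∀ n, DD t m n ω}) :=
    fun m m' hm ω hω n => DD_mono_inner hm (hω n)
  have hlim := tendsto_real_iUnion μ hmono
  have hone : μ.real (⋃ m, {ω : Config d | ∀ n, DD t m n ω}) = 1 := by
    have h5 : (⋃ m, {ω : Config d | ∀ n, DD t m n ω}) =ᵐ[μ] (Set.univ : Set (Config d)) := by
      rw [eventuallyEq_univ]
      refine Filter.mem_of_superset has ?_
      intro ω hω
      obtain ⟨m, hm⟩ := (hasInf_iff t ω).mp hω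
      exact Set.mem_iUnion.mpr ⟨m, hm⟩
    rw [measureReal_congr h5]
    simp
  rw [hone] at hlim
  have := le_of_tendsto' hlim hD
  linarith

theorem iv_zero_one {d : ℕ} {β J₁ J₂ : ℝ} (hβ : 0 < β) (h1 : 0 < J₁) (h2 : J₁ < J₂) (t : Fin 3)
    (h : β ∉ percSet d J₁ J₂ t) (ε : ℝ) (hε : 0 < ε) :
    ∃ n, ∀ M, n ≤ M → bprob d M β J₁ J₂ (DD t 0 n) ≤ ε := by
  have hex : ∃ μ, IsWeakLimit d β J₁ J₂ μ ∧ ¬ ∀ᵐ ω ∂μ, HasInfCluster t ω := by
    by_contra hcon
    push Not at hcon
    exact h ⟨hβ, hcon⟩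
  obtain ⟨μ, hμ, hnot⟩ := hex
  have hprob : IsProbabilityMeasure μ := hμ.1
  -- events
  set N : ℕ → ℕ → Set (Config d) := fun m n => {ω | ¬ DD t m n ω} with hN
  set U : ℕ → Set (Config d) := fun m => {ω | ¬ ∀ n, DD t m n ω} with hU
  set Ec : Set (Config d) := {ω | ¬ HasInfCluster t ω} with hEc
  have hUN : ∀ m, U m = ⋃ n, N m n := by
    intro m
    ext ω
    simp [hU, hN]
  have hEU : Ec = ⋂ m, U m := by
    ext ω
    simp only [hEc, hU, Set.mem_ofPred_eq, Set.mem_iInter, hasInf_iff, not_exists]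
  have hNmono : ∀ m, Monotone (N m) := fun m n n' hn ω hω hD => hω (DD_anti_outer hn hD)
  have hUanti : Antitone U := by
    intro m m' hm ω hω hD
    exact hω fun n => DD_mono_inner hm (hD n)
  have hNmeas : ∀ m n, MeasurableSet (N m n) := fun m n => (DD_cyl t m n).not.measurable
  have hUmeas : ∀ m, MeasurableSet (U m) := by
    intro m
    rw [hUN]
    exact MeasurableSet.iUnion fun n => hNmeas m n
  have hEmeas : MeasurableSet Ec := by
    rw [hEU]
    exact MeasurableSet.iInter hUmeas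
  set a : ℝ := μ.real Ec with ha
  have ha0 : 0 ≤ a := measureReal_nonneg
  have hUlim : Tendsto (fun k => μ.real (U k)) atTop (𝓝 a) := by
    have := tendsto_real_iInter μ hUanti hUmeas
    rwa [← hEU] at this
  -- Step 1
  have s1 : ∀ m n k M2, n ≤ k → k < M2 →
      μ.real (N m n ∩ N k M2) ≤ bprob d k β J₁ J₂ (fun ω => ¬ DD t m n ω) * μ.real (N k M2) := by
    intro m n k M2 hnk hkM
    have e1 := tendsto_cyl hβ h1 h2 hμ
      ((((DD_cyl (d := d) t m n).mono (le_max_left n M2)).not).and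
        (((DD_cyl (d := d) t k M2).mono (le_max_right n M2)).not))
    have e2 := (tendsto_cyl hβ h1 h2 hμ (DD_cyl (d := d) t k M2).not).const_mul
      (bprob d k β J₁ J₂ (fun ω => ¬ DD t m n ω))
    refine le_of_tendsto_of_tendsto e1 e2 ?_
    rw [EventuallyLE, eventually_atTop]
    refine ⟨k, fun M hM => ?_⟩
    exact fv_cond (A := DD t m n) (B := fun ω => ¬ DD t k M2 ω) hM hβ h1 h2 (DD_inc t m n)
      ((DD_cyl t m n).mono hnk) (fun ω ω' hω => not_congr (DD_off_iff hkM ω ω' hω))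
  -- Step 2
  have s2 : ∀ m n k, n ≤ k →
      μ.real (N m n ∩ Ec) ≤ bprob d k β J₁ J₂ (fun ω => ¬ DD t m n ω) * μ.real (U k) := by
    intro m n k hnk
    have e1 : Tendsto (fun M2 => μ.real (N m n ∩ N k M2)) atTop
        (𝓝 (μ.real (⋃ M2, N m n ∩ N k M2))) :=
      tendsto_real_iUnion μ (fun M M' hM => Set.inter_subset_inter_right _ (hNmono k hM))
    rw [← Set.inter_iUnion, ← hUN] at e1
    have e2 : μ.real (N m n ∩ U k) ≤
        bprob d k β J₁ J₂ (fun ω => ¬ DD t m n ω) * μ.real (U k) := by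
      refine le_of_tendsto e1 ?_
      rw [eventually_atTop]
      refine ⟨k + 1, fun M2 hM2 => ?_⟩
      refine (s1 m n k M2 hnk (by omega)).trans ?_
      apply mul_le_mul_of_nonneg_left _ (bprob_nonneg k hβ h1 h2 _)
      refine measureReal_mono ?_
      rw [hUN]
      exact Set.subset_iUnion _ _
    refine le_trans (measureReal_mono ?_) e2
    apply Set.inter_subset_inter_right
    rw [hEU]
    exact Set.iInter_subset _ _
  -- Step 3
  have s3 : ∀ m n, μ.real (N m n ∩ Ec) ≤ μ.real (N m n) * a := by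
    intro m n
    have e1 := (tendsto_cyl hβ h1 h2 hμ (DD_cyl (d := d) t m n).not).mul hUlim
    refine ge_of_tendsto e1 ?_
    rw [eventually_atTop]
    exact ⟨n, fun k hk => s2 m n k hk⟩
  -- Step 4
  have s4 : ∀ m, a ≤ μ.real (U m) * a := by
    intro m
    have e1 : Tendsto (fun n => μ.real (N m n ∩ Ec)) atTop (𝓝 (μ.real (⋃ n, N m n ∩ Ec))) :=
      tendsto_real_iUnion μ (fun M M' hM => Set.inter_subset_inter_left _ (hNmono m hM))
    rw [← Set.iUnion_inter, ← hUN] at e1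
    have e2 : U m ∩ Ec = Ec := by
      apply Set.inter_eq_right.mpr
      rw [hEU]
      exact Set.iInter_subset _ _
    rw [e2] at e1
    refine le_of_tendsto' e1 ?_
    intro n
    refine (s3 m n).trans ?_
    apply mul_le_mul_of_nonneg_right _ ha0
    refine measureReal_mono ?_
    rw [hUN]
    exact Set.subset_iUnion _ _
  -- Step 5
  have s5 : a ≤ a * a := ge_of_tendsto' (hUlim.mul_const a) s4
  have hapos : 0 < a := by
    rcases ha0.lt_or_eq with h3 | h3
    · exact h3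
    · exfalso
      apply hnot
      have h4 : μ Ec = 0 := by
        have := h3.symm
        rw [ha, measureReal_eq_zero_iff] at this
        exact this
      exact h4
  have ha1 : 1 ≤ a := by
    by_contra h3
    push Not at h3
    nlinarith
  -- Step 7
  have s7 : μ.real {ω : Config d | ∀ n, DD t 0 n ω} = 0 := by
    have e1 : {ω : Config d | ∀ n, DD t 0 n ω} ⊆ Ecᶜ := by
      intro ω hω
      rw [Set.mem_compl_iff, hEc, Set.mem_ofPred_eq, not_not]
      exact (hasInf_iff t ω).mpr ⟨0, hω⟩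
    have e2 : μ.real Ecᶜ = 1 - a := probReal_compl_eq_one_sub hEmeas
    have e3 : μ.real {ω : Config d | ∀ n, DD t 0 n ω} ≤ μ.real Ecᶜ := measureReal_mono e1
    have e4 : 0 ≤ μ.real {ω : Config d | ∀ n, DD t 0 n ω} := measureReal_nonneg
    linarith
  have s8 : Tendsto (fun n => μ.real {ω : Config d | DD t 0 n ω}) atTop (𝓝 0) := by
    have e1 : Antitone (fun n => {ω : Config d | DD t 0 n ω}) :=
      fun n n' hn ω hω => DD_anti_outer hn hω
    have e2 := tendsto_real_iInter μ e1 (fun n => (DD_cyl t 0 n).measurable)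
    have e3 : (⋂ n, {ω : Config d | DD t 0 n ω}) = {ω : Config d | ∀ n, DD t 0 n ω} := by
      ext ω
      simp
    rw [e3, s7] at e2
    exact e2
  obtain ⟨n, hn⟩ := (s8.eventually (gt_mem_nhds hε)).exists
  refine ⟨n, fun M _ => ?_⟩
  have hmono : Monotone (fun M => bprob d M β J₁ J₂ (DD t 0 n)) := fun M M' hM =>
    fv_mono hM hβ le_rfl h1 h2 (DD_inc t 0 n)
  exact (hmono.ge_of_tendsto (tendsto_cyl hβ h1 h2 hμ (DD_cyl t 0 n)) M).trans hn.le

end Run7.h643.AT
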