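import Pool.Agent.Run7.h643.IV2

/-!
Final bookkeeping with the thresholds.
-/

namespace Run7.h643.AT

open Run7.h165 MeasureTheory Filter

theorem openGraph_anti {d : ℕ} (ω : Config d) : openGraph 2 ω ≤ openGraph 1 ω := by
  rintro x y ⟨e, he, hc⟩
  exact ⟨e, le_trans (by decide) he, hc⟩

theorem hasInf_two_one {d : ℕ} (ω : Config d) (h : HasInfCluster 2 ω) : HasInfCluster 1 ω := by
  obtain ⟨x, hx⟩ := h
  exact ⟨x, hx.mono fun y hy => hy.mono (openGraph_anti ω)⟩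

theorem percSet_sub {d : ℕ} {J₁ J₂ : ℝ} : percSet d J₁ J₂ 2 ⊆ percSet d J₁ J₂ 1 := by
  rintro β ⟨h0, h⟩
  exact ⟨h0, fun μ hμ => (h μ hμ).mono fun ω hω => hasInf_two_one ω hω⟩

theorem asm0 {d : ℕ} {J₁ J₂ β₀ βl : ℝ} (h1 : ∀ β, β₀ < β → β ∈ percSet d J₁ J₂ 2)
    (h2 : ∀ β β', 0 < β → β < β' → β' ≤ β₀ → β' ∉ percSet d J₁ J₂ 2 → β ∉ percSet d J₁ J₂ 1)
    (h3 : 0 < βl ∧ ∀ β, 0 < β → β ≤ βl → β ∉ percSet d J₁ J₂ 1) (_hb : 0 < β₀) :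
    (percSet d J₁ J₂ 2).Nonempty ∧ 0 < betaThreshold d J₁ J₂ 1 ∧
      betaThreshold d J₁ J₂ 1 = betaThreshold d J₁ J₂ 2 := by
  have hne2 : (percSet d J₁ J₂ 2).Nonempty := ⟨β₀ + 1, h1 _ (by linarith)⟩
  have hne1 : (percSet d J₁ J₂ 1).Nonempty := hne2.mono percSet_sub
  have hbdd : ∀ t, BddBelow (percSet d J₁ J₂ t) := fun t => ⟨0, fun β hβ => hβ.1.le⟩
  have hl : βl ≤ betaThreshold d J₁ J₂ 1 := by
    apply le_csInf hne1
    intro β hβ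
    by_contra hcon
    push Not at hcon
    exact h3.2 β hβ.1 hcon.le hβ
  refine ⟨hne2, lt_of_lt_of_le h3.1 hl, le_antisymm (csInf_le_csInf (hbdd 1) hne2 percSet_sub) ?_⟩
  apply le_csInf hne1
  intro β hβ
  by_contra hcon
  push Not at hcon
  have hs : betaThreshold d J₁ J₂ 2 ≤ β₀ := by
    apply le_of_forall_pos_le_add
    intro ε hε
    exact csInf_le (hbdd 2) (h1 _ (by linarith))
  obtain ⟨β', hβ1, hβ2⟩ := exists_between hcon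
  have hn : β' ∉ percSet d J₁ J₂ 2 := notMem_of_lt_csInf hβ2 (hbdd 2)
  exact h2 β β' hβ.1 hβ1 (hβ2.le.trans hs) hn hβ

end Run7.h643.AT
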