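import Pool.Agent.Run7.h165.Torus

/-!
Ashkin–Teller random-cluster measure: embedding a finite graph in a finite graph, and the box
weight as a graph weight.
-/

namespace Run7.h643.AT

open Finset Run7.h165
open scoped Classical

section emb

variable {V E V0 E0 : Type*} [Fintype V] [DecidableEq V] [Fintype E] [DecidableEq E]
  [Fintype V0] [DecidableEq V0] [Fintype E0] [DecidableEq E0]

/-- Extension by `0` along `j`. -/
noncomputable def ext (j : E0 → E) (η : E0 → Fin 3) : E → Fin 3 :=
  Function.extend j η (fun _ => 0)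

omit [Fintype E] [DecidableEq E] [Fintype E0] [DecidableEq E0] in
theorem ext_apply {j : E0 → E} (hj : Function.Injective j) (η : E0 → Fin 3) (e : E0) :
    ext j η (j e) = η e := hj.extend_apply _ _ _

omit [Fintype E] [DecidableEq E] [Fintype E0] [DecidableEq E0] in
theorem ext_apply' {j : E0 → E} (η : E0 → Fin 3) (e : E) (h : ¬ ∃ e0, j e0 = e) :
    ext j η e = 0 := Function.extend_apply' _ _ _ h

omit [Fintype E] [DecidableEq E] [Fintype E0] [DecidableEq E0] in
theorem ext_inj {j : E0 → E} (hj : Function.Injective j) :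
    Function.Injective (ext j) := by
  intro a b h
  funext e
  rw [← ext_apply hj a e, ← ext_apply hj b e, h]

omit [Fintype E] [DecidableEq E] [Fintype E0] [DecidableEq E0] in
theorem cc_ext {s t : E → V} {s0 t0 : E0 → V0} {ι : V0 → V} {j : E0 → E}
    (hι : Function.Injective ι) (hj : Function.Injective j)
    (hs : ∀ e, s (j e) = ι (s0 e)) (ht : ∀ e, t (j e) = ι (t0 e))
    (k : Fin 3) (hk : 1 ≤ k) (η : E0 → Fin 3) :
    cc s t (fun e => k ≤ ext j η e) = cc s0 t0 (fun e => k ≤ η e) *
      2 ^ (Fintype.card {v : V // ¬ ∃ v0, ι v0 = v}) := by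
  have h2 : (2 : ℕ) ^ Fintype.card {v : V // ¬ ∃ v0, ι v0 = v} =
      (univ : Finset ({v : V // ¬ ∃ v0, ι v0 = v} → Bool)).card := by
    rw [Finset.card_univ, Fintype.card_fun, Fintype.card_bool]
  unfold cc
  rw [h2, ← Finset.card_product]
  apply Finset.card_nbij' (fun τ => (τ ∘ ι, fun v => τ v.1))
    (fun p v => if h : ∃ v0, ι v0 = v then p.1 h.choose else p.2 ⟨v, h⟩)
  · intro τ hτ
    rw [Finset.mem_coe, mem_cmpSet] at hτ
    rw [Finset.mem_coe, Finset.mem_product, mem_cmpSet]
    refine ⟨?_, mem_univ _⟩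
    intro e he
    have := hτ (j e) (by rw [ext_apply hj]; exact he)
    rw [hs, ht] at this
    exact this
  · intro p hp
    rw [Finset.mem_coe, Finset.mem_product, mem_cmpSet] at hp
    rw [Finset.mem_coe, mem_cmpSet]
    intro e he
    have h1 : ∃ e0, j e0 = e := by
      by_contra h1
      rw [ext_apply' η e h1] at he
      exact absurd (le_trans hk he) (by decide)
    obtain ⟨e0, rfl⟩ := h1
    rw [ext_apply hj] at he
    have h3 := hp.1 e0 he
    have h4 : ∀ v0 : V0, (if h : ∃ v1, ι v1 = ι v0 then p.1 h.choose else p.2 ⟨ι v0, h⟩) =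
        p.1 v0 := by
      intro v0
      have h5 : ∃ v1, ι v1 = ι v0 := ⟨v0, rfl⟩
      rw [dif_pos h5]
      exact congrArg p.1 (hι h5.choose_spec)
    rw [hs, ht]
    simp only [h4]
    exact h3
  · intro τ _
    funext v
    by_cases h : ∃ v0, ι v0 = v
    · simp only [dif_pos h, Function.comp]
      rw [h.choose_spec]
    · simp only [dif_neg h]
  · intro p _
    apply Prod.ext
    · funext v0
      have h5 : ∃ v1, ι v1 = ι v0 := ⟨v0, rfl⟩
      simp only [Function.comp, dif_pos h5]
      exact congrArg p.1 (hι h5.choose_spec)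
    · funext v
      simp only [dif_neg v.2]

omit [Fintype V] [DecidableEq V] [Fintype V0] [DecidableEq V0] [DecidableEq E0] in
theorem prod_ext {j : E0 → E} (hj : Function.Injective j) (p : Fin 3 → ℝ) (η : E0 → Fin 3) :
    ∏ e, p (ext j η e) = (∏ e, p (η e)) * p 0 ^ (Fintype.card {e : E // ¬ ∃ e0, j e0 = e}) := by
  rw [← Finset.prod_mul_prod_compl (univ.image j)]
  congr 1
  · rw [Finset.prod_image (fun a _ b _ h => hj h)]
    exact Finset.prod_congr rfl fun e _ => by rw [ext_apply hj]
  · rw [Finset.prod_congr rfl (g := fun _ => p 0)]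
    · rw [Finset.prod_const, Fintype.card_subtype]
      congr 2
      ext e
      simp
    · intro e he
      rw [ext_apply']
      simpa using he

omit [DecidableEq E0] in
theorem wt_ext {s t : E → V} {s0 t0 : E0 → V0} {ι : V0 → V} {j : E0 → E}
    (hι : Function.Injective ι) (hj : Function.Injective j)
    (hs : ∀ e, s (j e) = ι (s0 e)) (ht : ∀ e, t (j e) = ι (t0 e)) (p : Fin 3 → ℝ)
    (η : E0 → Fin 3) :
    wt s t p (ext j η) = (p 0 ^ (Fintype.card {e : E // ¬ ∃ e0, j e0 = e}) *
      (2 ^ (Fintype.card {v : V // ¬ ∃ v0, ι v0 = v})) ^ 2) * wt s0 t0 p η := by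
  unfold wt
  rw [prod_ext hj, cc_ext hι hj hs ht 1 le_rfl, cc_ext hι hj hs ht 2 (by decide)]
  push_cast
  ring

theorem sum_wF {j : E0 → E} (hj : Function.Injective j) (s t : E → V) (p : Fin 3 → ℝ)
    (h : (E → Fin 3) → ℝ) :
    ∑ ω, wF s t p (fun e => ∃ e0, j e0 = e) ω * h ω =
      ∑ η, wt s t p (ext j η) * h (ext j η) := by
  rw [← Finset.sum_image (s := univ) (g := ext j) (f := fun ω => wt s t p ω * h ω)
    (fun a _ b _ h => ext_inj hj h)]
  rw [← Finset.sum_subset (Finset.subset_univ (univ.image (ext j)))]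
  · apply Finset.sum_congr rfl
    intro ω hω
    obtain ⟨η, -, rfl⟩ := Finset.mem_image.mp hω
    unfold wF
    rw [if_pos]
    intro e he
    exact ext_apply' η e he
  · intro ω _ hω
    unfold wF
    rw [if_neg, zero_mul]
    intro hz
    apply hω
    rw [Finset.mem_image]
    refine ⟨ω ∘ j, mem_univ _, ?_⟩
    funext e
    by_cases he : ∃ e0, j e0 = e
    · obtain ⟨e0, rfl⟩ := he
      rw [ext_apply hj]
      rfl
    · rw [ext_apply' _ _ he, hz e he]

/-- A finite graph embedded in a finite graph: the measure conditioned on `0` off the image is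
the measure of the small graph. -/
theorem Ex_emb {s t : E → V} {s0 t0 : E0 → V0} {ι : V0 → V} {j : E0 → E}
    (hι : Function.Injective ι) (hj : Function.Injective j)
    (hs : ∀ e, s (j e) = ι (s0 e)) (ht : ∀ e, t (j e) = ι (t0 e)) {p : Fin 3 → ℝ}
    (hp : 0 < p 0) (h : (E → Fin 3) → ℝ) :
    Ex (wF s t p (fun e => ∃ e0, j e0 = e)) h = Ex (wt s0 t0 p) (fun η => h (ext j η)) := by
  unfold Ex
  have h1 := sum_wF hj s t p h
  have h2 := sum_wF hj s t p (fun _ => 1)
  simp only [mul_one] at h2
  rw [h1, h2]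
  simp only [wt_ext hι hj hs ht]
  set C : ℝ := p 0 ^ (Fintype.card {e : E // ¬ ∃ e0, j e0 = e}) *
      (2 ^ (Fintype.card {v : V // ¬ ∃ v0, ι v0 = v})) ^ 2 with hC
  have hCpos : 0 < C := by positivity
  simp only [mul_assoc]
  rw [← Finset.mul_sum, ← Finset.mul_sum, mul_div_mul_left _ _ hCpos.ne']

end emb

/-! ### Components and compatible labelings -/

theorem card_lab {W : Type*} [Fintype W] [DecidableEq W] (G : SimpleGraph W) :
    (univ.filter (fun τ : W → Bool => ∀ x y, G.Adj x y → τ x = τ y)).card =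
      2 ^ Nat.card G.ConnectedComponent := by
  have h1 : Nat.card (G.ConnectedComponent → Bool) = 2 ^ Nat.card G.ConnectedComponent := by
    rw [Nat.card_fun, Nat.card_eq_fintype_card (α := Bool), Fintype.card_bool]
  rw [← h1, ← Fintype.card_coe, ← Nat.card_eq_fintype_card]
  have key : ∀ (τ : W → Bool), (∀ x y, G.Adj x y → τ x = τ y) →
      ∀ (x y : W) (p : G.Walk x y), τ x = τ y := by
    intro τ hτ x y p
    induction p with
    | nil => rfl
    | cons h _ ih => exact (hτ _ _ h).trans ih
  refine Nat.card_congr ?_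
  refine {
    toFun := fun τ => SimpleGraph.ConnectedComponent.lift τ.1
      (fun x y p _ => key τ.1 (Finset.mem_filter.mp τ.2).2 x y p)
    invFun := fun f => ⟨fun x => f (G.connectedComponentMk x), ?_⟩
    left_inv := ?_
    right_inv := ?_ }
  · rw [Finset.mem_filter]
    refine ⟨mem_univ _, ?_⟩
    intro x y hxy
    exact congrArg f (SimpleGraph.ConnectedComponent.sound hxy.reachable)
  · intro τ
    apply Subtype.ext
    funext x
    rfl
  · intro f
    funext c
    induction c using SimpleGraph.ConnectedComponent.ind with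
    | h x => rfl

/-! ### The box as a finite graph -/

variable {d n : ℕ}

/-- Vertices of the box. -/
abbrev BV (d n : ℕ) : Type := {x : Fin d → ℤ // x ∈ box d n}

/-- Edges of the box. -/
abbrev BE (d n : ℕ) : Type := {e : Edge d // e ∈ boxEdges d n}

theorem mem_boxEdges {e : Edge d} : e ∈ boxEdges d n ↔ esrc e ∈ box d n ∧ etgt e ∈ box d n := by
  unfold boxEdges
  rw [Finset.mem_filter, Finset.mem_product]
  simp [esrc]

/-- First endpoint. -/
def bsrc (e : BE d n) : BV d n := ⟨esrc e.1, (mem_boxEdges.mp e.2).1⟩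

/-- Second endpoint. -/
def btgt (e : BE d n) : BV d n := ⟨etgt e.1, (mem_boxEdges.mp e.2).2⟩

theorem extend0_apply (ω : BE d n → Fin 3) {e : Edge d} (h : e ∈ boxEdges d n) :
    extend0 ω e = ω ⟨e, h⟩ := by
  unfold extend0
  rw [dif_pos h]

theorem extend0_apply' (ω : BE d n → Fin 3) {e : Edge d} (h : e ∉ boxEdges d n) :
    extend0 ω e = 0 := by
  unfold extend0
  rw [dif_neg h]

theorem cc_box (k : Fin 3) (hk : 1 ≤ k) (ω : BE d n → Fin 3) :
    cc (bsrc : BE d n → BV d n) btgt (fun e => k ≤ ω e) = 2 ^ numComp k ω := by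
  unfold numComp cc
  have h := card_lab (W := ((box d n : Finset (Fin d → ℤ)) : Set (Fin d → ℤ)))
    ((openGraph k (extend0 ω)).induce (box d n : Set (Fin d → ℤ)))
  rw [← h]
  apply congrArg
  ext τ
  rw [mem_cmpSet, Finset.mem_filter]
  constructor
  · intro hτ
    refine ⟨mem_univ _, ?_⟩
    rintro ⟨x, hx⟩ ⟨y, hy⟩ hxy
    obtain ⟨e, he, hc⟩ := (SimpleGraph.comap_adj.mp hxy)
    have hm : e ∈ boxEdges d n := by
      by_contra hm
      rw [extend0_apply' ω hm] at he
      exact absurd (le_trans hk he) (by decide)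
    rw [extend0_apply ω hm] at he
    have h3 := hτ ⟨e, hm⟩ he
    rcases hc with ⟨h4, h5⟩ | ⟨h4, h5⟩
    · simp only [Function.Embedding.subtype_apply] at h4 h5
      subst h4; subst h5
      exact h3
    · simp only [Function.Embedding.subtype_apply] at h4 h5
      subst h4; subst h5
      exact h3.symm
  · rintro ⟨-, hτ⟩ e he
    apply hτ
    refine SimpleGraph.comap_adj.mpr ⟨e.1, ?_, Or.inl ⟨rfl, rfl⟩⟩
    rw [extend0_apply ω e.2]
    exact he

theorem boxWeight_eq (β J₁ J₂ : ℝ) (ω : BE d n → Fin 3) :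
    boxWeight d n β J₁ J₂ ω = wt (bsrc : BE d n → BV d n) btgt (par β J₁ J₂) ω := by
  unfold boxWeight wt
  rw [cc_box 1 le_rfl, cc_box 2 (by decide), pow_add]
  push_cast
  ring

theorem bprob_eq (d M : ℕ) (β J₁ J₂ : ℝ) (A : Config d → Prop) :
    bprob d M β J₁ J₂ A = Ex (wt (bsrc : BE d M → BV d M) btgt (par β J₁ J₂))
      (fun ω => ind (A (extend0 ω))) := by
  unfold bprob
  have : boxWeight d M β J₁ J₂ = wt (bsrc : BE d M → BV d M) btgt (par β J₁ J₂) := by
    funext ω
    exact boxWeight_eq β J₁ J₂ ω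
  rw [this]

end Run7.h643.AT
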