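import Pool.Agent.Run7.h643.AT1

/-!
Finite-volume comparison for the Ashkin–Teller random-cluster measures of the boxes and the torus.
-/

namespace Run7.h643.AT

open Finset Run7.h165
open scoped Classical

/-! ### The parameters -/

theorem par_pos {β J₁ J₂ : ℝ} (hβ : 0 < β) (h1 : 0 < J₁) (h2 : J₁ < J₂) (i : Fin 3) :
    0 < par β J₁ J₂ i := by
  fin_cases i
  · exact Real.exp_pos _
  · show 0 < Real.exp (-β * J₁) - Real.exp (-β * J₂)
    rw [sub_pos, Real.exp_lt_exp]
    nlinarith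
  · show 0 < 1 - Real.exp (-β * J₁)
    rw [sub_pos, Real.exp_lt_one_iff]
    nlinarith

theorem par_sum (β J₁ J₂ : ℝ) : ∑ i, par β J₁ J₂ i = 1 := by
  rw [Fin.sum_univ_three]
  show Real.exp (-β * J₂) + (Real.exp (-β * J₁) - Real.exp (-β * J₂)) +
    (1 - Real.exp (-β * J₁)) = 1
  ring

theorem exp_conv {θ x : ℝ} (h0 : 0 ≤ θ) (h1 : θ ≤ 1) :
    Real.exp (θ * x) ≤ θ * Real.exp x + (1 - θ) := by
  have := convexOn_exp.2 (Set.mem_univ x) (Set.mem_univ 0) h0 (sub_nonneg.mpr h1) (by ring)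
  simpa [smul_eq_mul] using this

theorem par_mlr {β β' J₁ J₂ : ℝ} (hβ : 0 < β) (hββ : β ≤ β') (h1 : 0 < J₁) (h2 : J₁ < J₂) :
    MLR (par β J₁ J₂) (par β' J₁ J₂) := by
  have hβ' : 0 < β' := lt_of_lt_of_le hβ hββ
  set θ : ℝ := β / β' with hθ
  have hθ0 : 0 ≤ θ := by positivity
  have hθ1 : θ ≤ 1 := (div_le_one hβ').mpr hββ
  have hθβ : θ * β' = β := by rw [hθ]; field_simp
  set p := par β J₁ J₂ with hp
  set q := par β' J₁ J₂ with hq
  have hpp : ∀ i, 0 < p i := par_pos hβ h1 h2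
  have hqp : ∀ i, 0 < q i := par_pos hβ' h1 h2
  have p0 : p 0 = Real.exp (-β * J₂) := rfl
  have p1 : p 1 = Real.exp (-β * J₁) - Real.exp (-β * J₂) := rfl
  have p2 : p 2 = 1 - Real.exp (-β * J₁) := rfl
  have q0 : q 0 = Real.exp (-β' * J₂) := rfl
  have q1 : q 1 = Real.exp (-β' * J₁) - Real.exp (-β' * J₂) := rfl
  have q2 : q 2 = 1 - Real.exp (-β' * J₁) := rfl
  -- 0 versus 1
  have e01 : p 1 * q 0 ≤ p 0 * q 1 := by
    rw [p0, p1, q0, q1, sub_mul, mul_sub, ← Real.exp_add, ← Real.exp_add, ← Real.exp_add]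
    have : Real.exp (-β * J₁ + -β' * J₂) ≤ Real.exp (-β * J₂ + -β' * J₁) := by
      rw [Real.exp_le_exp]; nlinarith
    have e2 : -β * J₂ + -β' * J₂ = -β * J₂ + -β' * J₂ := rfl
    linarith
  -- 1 versus 2
  have e12 : p 2 * q 1 ≤ p 1 * q 2 := by
    have a1 : Real.exp (β * J₁) - 1 ≤ θ * (Real.exp (β' * J₁) - 1) := by
      have := exp_conv (x := β' * J₁) hθ0 hθ1
      rw [← mul_assoc, hθβ] at this
      linarith
    have a2 : θ * (1 - Real.exp (-(β' * (J₂ - J₁)))) ≤ 1 - Real.exp (-(β * (J₂ - J₁))) := by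
      have := exp_conv (x := -(β' * (J₂ - J₁))) hθ0 hθ1
      rw [show θ * -(β' * (J₂ - J₁)) = -(θ * β' * (J₂ - J₁)) by ring, hθβ] at this
      linarith
    have b1 : p 2 = Real.exp (-β * J₁) * (Real.exp (β * J₁) - 1) := by
      rw [p2, mul_sub, ← Real.exp_add]
      simp
    have b2 : q 2 = Real.exp (-β' * J₁) * (Real.exp (β' * J₁) - 1) := by
      rw [q2, mul_sub, ← Real.exp_add]
      simp
    have b3 : p 1 = Real.exp (-β * J₁) * (1 - Real.exp (-(β * (J₂ - J₁)))) := by
      rw [p1, mul_sub, ← Real.exp_add]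
      congr 2
      · ring
      · ring
    have b4 : q 1 = Real.exp (-β' * J₁) * (1 - Real.exp (-(β' * (J₂ - J₁)))) := by
      rw [q1, mul_sub, ← Real.exp_add]
      congr 2
      · ring
      · ring
    rw [b1, b2, b3, b4]
    have c1 : 0 ≤ 1 - Real.exp (-(β' * (J₂ - J₁))) := by
      rw [sub_nonneg, Real.exp_le_one_iff]
      nlinarith
    have c2 : 0 ≤ Real.exp (β' * J₁) - 1 := by
      rw [sub_nonneg, Real.one_le_exp_iff]
      positivity
    have key : (Real.exp (β * J₁) - 1) * (1 - Real.exp (-(β' * (J₂ - J₁)))) ≤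
        (1 - Real.exp (-(β * (J₂ - J₁)))) * (Real.exp (β' * J₁) - 1) :=
      calc (Real.exp (β * J₁) - 1) * (1 - Real.exp (-(β' * (J₂ - J₁))))
          ≤ (θ * (Real.exp (β' * J₁) - 1)) * (1 - Real.exp (-(β' * (J₂ - J₁)))) :=
            mul_le_mul_of_nonneg_right a1 c1
        _ = (θ * (1 - Real.exp (-(β' * (J₂ - J₁))))) * (Real.exp (β' * J₁) - 1) := by ring
        _ ≤ _ := mul_le_mul_of_nonneg_right a2 c2
    calc Real.exp (-β * J₁) * (Real.exp (β * J₁) - 1) *
          (Real.exp (-β' * J₁) * (1 - Real.exp (-(β' * (J₂ - J₁)))))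
        = (Real.exp (-β * J₁) * Real.exp (-β' * J₁)) * ((Real.exp (β * J₁) - 1) *
          (1 - Real.exp (-(β' * (J₂ - J₁))))) := by ring
      _ ≤ (Real.exp (-β * J₁) * Real.exp (-β' * J₁)) * ((1 - Real.exp (-(β * (J₂ - J₁)))) *
          (Real.exp (β' * J₁) - 1)) := by
          apply mul_le_mul_of_nonneg_left key
          positivity
      _ = _ := by ring
  have e02 : p 2 * q 0 ≤ p 0 * q 2 := by
    have h : (p 2 * q 0) * (p 1 * q 1) ≤ (p 0 * q 2) * (p 1 * q 1) := by
      calc (p 2 * q 0) * (p 1 * q 1) = (p 1 * q 0) * (p 2 * q 1) := by ring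
        _ ≤ (p 0 * q 1) * (p 1 * q 2) := by
            apply mul_le_mul e01 e12
            · exact mul_nonneg (hpp 2).le (hqp 1).le
            · exact mul_nonneg (hpp 0).le (hqp 1).le
        _ = _ := by ring
    exact le_of_mul_le_mul_right h (mul_pos (hpp 1) (hqp 1))
  intro i j hij
  fin_cases i <;> fin_cases j
  · exact le_rfl
  · exact e01
  · exact e02
  · exact absurd hij (by decide)
  · exact le_rfl
  · exact e12
  · exact absurd hij (by decide)
  · exact absurd hij (by decide)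
  · exact le_rfl

/-! ### Boxes -/

variable {d : ℕ}

theorem box_mono {m n : ℕ} (h : m ≤ n) : box d m ⊆ box d n := by
  intro x hx
  unfold Run7.h165.box at hx ⊢
  rw [Fintype.mem_piFinset] at hx ⊢
  intro i
  have := hx i
  rw [Finset.mem_Icc] at this ⊢
  omega

theorem boxEdges_mono {m n : ℕ} (h : m ≤ n) : boxEdges d m ⊆ boxEdges d n := by
  intro e he
  rw [mem_boxEdges] at he ⊢
  exact ⟨box_mono h he.1, box_mono h he.2⟩

/-- Inclusion of the vertices of a box. -/
def incV {m n : ℕ} (h : m ≤ n) (x : BV d m) : BV d n := ⟨x.1, box_mono h x.2⟩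

/-- Inclusion of the edges of a box. -/
def incE {m n : ℕ} (h : m ≤ n) (e : BE d m) : BE d n := ⟨e.1, boxEdges_mono h e.2⟩

theorem incV_inj {m n : ℕ} (h : m ≤ n) : Function.Injective (incV (d := d) h) := by
  intro x y hxy
  exact Subtype.ext (congrArg (fun z => z.1) hxy)

theorem incE_inj {m n : ℕ} (h : m ≤ n) : Function.Injective (incE (d := d) h) := by
  intro x y hxy
  exact Subtype.ext (congrArg (fun z => z.1) hxy)

theorem extend0_ext {m n : ℕ} (h : m ≤ n) (η : BE d m → Fin 3) :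
    extend0 (ext (incE h) η) = extend0 η := by
  funext e
  by_cases h1 : e ∈ boxEdges d m
  · rw [extend0_apply η h1, extend0_apply _ (boxEdges_mono h h1)]
    exact ext_apply (incE_inj h) η ⟨e, h1⟩
  · rw [extend0_apply' η h1]
    by_cases h2 : e ∈ boxEdges d n
    · rw [extend0_apply _ h2]
      apply ext_apply'
      rintro ⟨e0, he0⟩
      apply h1
      have := congrArg (fun z => z.1) he0
      simp only [incE] at this
      rw [← this]
      exact e0.2
    · rw [extend0_apply' _ h2]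

/-- The measure of the small box is the measure of the large box, conditioned. -/
theorem bprob_emb {m n : ℕ} (h : m ≤ n) {β J₁ J₂ : ℝ} (hβ : 0 < β) (h1 : 0 < J₁) (h2 : J₁ < J₂)
    (A : Config d → Prop) :
    Ex (wF (bsrc : BE d n → BV d n) btgt (par β J₁ J₂) (fun e => ∃ e0, incE h e0 = e))
      (fun ω => ind (A (extend0 ω))) = bprob d m β J₁ J₂ A := by
  rw [bprob_eq, Ex_emb (ι := incV h) (s0 := bsrc) (t0 := btgt) (incV_inj h) (incE_inj h)
    (fun e => rfl) (fun e => rfl) (par_pos hβ h1 h2 0)]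
  simp only [extend0_ext]

theorem extend0_mono {n : ℕ} : Monotone (extend0 : (BE d n → Fin 3) → Config d) := by
  intro a b hab e
  by_cases h : e ∈ boxEdges d n
  · rw [extend0_apply _ h, extend0_apply _ h]
    exact hab _
  · rw [extend0_apply' _ h, extend0_apply' _ h]

end Run7.h643.AT

namespace Run7.h643.AT

open Finset Run7.h165
open scoped Classical

/-- (FV1) monotonicity in the box, and in `β`. -/
theorem fv_mono {d M M' : ℕ} (hM : M ≤ M') {β β' J₁ J₂ : ℝ} (hβ : 0 < β) (hββ : β ≤ β')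
    (h1 : 0 < J₁) (h2 : J₁ < J₂) {A : Config d → Prop}
    (hA : ∀ ω ω' : Config d, (∀ e, ω e ≤ ω' e) → A ω → A ω') :
    bprob d M β J₁ J₂ A ≤ bprob d M' β' J₁ J₂ A := by
  rw [← bprob_emb hM hβ h1 h2, bprob_eq, ← wF_univ]
  apply Ex_wF_mono _ _ (par_pos hβ h1 h2) (par_pos (lt_of_lt_of_le hβ hββ) h1 h2)
    (par_mlr hβ hββ h1 h2) (fun _ _ => trivial)
  intro a b hab
  exact ind_mono (hA _ _ (extend0_mono hab))

/-- (FV2) conditional domination. -/
theorem fv_cond {d k M : ℕ} (hk : k ≤ M) {β J₁ J₂ : ℝ} (hβ : 0 < β)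
    (h1 : 0 < J₁) (h2 : J₁ < J₂) {A B : Config d → Prop}
    (hA : ∀ ω ω' : Config d, (∀ e, ω e ≤ ω' e) → A ω → A ω')
    (hA' : ∀ ω ω' : Config d, (∀ e ∈ boxEdges d k, ω e = ω' e) → (A ω ↔ A ω'))
    (hB : ∀ ω ω' : Config d, (∀ e, e ∉ boxEdges d k → ω e = ω' e) → (B ω ↔ B ω')) :
    bprob d M β J₁ J₂ (fun ω => ¬ A ω ∧ B ω) ≤
      bprob d k β J₁ J₂ (fun ω => ¬ A ω) * bprob d M β J₁ J₂ B := by
  rw [bprob_eq d M, bprob_eq d M, ← bprob_emb hk hβ h1 h2]
  simp only [ind_and]
  apply Ex_cond_le _ _ (par_pos hβ h1 h2) (fun e => ∃ e0, incE hk e0 = e)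
    (h := fun ω => ind (¬ A (extend0 ω))) (g := fun ω => ind (B (extend0 ω)))
  · intro a b hab
    exact ind_mono (fun h h' => h (hA _ _ (extend0_mono hab) h'))
  · exact fun ω => ind_nonneg _
  · exact fun ω => ind_nonneg _
  · intro ω ω' h
    have : B (extend0 ω) ↔ B (extend0 ω') := by
      apply hB
      intro e he
      by_cases hm : e ∈ boxEdges d M
      · rw [extend0_apply _ hm, extend0_apply _ hm]
        apply h
        rintro ⟨e0, he0⟩
        apply he
        have := congrArg (fun z => z.1) he0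
        simp only [incE] at this
        rw [← this]
        exact e0.2
      · rw [extend0_apply' _ hm, extend0_apply' _ hm]
    simp only [this]

/-! ### The torus -/

theorem pull_mono {d N : ℕ} : Monotone (pull : (TE d N → Fin 3) → Config d) := by
  intro a b hab e
  exact hab _

theorem cast_add_single {d N : ℕ} (x : Fin d → ℤ) (i : Fin d) :
    (fun j => (((x + Pi.single i 1 : Fin d → ℤ) j : ℤ) : ZMod N)) =
      (fun j => ((x j : ℤ) : ZMod N)) + Pi.single i 1 := by
  funext j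
  simp only [Pi.add_apply]
  push_cast
  congr 1
  by_cases h : j = i
  · subst h; simp
  · simp [h]

/-- (FV3) a box inside the torus. -/
theorem fv_torus {d M N : ℕ} [NeZero N] (hN : 2 * M + 1 < N) {β J₁ J₂ : ℝ} (hβ : 0 < β)
    (h1 : 0 < J₁) (h2 : J₁ < J₂) {A : Config d → Prop}
    (hA : ∀ ω ω' : Config d, (∀ e, ω e ≤ ω' e) → A ω → A ω')
    (hA' : ∀ ω ω' : Config d, (∀ e ∈ boxEdges d M, ω e = ω' e) → (A ω ↔ A ω')) :
    bprob d M β J₁ J₂ A ≤ tprob d N β J₁ J₂ A := by
  let ι : BV d M → TV d N := fun x j => ((x.1 j : ℤ) : ZMod N)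
  let j : BE d M → TE d N := fun e => (fun k => ((e.1.1 k : ℤ) : ZMod N), e.1.2)
  have hbox : ∀ x ∈ box d M, ∀ k, -(M : ℤ) ≤ x k ∧ x k ≤ M := by
    intro x hx k
    have := Fintype.mem_piFinset.mp hx k
    rwa [Finset.mem_Icc] at this
  have hcast : ∀ x ∈ box d M, ∀ y ∈ box d M,
      (fun k => ((x k : ℤ) : ZMod N)) = (fun k => ((y k : ℤ) : ZMod N)) → x = y := by
    intro x hx y hy h
    funext k
    have h3 := congrFun h k
    rw [ZMod.intCast_eq_intCast_iff_dvd_sub] at h3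
    obtain ⟨c, hc⟩ := h3
    have a1 := hbox x hx k
    have a2 := hbox y hy k
    have a3 : (2 * M + 1 : ℤ) < N := by exact_mod_cast hN
    have hc0 : c = 0 := by
      rcases lt_trichotomy c 0 with h | h | h
      · exfalso
        have : (N : ℤ) * c ≤ -(N : ℤ) := by nlinarith
        omega
      · exact h
      · exfalso
        have : (N : ℤ) ≤ (N : ℤ) * c := by nlinarith
        omega
    rw [hc0, mul_zero] at hc
    omega
  have hι : Function.Injective ι := by
    intro x y h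
    exact Subtype.ext (hcast x.1 x.2 y.1 y.2 h)
  have hj : Function.Injective j := by
    intro x y h
    have h3 := congrArg Prod.fst h
    have h4 := congrArg Prod.snd h
    apply Subtype.ext
    apply Prod.ext
    · exact hcast _ (mem_boxEdges.mp x.2).1 _ (mem_boxEdges.mp y.2).1 h3
    · exact h4
  have hs : ∀ e, tsrc (j e) = ι (bsrc e) := fun e => rfl
  have ht : ∀ e, ttgt (j e) = ι (btgt e) := by
    intro e
    exact (cast_add_single e.1.1 e.1.2).symm
  have key := Ex_emb hι hj hs ht (par_pos hβ h1 h2 0)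
    (fun ω => ind (A (pull ω)))
  have e1 : ∀ η : BE d M → Fin 3, A (pull (ext j η)) ↔ A (extend0 η) := by
    intro η
    apply hA'
    intro e he
    rw [extend0_apply _ he]
    exact ext_apply hj η ⟨e, he⟩
  simp only [e1] at key
  rw [bprob_eq, ← key]
  unfold tprob
  rw [← wF_univ]
  apply Ex_wF_mono _ _ (par_pos hβ h1 h2) (par_pos hβ h1 h2)
    (MLR_refl _) (fun _ _ => trivial)
  intro a b hab
  exact ind_mono (hA _ _ (pull_mono hab))

end Run7.h643.AT
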