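import Pool.Agent.Run7.h643.AT2

/-!
Comparison of a finite graph with a subgraph obtained by removing few edges.
-/

namespace Run7.h643.AT

open Finset Run7.h165
open scoped Classical

/-- Logarithmic derivative (in `β`) of the parameters. -/
noncomputable def psi (s J₁ J₂ : ℝ) : Fin 3 → ℝ :=
  ![-J₂, (J₂ * Real.exp (-s * J₂) - J₁ * Real.exp (-s * J₁)) /
      (Real.exp (-s * J₁) - Real.exp (-s * J₂)),
    J₁ * Real.exp (-s * J₁) / (1 - Real.exp (-s * J₁))]

theorem hasDerivAt_exp_neg (s J : ℝ) :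
    HasDerivAt (fun x : ℝ => Real.exp (-x * J)) (-J * Real.exp (-s * J)) s := by
  have h1 : HasDerivAt (fun x : ℝ => -x * J) (-J) s := by
    have := (hasDerivAt_id s).neg.mul_const J
    simpa using this
  exact h1.exp.congr_deriv (by ring)

theorem hasDerivAt_par {s J₁ J₂ : ℝ} (hs : 0 < s) (h1 : 0 < J₁) (h2 : J₁ < J₂) (i : Fin 3) :
    HasDerivAt (fun x => par x J₁ J₂ i) (par s J₁ J₂ i * psi s J₁ J₂ i) s := by
  have a1 := hasDerivAt_exp_neg s J₁
  have a2 := hasDerivAt_exp_neg s J₂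
  have q1 := par_pos hs h1 h2 1
  have q2 := par_pos hs h1 h2 2
  fin_cases i
  · show HasDerivAt (fun x => Real.exp (-x * J₂)) (Real.exp (-s * J₂) * (-J₂)) s
    exact a2.congr_deriv (by ring)
  · show HasDerivAt (fun x => Real.exp (-x * J₁) - Real.exp (-x * J₂))
      ((Real.exp (-s * J₁) - Real.exp (-s * J₂)) *
        ((J₂ * Real.exp (-s * J₂) - J₁ * Real.exp (-s * J₁)) /
      (Real.exp (-s * J₁) - Real.exp (-s * J₂)))) s
    rw [mul_div_cancel₀ _ (show Real.exp (-s * J₁) - Real.exp (-s * J₂) ≠ 0 from q1.ne')]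
    exact (a1.fun_sub a2).congr_deriv (by ring)
  · show HasDerivAt (fun x => 1 - Real.exp (-x * J₁))
      ((1 - Real.exp (-s * J₁)) * (J₁ * Real.exp (-s * J₁) / (1 - Real.exp (-s * J₁)))) s
    rw [mul_div_cancel₀ _ (show 1 - Real.exp (-s * J₁) ≠ 0 from q2.ne')]
    exact (a1.const_sub 1).congr_deriv (by ring)

/-- The gaps of `psi` are bounded below. -/
theorem psi_gap {s b' J₁ J₂ : ℝ} (hs : 0 < s) (hsb : s ≤ b') (h1 : 0 < J₁) (h2 : J₁ < J₂) :
    Monotone (fun i : Fin 3 => psi s J₁ J₂ i - ((J₂ - J₁) / (2 + b' * (J₂ - J₁))) * (i.val : ℝ)) := by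
  set b := J₂ - J₁ with hb
  have hb0 : 0 < b := by rw [hb]; linarith
  have hb' : 0 < b' := lt_of_lt_of_le hs hsb
  set c := b / (2 + b' * b) with hc
  have hc1 : c ≤ b / (2 + s * b) := by
    rw [hc]
    apply div_le_div_of_nonneg_left hb0.le (by positivity)
    nlinarith
  set X := Real.exp (-s * J₁) with hX
  set Y := Real.exp (-(s * b)) with hY
  have hXpos : 0 < X := Real.exp_pos _
  have hYpos : 0 < Y := Real.exp_pos _
  have hXY : Real.exp (-s * J₂) = X * Y := by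
    rw [hX, hY, ← Real.exp_add, hb]; congr 1; ring
  have hY1 : Y < 1 := by
    rw [hY, Real.exp_lt_one_iff]; nlinarith
  have hX1 : X < 1 := by
    rw [hX, Real.exp_lt_one_iff]; nlinarith
  have P0 : psi s J₁ J₂ 0 = -J₂ := rfl
  have P1 : psi s J₁ J₂ 1 = -J₁ + b * Y / (1 - Y) := by
    show (J₂ * Real.exp (-s * J₂) - J₁ * Real.exp (-s * J₁)) /
      (Real.exp (-s * J₁) - Real.exp (-s * J₂)) = _
    rw [hXY, ← hX]
    have e1 : X - X * Y ≠ 0 := by
      have : X - X * Y = X * (1 - Y) := by ring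
      rw [this]
      exact (mul_pos hXpos (by linarith)).ne'
    have e2 : 1 - Y ≠ 0 := by linarith
    field_simp
    rw [hb]
    ring
  have P2 : psi s J₁ J₂ 2 = J₁ * X / (1 - X) := rfl
  have g01 : c ≤ psi s J₁ J₂ 1 - psi s J₁ J₂ 0 := by
    rw [P0, P1]
    have e1 : 0 ≤ b * Y / (1 - Y) := div_nonneg (by positivity) (by linarith)
    have e2 : b / (2 + s * b) ≤ b := by
      rw [div_le_iff₀ (by positivity)]
      nlinarith [mul_pos hs hb0]
    linarith
  have g12 : c ≤ psi s J₁ J₂ 2 - psi s J₁ J₂ 1 := by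
    rw [P1, P2]
    -- `J₁ X / (1 - X) + J₁ = J₁ / (1 - X) ≥ 1 / s`
    have e1 : 1 / s ≤ J₁ * X / (1 - X) + J₁ := by
      have : J₁ * X / (1 - X) + J₁ = J₁ / (1 - X) := by
        have : 1 - X ≠ 0 := by linarith
        field_simp
        ring
      rw [this, div_le_div_iff₀ hs (by linarith)]
      have := Real.add_one_le_exp (-s * J₁)
      rw [← hX] at this
      linarith
    have e2 : b * Y / (1 - Y) ≤ 1 / (s * (1 + s * b / 2)) := by
      rw [div_le_div_iff₀ (by linarith) (by positivity)]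
      have e3 := Real.quadratic_le_exp_of_nonneg (x := s * b) (by positivity)
      have e4 : Y * Real.exp (s * b) = 1 := by
        rw [hY, ← Real.exp_add]; simp
      have e5 : Y * (1 + s * b + (s * b) ^ 2 / 2) ≤ 1 := by
        calc Y * (1 + s * b + (s * b) ^ 2 / 2) ≤ Y * Real.exp (s * b) :=
              mul_le_mul_of_nonneg_left e3 hYpos.le
          _ = 1 := e4
      nlinarith
    have e6 : 1 / s - 1 / (s * (1 + s * b / 2)) = b / (2 + s * b) := by
      have : (2 + s * b) ≠ 0 := by positivity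
      field_simp
      ring
    linarith
  intro i j hij
  fin_cases i <;> fin_cases j
  · exact le_rfl
  · show psi s J₁ J₂ 0 - c * ((0 : ℕ) : ℝ) ≤ psi s J₁ J₂ 1 - c * ((1 : ℕ) : ℝ)
    push_cast
    linarith
  · show psi s J₁ J₂ 0 - c * ((0 : ℕ) : ℝ) ≤ psi s J₁ J₂ 2 - c * ((2 : ℕ) : ℝ)
    push_cast
    linarith
  · exact absurd hij (by decide)
  · exact le_rfl
  · show psi s J₁ J₂ 1 - c * ((1 : ℕ) : ℝ) ≤ psi s J₁ J₂ 2 - c * ((2 : ℕ) : ℝ)
    push_cast
    linarith
  · exact absurd hij (by decide)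
  · exact absurd hij (by decide)
  · exact le_rfl

section graph

variable {V E : Type*} [Fintype V] [DecidableEq V] [Fintype E] [DecidableEq E]

theorem hasDerivAt_wt (s t : E → V) {x J₁ J₂ : ℝ} (hx : 0 < x) (h1 : 0 < J₁) (h2 : J₁ < J₂)
    (ω : E → Fin 3) :
    HasDerivAt (fun x => wt s t (par x J₁ J₂) ω)
      (wt s t (par x J₁ J₂) ω * ∑ e, psi x J₁ J₂ (ω e)) x := by
  have h3 : HasDerivAt (fun x => ∏ e, par x J₁ J₂ (ω e))
      ((∏ e, par x J₁ J₂ (ω e)) * ∑ e, psi x J₁ J₂ (ω e)) x := by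
    refine (HasDerivAt.fun_finsetProd (u := (univ : Finset E))
      (f := fun e x => par x J₁ J₂ (ω e)) (f' := fun e => par x J₁ J₂ (ω e) * psi x J₁ J₂ (ω e))
      (x := x) (fun e _ => hasDerivAt_par hx h1 h2 (ω e))).congr_deriv ?_
    rw [Finset.mul_sum]
    apply Finset.sum_congr rfl
    intro e he
    rw [smul_eq_mul, ← mul_assoc, Finset.prod_erase_mul _ _ he]
  have := (h3.mul_const ((cc s t (fun e => 1 ≤ ω e) : ℕ) : ℝ)).mul_const
    ((cc s t (fun e => 2 ≤ ω e) : ℕ) : ℝ)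
  unfold wt
  exact this.congr_deriv (by ring)

theorem hasDerivAt_wF (s t : E → V) {x J₁ J₂ : ℝ} (hx : 0 < x) (h1 : 0 < J₁) (h2 : J₁ < J₂)
    (F : E → Prop) (ω : E → Fin 3) :
    HasDerivAt (fun x => wF s t (par x J₁ J₂) F ω)
      (wF s t (par x J₁ J₂) F ω * ∑ e, psi x J₁ J₂ (ω e)) x := by
  unfold wF
  by_cases h : ∀ e, ¬ F e → ω e = 0
  · simp only [if_pos h]
    exact hasDerivAt_wt s t hx h1 h2 ω
  · simp only [if_neg h, zero_mul]
    exact hasDerivAt_const _ _

theorem hasDerivAt_logZ (s t : E → V) {x J₁ J₂ : ℝ} (hx : 0 < x) (h1 : 0 < J₁) (h2 : J₁ < J₂)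
    (F : E → Prop) :
    HasDerivAt (fun x => Real.log (∑ ω, wF s t (par x J₁ J₂) F ω))
      (Ex (wF s t (par x J₁ J₂) F) (fun ω => ∑ e, psi x J₁ J₂ (ω e))) x := by
  have h3 : HasDerivAt (fun x => ∑ ω, wF s t (par x J₁ J₂) F ω)
      (∑ ω, wF s t (par x J₁ J₂) F ω * ∑ e, psi x J₁ J₂ (ω e)) x :=
    HasDerivAt.fun_sum (fun ω _ => hasDerivAt_wF s t hx h1 h2 F ω)
  exact h3.log (wF_sum_pos s t (par_pos hx h1 h2) F).ne'

theorem sum_prod_one {p : Fin 3 → ℝ} (hp1 : ∑ i, p i = 1) :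
    ∑ b : E → Fin 3, ∏ e, p (b e) = 1 := by
  have := Finset.prod_univ_sum (fun _ : E => (univ : Finset (Fin 3))) (fun _ i => p i)
  rw [Fintype.piFinset_univ] at this
  rw [← this, hp1]
  simp

/-- Removing the edges off `F` costs at most a factor `p₀` per edge. -/
theorem Z_le (s t : E → V) {p : Fin 3 → ℝ} (hp : ∀ i, 0 < p i) (hp1 : ∑ i, p i = 1)
    (F : E → Prop) :
    (∑ ω, wt s t p ω) * p 0 ^ (Fintype.card {e : E // ¬ F e}) ≤ ∑ ω, wF s t p F ω := by
  have hF : (fun e => ∃ e0 : {e // F e}, e0.1 = e) = F := by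
    funext e
    apply propext
    exact ⟨fun ⟨e0, h⟩ => h ▸ e0.2, fun h => ⟨⟨e, h⟩, rfl⟩⟩
  have h3 := sum_wF (j := (Subtype.val : {e // F e} → E)) Subtype.val_injective s t p
    (fun _ => 1)
  simp only [mul_one] at h3
  rw [hF] at h3
  rw [h3, ← Equiv.sum_comp (Equiv.piEquivPiSubtypeProd F (fun _ => Fin 3)).symm,
    Fintype.sum_prod_type, Finset.sum_mul]
  apply Finset.sum_le_sum
  intro a _
  have h4 : ∀ b : {e // ¬ F e} → Fin 3,
      wt s t p ((Equiv.piEquivPiSubtypeProd F (fun _ => Fin 3)).symm (a, b)) *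
        p 0 ^ (Fintype.card {e : E // ¬ F e}) ≤
      wt s t p (ext (Subtype.val : {e // F e} → E) a) * ∏ e, p (b e) := by
    intro b
    set g : E → Fin 3 := (Equiv.piEquivPiSubtypeProd F (fun _ => Fin 3)).symm (a, b) with hg
    have g1 : ∀ (e : E) (h : F e), g e = a ⟨e, h⟩ := by
      intro e h
      simp [hg, Equiv.piEquivPiSubtypeProd, h]
    have g2 : ∀ (e : E) (h : ¬ F e), g e = b ⟨e, h⟩ := by
      intro e h
      simp [hg, Equiv.piEquivPiSubtypeProd, h]
    have x1 : ∀ (e : E) (h : F e), ext (Subtype.val : {e // F e} → E) a e = a ⟨e, h⟩ :=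
      fun e h => ext_apply Subtype.val_injective a ⟨e, h⟩
    have x2 : ∀ (e : E) (h : ¬ F e), ext (Subtype.val : {e // F e} → E) a e = 0 := by
      intro e h
      apply ext_apply'
      rintro ⟨e0, rfl⟩
      exact h e0.2
    have le1 : ∀ e, ext (Subtype.val : {e // F e} → E) a e ≤ g e := by
      intro e
      by_cases h : F e
      · rw [x1 e h, g1 e h]
      · rw [x2 e h]; exact Fin.zero_le _
    have pr1 : ∏ e, p (g e) = (∏ e : {e // F e}, p (a e)) * ∏ e : {e // ¬ F e}, p (b e) := by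
      rw [← Fintype.prod_subtype_mul_prod_subtype F]
      congr 1
      · exact Finset.prod_congr rfl fun e _ => by rw [g1 e.1 e.2]
      · exact Finset.prod_congr rfl fun e _ => by rw [g2 e.1 e.2]
    have pr2 : ∏ e, p (ext (Subtype.val : {e // F e} → E) a e) =
        (∏ e : {e // F e}, p (a e)) * p 0 ^ (Fintype.card {e : E // ¬ F e}) := by
      rw [← Fintype.prod_subtype_mul_prod_subtype F]
      congr 1
      · exact Finset.prod_congr rfl fun e _ => by rw [x1 e.1 e.2]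
      · rw [Finset.prod_congr rfl (g := fun _ => p 0) (fun e _ => by rw [x2 e.1 e.2])]
        rw [Finset.prod_const, Finset.card_univ]
    have c1 : ∀ k : Fin 3, ((cc s t (fun e => k ≤ g e) : ℕ) : ℝ) ≤
        (cc s t (fun e => k ≤ ext (Subtype.val : {e // F e} → E) a e) : ℕ) := by
      intro k
      exact_mod_cast cc_anti s t (fun e he => le_trans he (le1 e))
    unfold wt
    rw [pr1, pr2]
    have q1 : 0 ≤ ∏ e : {e // F e}, p (a e) := Finset.prod_nonneg fun e _ => (hp _).le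
    have q2 : 0 ≤ ∏ e : {e // ¬ F e}, p (b e) := Finset.prod_nonneg fun e _ => (hp _).le
    have q3 : 0 ≤ p 0 ^ (Fintype.card {e : E // ¬ F e}) := pow_nonneg (hp 0).le _
    have q4 : ((cc s t (fun e => 1 ≤ g e) : ℕ) : ℝ) * (cc s t (fun e => 2 ≤ g e) : ℕ) ≤
        ((cc s t (fun e => 1 ≤ ext (Subtype.val : {e // F e} → E) a e) : ℕ) : ℝ) *
          (cc s t (fun e => 2 ≤ ext (Subtype.val : {e // F e} → E) a e) : ℕ) :=
      mul_le_mul (c1 1) (c1 2) (by positivity) (by positivity)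
    calc _ = ((∏ e : {e // F e}, p (a e)) * (∏ e : {e // ¬ F e}, p (b e)) *
            p 0 ^ (Fintype.card {e : E // ¬ F e})) *
            (((cc s t (fun e => 1 ≤ g e) : ℕ) : ℝ) * (cc s t (fun e => 2 ≤ g e) : ℕ)) := by ring
      _ ≤ ((∏ e : {e // F e}, p (a e)) * (∏ e : {e // ¬ F e}, p (b e)) *
            p 0 ^ (Fintype.card {e : E // ¬ F e})) *
            (((cc s t (fun e => 1 ≤ ext (Subtype.val : {e // F e} → E) a e) : ℕ) : ℝ) *
          (cc s t (fun e => 2 ≤ ext (Subtype.val : {e // F e} → E) a e) : ℕ)) := by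
          apply mul_le_mul_of_nonneg_left q4
          positivity
      _ = _ := by ring
  calc (∑ b, wt s t p ((Equiv.piEquivPiSubtypeProd F (fun _ => Fin 3)).symm (a, b))) *
        p 0 ^ (Fintype.card {e : E // ¬ F e})
      = ∑ b, wt s t p ((Equiv.piEquivPiSubtypeProd F (fun _ => Fin 3)).symm (a, b)) *
        p 0 ^ (Fintype.card {e : E // ¬ F e}) := Finset.sum_mul _ _ _
    _ ≤ ∑ b : {e // ¬ F e} → Fin 3,
        wt s t p (ext (Subtype.val : {e // F e} → E) a) * ∏ e, p (b e) :=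
        Finset.sum_le_sum fun b _ => h4 b
    _ = wt s t p (ext (Subtype.val : {e // F e} → E) a) := by
        have h5 : ∑ b : {e // ¬ F e} → Fin 3, ∏ e, p (b e) = 1 := by
          convert sum_prod_one (E := {e // ¬ F e}) hp1
        rw [← Finset.mul_sum, h5, mul_one]

/-- Difference of the edge averages between the graph and the subgraph `F`. -/
noncomputable def dG (s t : E → V) (p : Fin 3 → ℝ) (F : E → Prop) (e : E) : ℝ :=
  Ex (wt s t p) (fun ω => ((ω e).val : ℝ)) - Ex (wF s t p F) (fun ω => ((ω e).val : ℝ))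

theorem dG_nonneg (s t : E → V) {p : Fin 3 → ℝ} (hp : ∀ i, 0 < p i) (F : E → Prop) (e : E) :
    0 ≤ dG s t p F e := by
  unfold dG
  rw [sub_nonneg, ← wF_univ]
  apply Ex_wF_mono s t hp hp (MLR_refl _) (fun _ _ => trivial)
  intro a b hab
  have := hab e
  simp only
  exact_mod_cast this

/-- Existence of a parameter at which the total difference is at most a constant times the number
of removed edges. -/
theorem exists_param (s t : E → V) {β β' J₁ J₂ : ℝ} (hβ : 0 < β) (hββ : β < β')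
    (h1 : 0 < J₁) (h2 : J₁ < J₂) (F : E → Prop) :
    ∃ x, β < x ∧ x < β' ∧ ∑ e, dG s t (par x J₁ J₂) F e ≤
      ((Fintype.card {e : E // ¬ F e} : ℕ) : ℝ) * (β' * J₂ / (β' - β) * ((2 + β' * (J₂ - J₁)) / (J₂ - J₁))) := by
  set m : ℝ := ((Fintype.card {e : E // ¬ F e} : ℕ) : ℝ) with hm
  set D : ℝ → ℝ := fun x => Real.log (∑ ω, wF s t (par x J₁ J₂) (fun _ => True) ω) -
    Real.log (∑ ω, wF s t (par x J₁ J₂) F ω) with hD
  set D' : ℝ → ℝ := fun x =>
    Ex (wF s t (par x J₁ J₂) (fun _ => True)) (fun ω => ∑ e, psi x J₁ J₂ (ω e)) -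
    Ex (wF s t (par x J₁ J₂) F) (fun ω => ∑ e, psi x J₁ J₂ (ω e)) with hD'
  have hder : ∀ x, 0 < x → HasDerivAt D (D' x) x := fun x hx =>
    (hasDerivAt_logZ s t hx h1 h2 (fun _ => True)).sub (hasDerivAt_logZ s t hx h1 h2 F)
  obtain ⟨x, ⟨hx1, hx2⟩, hx⟩ := exists_hasDerivAt_eq_slope D D' hββ
    (fun x hx => (hder x (lt_of_lt_of_le hβ hx.1)).continuousAt.continuousWithinAt)
    (fun x hx => hder x (lt_trans hβ hx.1))
  have hx0 : 0 < x := lt_trans hβ hx1
  refine ⟨x, hx1, hx2, ?_⟩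
  have hβ' : 0 < β' := lt_trans hβ hββ
  have hDβ : 0 ≤ D β := by
    simp only [hD]
    rw [sub_nonneg]
    apply Real.log_le_log (wF_sum_pos s t (par_pos hβ h1 h2) F)
    apply Finset.sum_le_sum
    intro ω _
    rw [wF_univ]
    unfold wF
    split_ifs
    · exact le_rfl
    · exact (wt_pos s t (par_pos hβ h1 h2) ω).le
  have hDβ' : D β' ≤ m * (β' * J₂) := by
    simp only [hD]
    have q := Z_le s t (par_pos hβ' h1 h2) (par_sum β' J₁ J₂) F
    rw [wF_univ]
    have z1 : 0 < ∑ ω, wt s t (par β' J₁ J₂) ω := by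
      have := wF_sum_pos s t (par_pos hβ' h1 h2) (fun _ => True)
      rwa [wF_univ] at this
    have q2 := Real.log_le_log (mul_pos z1 (pow_pos (par_pos hβ' h1 h2 0) _)) q
    rw [Real.log_mul z1.ne' (pow_pos (par_pos hβ' h1 h2 0) _).ne', Real.log_pow] at q2
    have q3 : Real.log (par β' J₁ J₂ 0) = -β' * J₂ := by
      show Real.log (Real.exp (-β' * J₂)) = _
      rw [Real.log_exp]
    rw [q3, ← hm] at q2
    linarith
  have hsl : D' x ≤ m * (β' * J₂) / (β' - β) := by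
    rw [hx]
    apply div_le_div_of_nonneg_right _ (by linarith)
    linarith
  set c := (J₂ - J₁) / (2 + β' * (J₂ - J₁)) with hc
  have hJ : 0 < J₂ - J₁ := by linarith
  have hc0 : 0 < c := by rw [hc]; positivity
  have hlow : c * ∑ e, dG s t (par x J₁ J₂) F e ≤ D' x := by
    simp only [hD']
    rw [Ex_sum, Ex_sum, ← Finset.sum_sub_distrib, Finset.mul_sum]
    apply Finset.sum_le_sum
    intro e _
    have hmono : Monotone (fun ω : E → Fin 3 => psi x J₁ J₂ (ω e) - c * ((ω e).val : ℝ)) := by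
      intro a b hab
      exact psi_gap hx0 hx2.le h1 h2 (hab e)
    have k1 := Ex_wF_mono s t (par_pos hx0 h1 h2) (par_pos hx0 h1 h2) (MLR_refl _)
      (F := F) (F' := fun _ => True) (fun _ _ => trivial) hmono
    rw [Ex_sub, Ex_sub, Ex_mul_left, Ex_mul_left] at k1
    unfold dG
    rw [wF_univ] at k1 ⊢
    linarith
  have hfin : c * ∑ e, dG s t (par x J₁ J₂) F e ≤ m * (β' * J₂) / (β' - β) := hlow.trans hsl
  have : ∑ e, dG s t (par x J₁ J₂) F e ≤ (m * (β' * J₂) / (β' - β)) / c := by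
    rw [le_div_iff₀ hc0]
    linarith
  refine this.trans (le_of_eq ?_)
  rw [hc]
  have : β' - β ≠ 0 := by linarith
  have : 2 + β' * (J₂ - J₁) ≠ 0 := by positivity
  field_simp

/-- Local comparison. -/
theorem local_diff (s t : E → V) {p : Fin 3 → ℝ} (hp : ∀ i, 0 < p i) (F : E → Prop)
    {α : Type*} (S : Finset α) (φ : α → E) (A : (E → Fin 3) → Prop)
    (hA' : ∀ ω ω' : E → Fin 3, (∀ a ∈ S, ω (φ a) = ω' (φ a)) → (A ω ↔ A ω')) :
    Ex (wt s t p) (fun ω => ind (A ω)) - Ex (wF s t p F) (fun ω => ind (A ω)) ≤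
      ∑ a ∈ S, dG s t p F (φ a) := by
  have hmono : Monotone (fun ω : E → Fin 3 => ∑ a ∈ S, ((ω (φ a)).val : ℝ) - ind (A ω)) := by
    intro ω ω' hab
    by_cases h : ∀ a ∈ S, ω (φ a) = ω' (φ a)
    · have e1 : ind (A ω) = ind (A ω') := by rw [hA' ω ω' h]
      have e2 : ∑ a ∈ S, ((ω (φ a)).val : ℝ) = ∑ a ∈ S, ((ω' (φ a)).val : ℝ) :=
        Finset.sum_congr rfl fun a ha => by rw [h a ha]
      simp only [e1, e2]
      exact le_rfl
    · push Not at h
      obtain ⟨a, ha, hne⟩ := h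
      have e1 : ∑ a ∈ S, ((ω (φ a)).val : ℝ) + 1 ≤ ∑ a ∈ S, ((ω' (φ a)).val : ℝ) := by
        rw [← Finset.add_sum_erase _ _ ha, ← Finset.add_sum_erase _ (fun a => ((ω' (φ a)).val : ℝ)) ha]
        have e3 : ((ω (φ a)).val : ℝ) + 1 ≤ ((ω' (φ a)).val : ℝ) := by
          have : ω (φ a) < ω' (φ a) := lt_of_le_of_ne (hab _) hne
          exact_mod_cast this
        have e4 : ∑ a ∈ S.erase a, ((ω (φ a)).val : ℝ) ≤ ∑ a ∈ S.erase a, ((ω' (φ a)).val : ℝ) :=
          Finset.sum_le_sum fun a _ => by exact_mod_cast (hab (φ a))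
        linarith
      have e5 := ind_nonneg (A ω)
      have e6 := ind_le_one (A ω')
      simp only
      linarith
  have k1 := Ex_wF_mono s t hp hp (MLR_refl _)
      (F := F) (F' := fun _ => True) (fun _ _ => trivial) hmono
  rw [Ex_sub, Ex_sub, Ex_sum, Ex_sum, wF_univ] at k1
  unfold dG
  rw [Finset.sum_sub_distrib]
  linarith

end graph

end Run7.h643.AT
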