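import Pool.Agent.Run7.h643.AT2

/-!
Weak limits of the box measures and cylinder events.
-/

namespace Run7.h643.AT

open Finset Run7.h165 MeasureTheory Filter Topology
open scoped Classical

/-- `A` is determined by the edges of the box `Λ_k`. -/
def Cyl (d k : ℕ) (A : Config d → Prop) : Prop :=
  ∀ ω ω' : Config d, (∀ e ∈ boxEdges d k, ω e = ω' e) → (A ω ↔ A ω')

/-- `A` is increasing. -/
def Inc {d : ℕ} (A : Config d → Prop) : Prop :=
  ∀ ω ω' : Config d, (∀ e, ω e ≤ ω' e) → A ω → A ω'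

variable {d : ℕ}

theorem Cyl.mono {k l : ℕ} (h : k ≤ l) {A : Config d → Prop} (hA : Cyl d k A) : Cyl d l A :=
  fun ω ω' h' => hA ω ω' fun e he => h' e (boxEdges_mono h he)

theorem Cyl.not {k : ℕ} {A : Config d → Prop} (hA : Cyl d k A) : Cyl d k (fun ω => ¬ A ω) :=
  fun ω ω' h' => not_congr (hA ω ω' h')

theorem Cyl.and {k : ℕ} {A B : Config d → Prop} (hA : Cyl d k A) (hB : Cyl d k B) :
    Cyl d k (fun ω => A ω ∧ B ω) :=
  fun ω ω' h' => and_congr (hA ω ω' h') (hB ω ω' h')

/-- Restriction to the edges of a box. -/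
def resE (d k : ℕ) (ω : Config d) : BE d k → Fin 3 := fun e => ω e.1

theorem continuous_resE (d k : ℕ) : Continuous (resE d k) :=
  continuous_pi fun e => continuous_apply e.1

theorem Cyl.eq {k : ℕ} {A : Config d → Prop} (hA : Cyl d k A) (ω : Config d) :
    A ω ↔ A (extend0 (resE d k ω)) := by
  apply hA
  intro e he
  rw [extend0_apply _ he]
  rfl

theorem Cyl.continuous {k : ℕ} {A : Config d → Prop} (hA : Cyl d k A) :
    Continuous (fun ω => ind (A ω)) := by
  have h1 : (fun ω => ind (A ω)) = (fun η => ind (A (extend0 η))) ∘ resE d k := by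
    funext ω
    simp only [Function.comp]
    rw [hA.eq ω]
  rw [h1]
  exact continuous_of_discreteTopology.comp (continuous_resE d k)

theorem Cyl.measurable {k : ℕ} {A : Config d → Prop} (hA : Cyl d k A) :
    MeasurableSet {ω | A ω} := by
  have h1 : {ω | A ω} = (fun ω => ind (A ω)) ⁻¹' {1} := by
    ext ω
    simp only [Set.mem_ofPred_eq, Set.mem_preimage, Set.mem_singleton_iff]
    constructor
    · intro h; exact ind_pos h
    · intro h
      by_contra h2
      rw [ind_neg h2] at h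
      exact zero_ne_one h
  rw [h1]
  exact (isClosed_singleton.preimage hA.continuous).measurableSet

theorem integral_ind {A : Config d → Prop} (hA : MeasurableSet {ω | A ω})
    (μ : Measure (Config d)) : ∫ ω, ind (A ω) ∂μ = μ.real {ω | A ω} := by
  have : (fun ω => ind (A ω)) = Set.indicator {ω | A ω} (fun _ => (1 : ℝ)) := by
    funext ω
    unfold ind
    simp [Set.indicator]
  rw [this, integral_indicator hA]
  simp

/-- The indicator of a cylinder event as a bounded continuous function. -/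
noncomputable def bcf {k : ℕ} {A : Config d → Prop} (hA : Cyl d k A) :
    BoundedContinuousFunction (Config d) ℝ :=
  BoundedContinuousFunction.mkOfCompact ⟨fun ω => ind (A ω), hA.continuous⟩

theorem bcf_apply {k : ℕ} {A : Config d → Prop} (hA : Cyl d k A) (ω : Config d) :
    bcf hA ω = ind (A ω) := rfl

theorem boxWeight_pos {n : ℕ} {β J₁ J₂ : ℝ} (hβ : 0 < β) (h1 : 0 < J₁) (h2 : J₁ < J₂)
    (ω : boxEdges d n → Fin 3) : 0 < boxWeight d n β J₁ J₂ ω := by
  rw [boxWeight_eq]
  exact wt_pos _ _ (par_pos hβ h1 h2) _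

theorem boxWeight_sum_pos (n : ℕ) {β J₁ J₂ : ℝ} (hβ : 0 < β) (h1 : 0 < J₁) (h2 : J₁ < J₂) :
    0 < ∑ ω, boxWeight d n β J₁ J₂ ω :=
  Finset.sum_pos (fun ω _ => boxWeight_pos hβ h1 h2 ω) Finset.univ_nonempty

theorem boxMeasure_prob (n : ℕ) {β J₁ J₂ : ℝ} (hβ : 0 < β) (h1 : 0 < J₁) (h2 : J₁ < J₂) :
    IsProbabilityMeasure (boxMeasure d n β J₁ J₂) := by
  constructor
  unfold boxMeasure
  have hZ := boxWeight_sum_pos (d := d) n hβ h1 h2
  rw [Measure.coe_finsetSum, Finset.sum_apply]
  simp only [Measure.smul_apply, measure_univ, smul_eq_mul, mul_one]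
  rw [← ENNReal.ofReal_sum_of_nonneg, ← Finset.sum_div, div_self hZ.ne', ENNReal.ofReal_one]
  intro ω _
  exact div_nonneg (boxWeight_pos hβ h1 h2 ω).le hZ.le

theorem integral_box (n : ℕ) {β J₁ J₂ : ℝ} (hβ : 0 < β) (h1 : 0 < J₁) (h2 : J₁ < J₂)
    (f : Config d → ℝ) :
    ∫ ω, f ω ∂(boxMeasure d n β J₁ J₂) =
      Ex (boxWeight d n β J₁ J₂) (fun ω => f (extend0 ω)) := by
  have hZ := boxWeight_sum_pos (d := d) n hβ h1 h2
  unfold boxMeasure Ex
  rw [integral_finsetSum_measure]
  · rw [Finset.sum_div]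
    apply Finset.sum_congr rfl
    intro ω _
    rw [integral_smul_measure, integral_dirac, ENNReal.toReal_ofReal
      (div_nonneg (boxWeight_pos hβ h1 h2 ω).le hZ.le), smul_eq_mul]
    ring
  · intro ω _
    apply Integrable.smul_measure _ ENNReal.ofReal_ne_top
    exact integrable_dirac (by simp)

theorem bprob_integral (n : ℕ) {β J₁ J₂ : ℝ} (hβ : 0 < β) (h1 : 0 < J₁) (h2 : J₁ < J₂)
    (A : Config d → Prop) :
    ∫ ω, ind (A ω) ∂(boxMeasure d n β J₁ J₂) = bprob d n β J₁ J₂ A :=
  integral_box n hβ h1 h2 _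

/-- Cylinder events under the weak limit. -/
theorem tendsto_cyl {β J₁ J₂ : ℝ} (hβ : 0 < β) (h1 : 0 < J₁) (h2 : J₁ < J₂)
    {μ : Measure (Config d)} (hμ : IsWeakLimit d β J₁ J₂ μ) {k : ℕ} {A : Config d → Prop}
    (hA : Cyl d k A) :
    Tendsto (fun M => bprob d M β J₁ J₂ A) atTop (𝓝 (μ.real {ω | A ω})) := by
  have h := hμ.2 (bcf hA)
  simp only [bcf_apply] at h
  rw [integral_ind hA.measurable] at h
  simpa only [bprob_integral _ hβ h1 h2] using h

theorem bprob_nonneg (n : ℕ) {β J₁ J₂ : ℝ} (hβ : 0 < β) (h1 : 0 < J₁) (h2 : J₁ < J₂)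
    (A : Config d → Prop) : 0 ≤ bprob d n β J₁ J₂ A :=
  Ex_nonneg _ _ (fun ω => (boxWeight_pos hβ h1 h2 ω).le) (fun ω => ind_nonneg _)

theorem bprob_le_one (n : ℕ) {β J₁ J₂ : ℝ} (hβ : 0 < β) (h1 : 0 < J₁) (h2 : J₁ < J₂)
    (A : Config d → Prop) : bprob d n β J₁ J₂ A ≤ 1 := by
  unfold bprob
  rw [← Ex_const (boxWeight d n β J₁ J₂) 1 (boxWeight_sum_pos n hβ h1 h2)]
  exact Ex_mono _ _ _ (fun ω => (boxWeight_pos hβ h1 h2 ω).le) (fun ω => ind_le_one _)

/-- Increasing cylinder events have a limit. -/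
theorem tendsto_inc {β J₁ J₂ : ℝ} (hβ : 0 < β) (h1 : 0 < J₁) (h2 : J₁ < J₂)
    {A : Config d → Prop} (hA : Inc A) :
    ∃ L, Tendsto (fun M => bprob d M β J₁ J₂ A) atTop (𝓝 L) := by
  refine ⟨_, tendsto_atTop_ciSup ?_ ?_⟩
  · intro M M' h
    exact fv_mono h hβ le_rfl h1 h2 hA
  · exact ⟨1, by rintro _ ⟨M, rfl⟩; exact bprob_le_one M hβ h1 h2 A⟩

/-! ### Existence of the weak limit -/

/-- The generating π-system. -/
def PS (d : ℕ) : Set (Set (Config d)) :=
  {s | ∃ (k : ℕ) (η : Config d), (∀ e, e ∉ boxEdges d k → η e = 0) ∧ s = {ω | η ≤ ω}}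

theorem exists_box (e : Edge d) : ∃ k, e ∈ boxEdges d k := by
  obtain ⟨k, hk⟩ : ∃ k : ℕ, ∀ i, |e.1 i| ≤ (k : ℤ) := by
    refine ⟨∑ i, (e.1 i).natAbs, ?_⟩
    intro i
    rw [Int.abs_eq_natAbs]
    exact_mod_cast Finset.single_le_sum (f := fun i => (e.1 i).natAbs) (fun _ _ => Nat.zero_le _)
      (mem_univ i)
  refine ⟨k + 1, ?_⟩
  rw [mem_boxEdges]
  unfold Run7.h165.box
  rw [Fintype.mem_piFinset, Fintype.mem_piFinset]
  constructor
  · intro i
    rw [Finset.mem_Icc]
    have := abs_le.mp (hk i)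
    simp only [esrc]
    push_cast
    constructor <;> linarith
  · intro i
    rw [Finset.mem_Icc]
    have := abs_le.mp (hk i)
    simp only [etgt, Pi.add_apply]
    by_cases h : i = e.2
    · subst h
      rw [Pi.single_eq_same]
      push_cast
      constructor <;> linarith
    · rw [Pi.single_eq_of_ne h]
      push_cast
      constructor <;> linarith

theorem cyl_ge {k : ℕ} {η : Config d} (hη : ∀ e, e ∉ boxEdges d k → η e = 0) :
    Cyl d k (fun ω => η ≤ ω) := by
  intro ω ω' h
  constructor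
  · intro hω e
    by_cases he : e ∈ boxEdges d k
    · rw [← h e he]; exact hω e
    · rw [hη e he]; exact Fin.zero_le _
  · intro hω e
    by_cases he : e ∈ boxEdges d k
    · rw [h e he]; exact hω e
    · rw [hη e he]; exact Fin.zero_le _

theorem inc_ge (η : Config d) : Inc (fun ω : Config d => η ≤ ω) :=
  fun _ _ h h' e => (h' e).trans (h e)

theorem isPiSystem_PS : IsPiSystem (PS d) := by
  rintro s ⟨k, η, hη, rfl⟩ t ⟨l, ζ, hζ, rfl⟩ _
  refine ⟨max k l, η ⊔ ζ, ?_, ?_⟩
  · intro e he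
    have e1 : e ∉ boxEdges d k := fun h => he (boxEdges_mono (le_max_left _ _) h)
    have e2 : e ∉ boxEdges d l := fun h => he (boxEdges_mono (le_max_right _ _) h)
    rw [Pi.sup_apply, hη e e1, hζ e e2]
    rfl
  · ext ω
    simp only [Set.mem_inter_iff, Set.mem_ofPred_eq, sup_le_iff]

theorem generate_PS : (MeasurableSpace.pi : MeasurableSpace (Config d)) =
    MeasurableSpace.generateFrom (PS d) := by
  apply le_antisymm
  · unfold MeasurableSpace.pi
    apply iSup_le
    intro e
    rw [← measurable_iff_comap_le]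
    have key : ∀ i : Fin 3, MeasurableSet[MeasurableSpace.generateFrom (PS d)]
        {ω : Config d | i ≤ ω e} := by
      intro i
      apply MeasurableSpace.measurableSet_generateFrom
      obtain ⟨k, hk⟩ := exists_box e
      refine ⟨k, Function.update (fun _ => 0) e i, ?_, ?_⟩
      · intro e' he'
        rw [Function.update_of_ne]
        rintro rfl
        exact he' hk
      · ext ω
        simp only [Set.mem_ofPred_eq]
        constructor
        · intro h e'
          by_cases he : e' = e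
          · subst he; rw [Function.update_self]; exact h
          · rw [Function.update_of_ne he]; exact Fin.zero_le _
        · intro h
          have := h e
          rwa [Function.update_self] at this
    refine @measurable_to_countable' _ _ _ _ (MeasurableSpace.generateFrom (PS d)) _ ?_
    intro i
    have h3 : (fun ω : Config d => ω e) ⁻¹' {i} =
        {ω : Config d | i ≤ ω e} \ {ω : Config d | ∃ j, i < j ∧ j ≤ ω e} := by
      ext ω
      simp only [Set.mem_preimage, Set.mem_singleton_iff, Set.mem_sdiff, Set.mem_ofPred_eq]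
      constructor
      · rintro rfl
        exact ⟨le_rfl, fun ⟨j, h4, h5⟩ => absurd (lt_of_lt_of_le h4 h5) (lt_irrefl _)⟩
      · rintro ⟨h4, h5⟩
        by_contra h6
        exact h5 ⟨ω e, lt_of_le_of_ne h4 (Ne.symm h6), le_rfl⟩
    rw [h3]
    apply MeasurableSet.diff (key i)
    have h4 : {ω : Config d | ∃ j, i < j ∧ j ≤ ω e} =
        ⋃ j : Fin 3, ⋃ (_ : i < j), {ω : Config d | j ≤ ω e} := by
      ext ω
      simp
    rw [h4]
    apply MeasurableSet.iUnion
    intro j
    apply MeasurableSet.iUnion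
    intro _
    exact key j
  · apply MeasurableSpace.generateFrom_le
    rintro s ⟨k, η, hη, rfl⟩
    exact (cyl_ge hη).measurable

theorem clusterPt_eq {X : Type*} [TopologicalSpace X] {f : ℕ → X} {x : X}
    (hx : MapClusterPt x atTop f) {g : X → ℝ} (hg : Continuous g) {L : ℝ}
    (h : Tendsto (fun n => g (f n)) atTop (𝓝 L)) : g x = L := by
  have h3 : MapClusterPt (g x) atTop (g ∘ f) := hx.continuousAt_comp hg.continuousAt
  have h5 : ClusterPt (g x) (𝓝 L) := ClusterPt.mono h3 h
  exact eq_of_nhds_neBot h5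

theorem iv_exists (d : ℕ) {β J₁ J₂ : ℝ} (hβ : 0 < β) (h1 : 0 < J₁) (h2 : J₁ < J₂) :
    ∃ μ, IsWeakLimit d β J₁ J₂ μ := by
  let P : ℕ → ProbabilityMeasure (Config d) := fun n =>
    ⟨boxMeasure d n β J₁ J₂, boxMeasure_prob n hβ h1 h2⟩
  have key : ∀ (ν : ProbabilityMeasure (Config d)), MapClusterPt ν atTop P →
      ∀ (k : ℕ) (A : Config d → Prop), Cyl d k A → ∀ L,
      Tendsto (fun M => bprob d M β J₁ J₂ A) atTop (𝓝 L) →
        (ν : Measure (Config d)).real {ω | A ω} = L := by
    intro ν hν k A hA L hL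
    have hc : Continuous (fun ρ : ProbabilityMeasure (Config d) => ∫ ω, bcf hA ω ∂(ρ : Measure _)) :=
      ProbabilityMeasure.continuous_integral_boundedContinuousFunction (bcf hA)
    have h4 : (fun M => ∫ ω, bcf hA ω ∂((P M : ProbabilityMeasure (Config d)) : Measure _)) =
        fun M => bprob d M β J₁ J₂ A := by
      funext M
      exact bprob_integral M hβ h1 h2 A
    have h6 : ∫ ω, bcf hA ω ∂(ν : Measure _) = L :=
      clusterPt_eq hν hc (by rw [h4]; exact hL)
    rw [← h6]
    exact (integral_ind hA.measurable _).symm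
  have huniq : ∀ ν ν' : ProbabilityMeasure (Config d), MapClusterPt ν atTop P →
      MapClusterPt ν' atTop P → ν = ν' := by
    intro ν ν' hν hν'
    apply Subtype.ext
    have hν2 : IsProbabilityMeasure ν.val := ν.2
    have hν2' : IsProbabilityMeasure ν'.val := ν'.2
    refine ext_of_generate_finite (PS d) generate_PS isPiSystem_PS ?_ ?_
    · rintro s ⟨k, η, hη, rfl⟩
      obtain ⟨L, hL⟩ := tendsto_inc hβ h1 h2 (inc_ge η)
      have e1 := key ν hν k _ (cyl_ge hη) L hL
      have e2 := key ν' hν' k _ (cyl_ge hη) L hL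
      have e3 := e1.trans e2.symm
      exact (measureReal_eq_measureReal_iff).mp e3
    · exact hν2.measure_univ.trans hν2'.measure_univ.symm
  obtain ⟨ν, hν⟩ := exists_clusterPt_of_compactSpace (Filter.map P atTop)
  have hten : Tendsto P atTop (𝓝 ν) :=
    tendsto_nhds_of_unique_mapClusterPt (fun ν' hν' => huniq ν' ν hν' hν)
  refine ⟨ν, inferInstance, ?_⟩
  intro f
  exact (ProbabilityMeasure.tendsto_iff_forall_integral_tendsto.mp hten) f

end Run7.h643.AT
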